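import Pool.Agent.Helper61.KP.LiftP

/-!
# The exterior square of a four-dimensional space
-/

set_option autoImplicit false
set_option linter.unusedSectionVars false

open Matrix
open scoped MatrixGroups

namespace Pool.Agent.Helper61.KP

open Pool.Agent.Helper79.KF Pool.Agent.Helper61.KT

variable {F : Type*} [Field F]

/-- the pairs of indices -/
def pr : Fin 6 → Fin 4 × Fin 4 := ![(0, 1), (0, 2), (0, 3), (1, 2), (1, 3), (2, 3)]

/-- two by two minors -/
def mn {ι κ : Type*} (X : Matrix ι κ F) (i j : ι) (k l : κ) : F := X i k * X j l - X i l * X j k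

/-- the second compound matrix -/
def lam2 (X : Matrix (Fin 4) (Fin 4) F) : Matrix (Fin 6) (Fin 6) F :=
  Matrix.of fun s t => mn X (pr s).1 (pr s).2 (pr t).1 (pr t).2

theorem mn_mul (X Y : Matrix (Fin 4) (Fin 4) F) (i j k l : Fin 4) :
    mn (X * Y) i j k l =
      ∑ u : Fin 6, mn X i j (pr u).1 (pr u).2 * mn Y (pr u).1 (pr u).2 k l := by
  have e : ∀ i k, (X * Y) i k = X i 0 * Y 0 k + X i 1 * Y 1 k + X i 2 * Y 2 k + X i 3 * Y 3 k := by
    intro i k; rw [Matrix.mul_apply, Fin.sum_univ_four]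
  rw [Fin.sum_univ_six]
  have p0 : pr 0 = (0, 1) := rfl
  have p1 : pr 1 = (0, 2) := rfl
  have p2 : pr 2 = (0, 3) := rfl
  have p3 : pr 3 = (1, 2) := rfl
  have p4 : pr 4 = (1, 3) := rfl
  have p5 : pr 5 = (2, 3) := rfl
  rw [p0, p1, p2, p3, p4, p5]
  simp only [mn, e]
  ring

theorem lam2_mul (X Y : Matrix (Fin 4) (Fin 4) F) : lam2 (X * Y) = lam2 X * lam2 Y := by
  ext s t
  rw [Matrix.mul_apply]
  simp only [lam2, Matrix.of_apply]
  exact mn_mul X Y _ _ _ _

theorem lam2_one : lam2 (1 : Matrix (Fin 4) (Fin 4) F) = 1 := by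
  have h : ∀ s t : Fin 6, (s = t ∧ (pr s).1 = (pr t).1 ∧ (pr s).2 = (pr t).2 ∧
      (pr s).1 ≠ (pr t).2) ∨ (s ≠ t ∧ ((pr s).1 ≠ (pr t).1 ∨ (pr s).2 ≠ (pr t).2) ∧
      ((pr s).1 ≠ (pr t).2 ∨ (pr s).2 ≠ (pr t).1)) := by decide
  ext s t
  simp only [lam2, Matrix.of_apply, mn]
  rcases h s t with ⟨h1, h2, h3, h4⟩ | ⟨h1, h2, h3⟩
  · rw [h1] at h2 h3 h4
    subst h1
    rw [Matrix.one_apply_eq, Matrix.one_apply_eq, Matrix.one_apply_eq, Matrix.one_apply_ne h4]
    ring
  · rw [Matrix.one_apply_ne h1]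
    have e1 : (1 : Matrix (Fin 4) (Fin 4) F) (pr s).1 (pr t).1 *
        (1 : Matrix (Fin 4) (Fin 4) F) (pr s).2 (pr t).2 = 0 := by
      rcases h2 with h | h
      · rw [Matrix.one_apply_ne h, zero_mul]
      · rw [Matrix.one_apply_ne h, mul_zero]
    have e2 : (1 : Matrix (Fin 4) (Fin 4) F) (pr s).1 (pr t).2 *
        (1 : Matrix (Fin 4) (Fin 4) F) (pr s).2 (pr t).1 = 0 := by
      rcases h3 with h | h
      · rw [Matrix.one_apply_ne h, zero_mul]
      · rw [Matrix.one_apply_ne h, mul_zero]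
    rw [e1, e2, sub_zero]

theorem lam2_smul (r : F) (X : Matrix (Fin 4) (Fin 4) F) : lam2 (r • X) = r ^ 2 • lam2 X := by
  ext s t
  simp only [lam2, Matrix.of_apply, mn, Matrix.smul_apply, smul_eq_mul]
  ring

theorem lam2_para (X Y : Matrix (Fin 4) (Fin 4) F) :
    lam2 (X + Y) + lam2 (X - Y) = (2 : F) • lam2 X + (2 : F) • lam2 Y := by
  ext s t
  simp only [lam2, Matrix.of_apply, mn, Matrix.smul_apply, smul_eq_mul, Matrix.add_apply,
    Matrix.sub_apply]
  ring

/-- the exterior square as a homomorphism -/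
def Lam : GL (Fin 4) F →* GL (Fin 6) F :=
  Units.map
    { toFun := lam2
      map_one' := lam2_one
      map_mul' := lam2_mul }

theorem Lam_val (g : GL (Fin 4) F) : (Lam g : Matrix (Fin 6) (Fin 6) F) =
    lam2 (g : Matrix (Fin 4) (Fin 4) F) := rfl

theorem Lam_smul (u : Fˣ) (g : GL (Fin 4) F) : Lam (u • g) = u ^ 2 • Lam g := by
  apply Units.ext
  rw [Lam_val, val_smul, lam2_smul, val_smul, Lam_val, Units.val_pow_eq_pow_val]

/-- a matrix of rank at most two is a product -/
theorem exists_factor {ι : Type*} [Fintype ι] [DecidableEq ι] {X : Matrix ι ι F}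
    (h : X.rank ≤ 2) : ∃ (U : Matrix ι (Fin 2) F) (W : Matrix (Fin 2) ι F), X = U * W := by
  have h1 : Module.finrank F (LinearMap.range X.mulVecLin) ≤ 2 := h
  obtain ⟨f, hf⟩ : ∃ f : (Fin 2 → F) →ₗ[F] LinearMap.range X.mulVecLin, Function.Surjective f := by
    let b := Module.finBasis F (LinearMap.range X.mulVecLin)
    let w : Fin 2 → LinearMap.range X.mulVecLin := fun k =>
      if h : (k : ℕ) < Module.finrank F (LinearMap.range X.mulVecLin) then b ⟨k, h⟩ else 0
    refine ⟨Fintype.linearCombination F w, ?_⟩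
    rw [← LinearMap.range_eq_top, Fintype.range_linearCombination, eq_top_iff, ← b.span_eq]
    apply Submodule.span_mono
    rintro _ ⟨i, rfl⟩
    refine ⟨⟨i, lt_of_lt_of_le i.2 h1⟩, ?_⟩
    simp only [w]
    rw [dif_pos i.2]
  choose s hs using hf
  refine ⟨Matrix.of fun i k => (f (Pi.single k 1) : ι → F) i,
    Matrix.of fun k j => s ⟨X.mulVecLin (Pi.single j 1), ⟨_, rfl⟩⟩ k, ?_⟩
  ext i j
  rw [Matrix.mul_apply]
  have h3 := hs ⟨X.mulVecLin (Pi.single j 1), ⟨_, rfl⟩⟩
  set v := s ⟨X.mulVecLin (Pi.single j 1), ⟨_, rfl⟩⟩ with hv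
  have h4 : v = ∑ k, v k • (Pi.single k (1 : F) : Fin 2 → F) := by
    ext l
    rw [Finset.sum_apply, Fin.sum_univ_two]
    fin_cases l <;> simp
  have h5 : f v = ∑ k, v k • f (Pi.single k (1 : F)) := by
    conv_lhs => rw [h4]
    rw [map_sum]
    simp only [map_smul]
  rw [h5] at h3
  have h6 := congrArg (fun z : LinearMap.range X.mulVecLin => (z : ι → F) i) h3
  simp only [Submodule.coe_sum, Submodule.coe_smul, Finset.sum_apply, Pi.smul_apply,
    smul_eq_mul, mulVecLin_apply, mulVec_single_one] at h6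
  have h7 : X i j = Matrix.col X j i := rfl
  rw [h7, ← h6]
  refine Finset.sum_congr rfl fun k _ => ?_
  rw [Matrix.of_apply, Matrix.of_apply, mul_comm]

theorem rank_lam2 {X : Matrix (Fin 4) (Fin 4) F} (h : X.rank ≤ 2) : (lam2 X).rank ≤ 1 := by
  obtain ⟨U, W, rfl⟩ := exists_factor h
  have e : lam2 (U * W) = vecMulVec (fun s => mn U (pr s).1 (pr s).2 0 1)
      (fun t => mn W 0 1 (pr t).1 (pr t).2) := by
    ext s t
    rw [vecMulVec_apply]
    simp only [lam2, Matrix.of_apply, mn, Matrix.mul_apply, Fin.sum_univ_two]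
    ring
  rw [e]
  exact rank_vecMulVec_le _ _

/-- the rank of `Λ²c - 1` when `c` anticommutes with some `p` -/
theorem rank_spin (h2 : (2 : F) ≠ 0) {c p : GL (Fin 4) F} {ν : F} (hν : ν ^ 2 = -1)
    (c2 : (c : Matrix (Fin 4) (Fin 4) F) * c = -1)
    (hpc : (p : Matrix (Fin 4) (Fin 4) F) * c = -((c : Matrix (Fin 4) (Fin 4) F) * p)) :
    (lam2 (c : Matrix (Fin 4) (Fin 4) F) - 1).rank ≤ 2 := by
  have hν0 : ν ≠ 0 := by
    rintro rfl
    rw [zero_pow (by norm_num)] at hν
    have : (1 : F) = 0 := by linear_combination hν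
    exact one_ne_zero this
  set C : Matrix (Fin 4) (Fin 4) F := (c : Matrix (Fin 4) (Fin 4) F) with hC
  set P : Matrix (Fin 4) (Fin 4) F := (p : Matrix (Fin 4) (Fin 4) F) with hP
  set X : Matrix (Fin 4) (Fin 4) F := C + ν • 1 with hX
  set Y : Matrix (Fin 4) (Fin 4) F := C - ν • 1 with hY
  have hνν : ν * ν = -1 := by rw [← pow_two]; exact hν
  have XX : X * X = (2 * ν) • X := by
    have : X * X = C * C + (2 * ν) • C + (ν * ν) • 1 := by
      rw [hX]; simp only [add_mul, mul_add, smul_mul_assoc, mul_smul_comm, one_mul, mul_one,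
        smul_smul]
      module
    rw [this, c2, hX, smul_add, smul_smul, mul_assoc, hνν]
    module
  have XY : X * Y = 0 := by
    have : X * Y = C * C - (ν * ν) • 1 := by
      rw [hX, hY]; simp only [add_mul, mul_sub, smul_mul_assoc, mul_smul_comm, one_mul, mul_one,
        smul_smul]
      module
    rw [this, c2, hνν]
    module
  have r1 : X.rank + Y.rank ≤ (1 : Matrix (Fin 4) (Fin 4) F).rank :=
    rank_two (mul_ne_zero h2 hν0) XX XY ⟨_, (one_mul _).symm⟩ ⟨_, (one_mul _).symm⟩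
  rw [rank_one, Fintype.card_fin] at r1
  have pp : P * ((p⁻¹ : GL (Fin 4) F) : Matrix (Fin 4) (Fin 4) F) = 1 := by
    rw [hP, ← Units.val_mul, mul_inv_cancel, Units.val_one]
  have pp' : ((p⁻¹ : GL (Fin 4) F) : Matrix (Fin 4) (Fin 4) F) * P = 1 := by
    rw [hP, ← Units.val_mul, inv_mul_cancel, Units.val_one]
  have PX : P * X = -(Y * P) := by
    rw [hX, hY, mul_add, sub_mul, hpc, mul_smul_comm, mul_one, smul_mul_assoc, one_mul]
    module
  have PY : P * Y = -(X * P) := by
    rw [hX, hY, mul_sub, add_mul, hpc, mul_smul_comm, mul_one, smul_mul_assoc, one_mul]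
    module
  have r2 : X.rank ≤ Y.rank := rank_conj_le
    (S := -((p⁻¹ : GL (Fin 4) F) : Matrix (Fin 4) (Fin 4) F)) (T := P) (by
      rw [neg_mul, neg_mul, mul_assoc, ← neg_neg (Y * P), ← PX, mul_neg, ← mul_assoc, pp', one_mul,
        neg_neg])
  have r3 : Y.rank ≤ X.rank := rank_conj_le
    (S := -((p⁻¹ : GL (Fin 4) F) : Matrix (Fin 4) (Fin 4) F)) (T := P) (by
      rw [neg_mul, neg_mul, mul_assoc, ← neg_neg (X * P), ← PY, mul_neg, ← mul_assoc, pp', one_mul,
        neg_neg])
  have r4 := rank_lam2 (X := X) (by omega)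
  have r5 := rank_lam2 (X := Y) (by omega)
  have e1 : X + Y = (2 : F) • C := by rw [hX, hY]; module
  have e2 : X - Y = (2 * ν) • (1 : Matrix (Fin 4) (Fin 4) F) := by rw [hX, hY]; module
  have e3 := lam2_para X Y
  rw [e1, e2, lam2_smul, lam2_smul, lam2_one, mul_pow, hν] at e3
  have h4 := four_ne h2
  have e4 : (4 : F) • (lam2 C - 1) = (2 : F) • (lam2 X + lam2 Y) := by
    rw [smul_add, ← e3]; module
  have e5 : lam2 C - 1 = ((4 : F)⁻¹ * 2) • (lam2 X + lam2 Y) := by
    rw [mul_smul, ← e4, smul_smul, inv_mul_cancel₀ h4, one_smul]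
  have r6 : (lam2 C - 1).rank ≤ (lam2 X + lam2 Y).rank := rank_conj_le
    (S := ((4 : F)⁻¹ * 2) • 1) (T := 1) (by rw [e5, mul_one, smul_mul_assoc, one_mul])
  have r7 := rank_add_le' (lam2 X) (lam2 Y)
  omega

theorem mn_swap1 (X : Matrix (Fin 4) (Fin 4) F) (i j k l : Fin 4) :
    mn X j i k l = -mn X i j k l := by simp only [mn]; ring

theorem mn_swap2 (X : Matrix (Fin 4) (Fin 4) F) (i j k l : Fin 4) :
    mn X i j l k = -mn X i j k l := by simp only [mn]; ring

/-- if the exterior square is scalar then so is the matrix -/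
theorem scalar_of_lam2 {X : Matrix (Fin 4) (Fin 4) F} {s : F} (hs : s ≠ 0)
    (h : lam2 X = s • 1) : ∃ r : F, X = r • 1 := by
  have hst : ∀ u t : Fin 6, mn X (pr u).1 (pr u).2 (pr t).1 (pr t).2 =
      s * (1 : Matrix (Fin 6) (Fin 6) F) u t := by
    intro u t
    have := congr_fun (congr_fun h u) t
    rw [Matrix.smul_apply, smul_eq_mul] at this
    exact this
  have hd : ∀ i j : Fin 4, i ≠ j → mn X i j i j = s := by
    have key : ∀ i j : Fin 4, i ≠ j → ∃ u : Fin 6, pr u = (i, j) ∨ pr u = (j, i) := by decide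
    intro i j hij
    obtain ⟨u, hu | hu⟩ := key i j hij
    · have := hst u u
      rw [hu, Matrix.one_apply_eq, mul_one] at this
      exact this
    · have := hst u u
      rw [hu, Matrix.one_apply_eq, mul_one] at this
      rw [mn_swap1, mn_swap2, neg_neg]
      exact this
  have hz : ∀ i j k l : Fin 4, i ≠ j → k ≠ l → ¬ (i = k ∧ j = l) → ¬ (i = l ∧ j = k) →
      mn X i j k l = 0 := by
    have key : ∀ i j : Fin 4, i ≠ j → ∃ u : Fin 6, pr u = (i, j) ∨ pr u = (j, i) := by decide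
    intro i j k l hij hkl h1 h2
    obtain ⟨u, hu⟩ := key i j hij
    obtain ⟨t, ht⟩ := key k l hkl
    have hut : u ≠ t := by
      rintro rfl
      rcases hu with hu | hu <;> rcases ht with ht | ht <;> rw [hu] at ht <;>
        simp only [Prod.mk.injEq] at ht
      · exact h1 ht
      · exact h2 ht
      · exact h2 ⟨ht.2, ht.1⟩
      · exact h1 ⟨ht.2, ht.1⟩
    have h3 := hst u t
    rw [Matrix.one_apply_ne hut, mul_zero] at h3
    rcases hu with hu | hu <;> rcases ht with ht | ht <;> rw [hu, ht] at h3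
    · exact h3
    · rw [mn_swap2]; simp only [h3, neg_zero]
    · rw [mn_swap1]; simp only [h3, neg_zero]
    · rw [mn_swap1, mn_swap2]; simp only [h3, neg_zero]
  have third : ∀ i k : Fin 4, ∃ j, j ≠ i ∧ j ≠ k := by decide
  have off : ∀ i k : Fin 4, k ≠ i → X k i = 0 := by
    intro i k hki
    obtain ⟨j, hji, hjk⟩ := third i k
    have e : X k i * mn X i j i j - X i i * mn X k j i j + X j i * mn X k i i j = 0 := by
      simp only [mn]; ring
    rw [hd i j hji.symm, hz k j i j hjk.symm hji.symm (fun h => hki h.1) (fun h => hji h.2),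
      hz k i i j hki hji.symm (fun h => hki h.1) (fun h => hjk h.1.symm), mul_zero, mul_zero,
      sub_zero, add_zero] at e
    exact (mul_eq_zero.1 e).resolve_right hs
  have dg : ∀ i j : Fin 4, i ≠ j → X i i * X j j = s := by
    intro i j hij
    have := hd i j hij
    rw [mn, off j i hij, zero_mul, sub_zero] at this
    exact this
  have eqd : ∀ i j : Fin 4, X i i = X j j := by
    intro i j
    by_cases hij : i = j
    · rw [hij]
    · obtain ⟨k, hki, hkj⟩ := third i j
      have e1 := dg i k hki.symm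
      have e2 := dg j k hkj.symm
      have hk : X k k ≠ 0 := by
        intro h0
        rw [h0, mul_zero] at e1
        exact hs e1.symm
      apply mul_right_cancel₀ hk
      rw [e1, e2]
  refine ⟨X 0 0, ?_⟩
  ext i j
  rw [Matrix.smul_apply, smul_eq_mul]
  by_cases hij : i = j
  · rw [hij, Matrix.one_apply_eq, mul_one]
    exact eqd j 0
  · rw [Matrix.one_apply_ne hij, mul_zero]
    exact off j i hij

end Pool.Agent.Helper61.KP
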