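import Pool.Agent.Helper61.KP.Quat
import Pool.Agent.Helper61.KP.Lam

/-!
# Projective representations of degree four and five with finite image over algebraically
closed fields
-/

set_option autoImplicit false
set_option linter.unusedSectionVars false

open Matrix
open scoped MatrixGroups

namespace Pool.Agent.Helper61.KP

open Pool.Agent.Helper79.KF Pool.Agent.Helper61.KT

variable {F : Type*} [Field F]

section dich

variable {ι : Type*} [Fintype ι] [DecidableEq ι]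

theorem typeOne_of_minus {a b c : GL ι F} (h : Rel a b c) (h2 : (2 : F) ≠ 0)
    (hr : ((c : Matrix ι ι F) - 1).rank ≤ 2) (hc : (c : Matrix ι ι F) ≠ 1)
    (e : ((b⁻¹ * c * b : GL ι F) : Matrix ι ι F) *
      X3 (c : Matrix ι ι F) ((a⁻¹ * c * a : GL ι F) : Matrix ι ι F) =
      -X3 (c : Matrix ι ι F) ((a⁻¹ * c * a : GL ι F) : Matrix ι ι F)) : TypeOne a b := by
  have R := rr h
  obtain ⟨k1, k2, k3, k4⟩ := minus R h2 hr hc e
  refine ⟨_, k1, k2, k3, k4, ?_⟩
  have e4 : (4 : F) • (1 : Matrix ι ι F) = 4 • (1 : Matrix ι ι F) := by module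
  rw [e4, x_sum4]
  refine le_trans (rank_add_le' _ _) ?_
  have r3 := rank_x3 R h2 hr
  have r12 : (X1 (c : Matrix ι ι F) ((a⁻¹ * c * a : GL ι F) : Matrix ι ι F) +
      X2 (c : Matrix ι ι F) ((a⁻¹ * c * a : GL ι F) : Matrix ι ι F)).rank ≤ 2 := by
    refine le_trans (rank_add_le' _ _) ?_
    have r1 := rank_x1 R h2 hr
    have r2 := rank_x2 R h2 hr
    omega
  omega

theorem TypeOne.symm {a b : GL ι F} (h : TypeOne a b) : TypeOne b a := by
  obtain ⟨Z, z1, z2, z3, z4, z5⟩ := h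
  exact ⟨Z, z2, z1, z4, z3, z5⟩

theorem dichotomy' {a b c : GL ι F} (h : Rel a b c) (h2 : (2 : F) ≠ 0)
    (hr : ((c : Matrix ι ι F) - 1).rank ≤ 2) (hc : c ≠ 1) :
    TypeOne a b ∨
    (((b⁻¹ * c * b : GL ι F) : Matrix ι ι F) *
      X3 (c : Matrix ι ι F) ((a⁻¹ * c * a : GL ι F) : Matrix ι ι F) =
      X3 (c : Matrix ι ι F) ((a⁻¹ * c * a : GL ι F) : Matrix ι ι F) ∧
    ((a⁻¹ * c * a : GL ι F) : Matrix ι ι F) *
      X3 (c : Matrix ι ι F) ((b⁻¹ * c * b : GL ι F) : Matrix ι ι F) =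
      X3 (c : Matrix ι ι F) ((b⁻¹ * c * b : GL ι F) : Matrix ι ι F)) := by
  have hc' : (c : Matrix ι ι F) ≠ 1 := fun e => hc (Units.ext e)
  rcases dich (rr h) h2 hr hc' with e | e
  · rcases dich (rr (rel_symm h)) h2 hr hc' with f | f
    · exact Or.inr ⟨e, f⟩
    · exact Or.inl (typeOne_of_minus (rel_symm h) h2 hr hc' f).symm
  · exact Or.inl (typeOne_of_minus h h2 hr hc' e)

theorem trace_inv_mul {A A' B B' C P Q : Matrix ι ι F} (h : RR A A' B B' C P Q) :
    (A' * B').trace = (A * B).trace := by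
  have e1 : P * (A' * B') * P = C * (A' * B) := by
    have k1 : P * A' = C * (A' * P) := by rw [h.aip, h.cc_]
    calc P * (A' * B') * P = P * A' * (B' * P) := by simp only [mul_assoc]
      _ = C * (A' * P) * (B' * P) := by rw [k1]
      _ = C * (A' * (P * B' * P)) := by simp only [mul_assoc]
      _ = C * (A' * B) := by rw [h.pbi, mul_assoc B, h.pp, mul_one]
  have e2 : Q * (A * B) * Q = A' * B * C := by
    have k1 : Q * B = C * (B * C) := by rw [h.bc, h.cc_]
    calc Q * (A * B) * Q = Q * A * B * Q := by simp only [mul_assoc]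
      _ = A' * (Q * B) * Q := by rw [h.qa]; simp only [mul_assoc]
      _ = A' * (C * (B * (C * Q))) := by rw [k1]; simp only [mul_assoc]
      _ = A' * (C * (B * (Q * C))) := by rw [h.qc]
      _ = A' * (C * (B * Q * C)) := by simp only [mul_assoc]
      _ = A' * (C * (C * B * C)) := by rw [h.bq]
      _ = A' * B * C := by
        have : C * (C * B * C) = B * C := by rw [mul_assoc, h.cc_]
        rw [this, mul_assoc]
  have f1 : (P * (A' * B') * P).trace = (A' * B').trace := by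
    rw [trace_mul_comm, ← mul_assoc, h.pp, one_mul]
  have f2 : (Q * (A * B) * Q).trace = (A * B).trace := by
    rw [trace_mul_comm, ← mul_assoc, h.qq, one_mul]
  rw [← f1, ← f2, e1, e2, trace_mul_comm]

end dich

/-- the identities of the second type -/
theorem arith (h2 : (2 : F) ≠ 0) {X Y θ η : F} (hθ : θ ^ 3 = 1) (hη : η ^ 3 = 1) (k1 : X - Y = 1)
    (k2 : θ * η * Y - θ * η ^ 2 * X = 1) (k3 : θ ^ 2 * η ^ 2 * Y = θ * η * Y)
    (k4 : θ * η * Y - θ ^ 2 * η * X = 1) : False := by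
  have hu : (θ * η) ^ 3 = 1 := by rw [mul_pow, hθ, hη, one_mul]
  have hv : (θ * η ^ 2) ^ 3 = 1 := by
    have : (θ * η ^ 2) ^ 3 = θ ^ 3 * (η ^ 3) ^ 2 := by ring
    rw [this, hθ, hη]; ring
  set u : F := θ * η with hud
  set v : F := θ * η ^ 2 with hvd
  have e3 : u * (u - 1) * Y = 0 := by rw [hud]; linear_combination k3
  have vv : v ^ 2 = θ ^ 2 * η := by
    rw [hvd]; linear_combination θ ^ 2 * η * hη
  have e4 : v * (v - 1) * X = 0 := by
    linear_combination X * vv + k2 - k4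
  have cube : ∀ w : F, w ^ 3 = 1 → w * (w - 1) = 0 → w = 1 := by
    intro w hw h
    rcases mul_eq_zero.1 h with h | h
    · rw [h] at hw
      exfalso
      have : (0 : F) = 1 := by linear_combination hw
      exact zero_ne_one this
    · exact sub_eq_zero.1 h
  rcases mul_eq_zero.1 e3 with h | h
  · have u1 := cube u hu h
    rcases mul_eq_zero.1 e4 with h' | h'
    · have v1 := cube v hv h'
      rw [u1, v1] at k2
      apply h2
      linear_combination -k1 - k2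
    · rw [u1, h'] at k2
      rw [h'] at k1
      apply h2
      linear_combination -k1 - k2
  · have hX : X = 1 := by linear_combination k1 + h
    rcases mul_eq_zero.1 e4 with h' | h'
    · have v1 := cube v hv h'
      rw [h, v1, hX] at k2
      apply h2
      linear_combination -k2
    · rw [hX] at h'
      exact one_ne_zero h'

variable {n : ℕ}

theorem core {ι : Type*} [Fintype ι] [DecidableEq ι] (h2 : (2 : F) ≠ 0)
    (L : GL (Fin n) F →* GL ι F)
    (hL : ∀ g, ProjGenLinGroup.mk g = 1 → ∃ s : F, (L g : Matrix ι ι F) = s • 1)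
    (hι : 3 < Fintype.card ι) (φ : K →* PGL(n, F)) (hfin : Finite φ.range)
    {a b a1 b1 : GL (Fin n) F} {c d : GL ι F}
    (ha : ProjGenLinGroup.mk a = φ (gen 0)) (hb : ProjGenLinGroup.mk b = φ (gen 1))
    (ha1 : ProjGenLinGroup.mk a1 = φ (gen 0)) (hb1 : ProjGenLinGroup.mk b1 = (φ (gen 1))⁻¹)
    {θ η : F} (hθ : θ ^ 3 = 1) (hη : η ^ 3 = 1)
    (hLa : (L a1 : Matrix ι ι F) = θ • (L a : Matrix ι ι F))
    (hLb : (L b1 : Matrix ι ι F) = η • (((L b)⁻¹ : GL ι F) : Matrix ι ι F))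
    (RC : Rel (L a) (L b) c) (RD : Rel (L a1) (L b1) d)
    (hrc : ((c : Matrix ι ι F) - 1).rank ≤ 2) (hrd : ((d : Matrix ι ι F) - 1).rank ≤ 2) :
    ∃ r : F, (L a : Matrix ι ι F) = r • 1 := by
  have fin1 : (L a1 : GL ι F) = 1 → ∃ r : F, (L a : Matrix ι ι F) = r • 1 := by
    intro h
    refine ⟨θ ^ 2, ?_⟩
    rw [h, Units.val_one] at hLa
    rw [hLa, smul_smul, ← pow_succ, hθ, one_smul]
  by_cases hc : c = 1
  · rw [hc] at RC
    exact ⟨1, by rw [rel_one RC, Units.val_one, one_smul]⟩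
  by_cases hd : d = 1
  · rw [hd] at RD
    exact fin1 (rel_one RD)
  rcases dichotomy' RC h2 hrc hc with tC | ⟨tC1, tC2⟩
  · have := type_one h2 L hL hι φ (gen_map hfin ha (Or.inl hb)) ha tC
    exact ⟨1, by rw [this, Units.val_one, one_smul]⟩
  rcases dichotomy' RD h2 hrd hd with tD | ⟨tD1, tD2⟩
  · exact fin1 (type_one h2 L hL hι φ (gen_map hfin ha1 (Or.inr hb1)) ha1 tD)
  exfalso
  have hc' : (c : Matrix ι ι F) ≠ 1 := fun e => hc (Units.ext e)
  have hd' : (d : Matrix ι ι F) ≠ 1 := fun e => hd (Units.ext e)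
  have p1 := plus (rr RC) h2 hrc hc' tC1
  have p2 := plus (rr (rel_symm RC)) h2 hrc hc' tC2
  have p3 := trace_inv_mul (rr RC)
  have q1 := plus (rr RD) h2 hrd hd' tD1
  have q2 := plus (rr (rel_symm RD)) h2 hrd hd' tD2
  have q3 := trace_inv_mul (rr RD)
  -- the inverses
  have inv_a : (((L a1)⁻¹ : GL ι F) : Matrix ι ι F) =
      θ ^ 2 • (((L a)⁻¹ : GL ι F) : Matrix ι ι F) := by
    have k1 : (L a1 : Matrix ι ι F) * (θ ^ 2 • (((L a)⁻¹ : GL ι F) : Matrix ι ι F)) = 1 := by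
      rw [hLa, smul_mul_smul_comm, ← Units.val_mul, mul_inv_cancel, Units.val_one]
      have : θ * θ ^ 2 = 1 := by linear_combination hθ
      rw [this, one_smul]
    calc (((L a1)⁻¹ : GL ι F) : Matrix ι ι F) = (((L a1)⁻¹ : GL ι F) : Matrix ι ι F) *
          ((L a1 : Matrix ι ι F) * (θ ^ 2 • (((L a)⁻¹ : GL ι F) : Matrix ι ι F))) := by
          rw [k1, mul_one]
      _ = _ := by rw [← mul_assoc, ← Units.val_mul, inv_mul_cancel, Units.val_one, one_mul]
  have inv_b : (((L b1)⁻¹ : GL ι F) : Matrix ι ι F) = η ^ 2 • (L b : Matrix ι ι F) := by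
    have k1 : (L b1 : Matrix ι ι F) * (η ^ 2 • (L b : Matrix ι ι F)) = 1 := by
      rw [hLb, smul_mul_smul_comm, ← Units.val_mul, inv_mul_cancel, Units.val_one]
      have : η * η ^ 2 = 1 := by linear_combination hη
      rw [this, one_smul]
    calc (((L b1)⁻¹ : GL ι F) : Matrix ι ι F) = (((L b1)⁻¹ : GL ι F) : Matrix ι ι F) *
          ((L b1 : Matrix ι ι F) * (η ^ 2 • (L b : Matrix ι ι F))) := by rw [k1, mul_one]
      _ = _ := by rw [← mul_assoc, ← Units.val_mul, inv_mul_cancel, Units.val_one, one_mul]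
  rw [hLa, hLb, inv_b, smul_mul_smul_comm, smul_mul_smul_comm, trace_smul, trace_smul,
    smul_eq_mul, smul_eq_mul] at q1
  rw [hLa, hLb, inv_a, smul_mul_smul_comm, smul_mul_smul_comm, trace_smul, trace_smul,
    smul_eq_mul, smul_eq_mul] at q2
  rw [hLa, hLb, inv_a, inv_b, smul_mul_smul_comm, smul_mul_smul_comm, trace_smul, trace_smul,
    smul_eq_mul, smul_eq_mul] at q3
  have c1 : ((L b : Matrix ι ι F) * (L a : Matrix ι ι F)).trace =
      ((L a : Matrix ι ι F) * (L b : Matrix ι ι F)).trace := trace_mul_comm _ _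
  have c2 : ((L b : Matrix ι ι F) * (((L a)⁻¹ : GL ι F) : Matrix ι ι F)).trace =
      ((((L a)⁻¹ : GL ι F) : Matrix ι ι F) * (L b : Matrix ι ι F)).trace := trace_mul_comm _ _
  have c3 : ((((L b)⁻¹ : GL ι F) : Matrix ι ι F) * (L a : Matrix ι ι F)).trace =
      ((L a : Matrix ι ι F) * (((L b)⁻¹ : GL ι F) : Matrix ι ι F)).trace := trace_mul_comm _ _
  have c4 : ((((L b)⁻¹ : GL ι F) : Matrix ι ι F) * (((L a)⁻¹ : GL ι F) : Matrix ι ι F)).trace =
      ((((L a)⁻¹ : GL ι F) : Matrix ι ι F) * (((L b)⁻¹ : GL ι F) : Matrix ι ι F)).trace :=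
    trace_mul_comm _ _
  rw [c1, c2] at p2
  rw [c3, c4, p3] at q2
  generalize ((L a : Matrix ι ι F) * (L b : Matrix ι ι F)).trace = X at *
  generalize ((L a : Matrix ι ι F) * (((L b)⁻¹ : GL ι F) : Matrix ι ι F)).trace = Y at *
  generalize ((((L a)⁻¹ : GL ι F) : Matrix ι ι F) * (L b : Matrix ι ι F)).trace = Y' at *
  have hY : Y' = Y := by linear_combination p1 - p2
  rw [hY] at q3
  exact arith h2 hθ hη p1 q1 (by linear_combination q3) (by linear_combination q2)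

/-- `p c = ε c p` -/
theorem PRel.pc {ε : Fˣ} {a b c : GL (Fin n) F} (h : PRel ε a b c) :
    a⁻¹ * c * a * c = ε • (c * (a⁻¹ * c * a)) := by
  have haa : a * a = a⁻¹ := inv_three h.a3
  have hci : c⁻¹ = ε • c := by
    rw [inv_eq_iff_mul_eq_one, mul_smul_comm, ← pow_two, h.c2, smul_smul, ← pow_two, h.e2, one_smul]
  have e1 : a⁻¹ * c * a * c = ε • (a * c * a⁻¹) := by
    have e : a⁻¹ * c * a * c = a⁻¹ * a⁻¹ * (a * c) ^ 3 * c⁻¹ * a⁻¹ := by rw [pow_three]; group
    have e2 : a⁻¹ * a⁻¹ = a := by rw [← _root_.mul_inv_rev, haa, inv_inv]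
    rw [e, h.ac, mul_one, e2, hci, mul_smul_comm, smul_mul_assoc]
  have e2 : c * (a⁻¹ * c * a) = a * c * a⁻¹ := by
    have f1 : c⁻¹ * a⁻¹ * c⁻¹ = a * c * a := by
      have : c⁻¹ * a⁻¹ * c⁻¹ = ((a * c) ^ 3)⁻¹ * (a * c * a) := by rw [pow_three]; group
      rw [this, h.ac, inv_one, one_mul]
    have f2 : c⁻¹ * a⁻¹ * c⁻¹ = c * a⁻¹ * c := by
      rw [hci, smul_mul_assoc, smul_mul_assoc, mul_smul_comm, smul_smul, ← pow_two, h.e2, one_smul]
    have f3 : c * (a⁻¹ * c * a) = c * a⁻¹ * c * a := by group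
    rw [f3, ← f2, f1, mul_assoc (a * c), haa]
  rw [e1, e2]

theorem PRel.rel {a b c : GL (Fin n) F} (h : PRel 1 a b c) : Rel a b c :=
  ⟨h.a3, h.b3, by rw [h.c2, one_smul], h.ac, by rw [h.bc, one_smul], by rw [h.h1, one_smul],
    by rw [h.h2, one_smul]⟩

theorem Lam_eps {ε : Fˣ} (h : ε ^ 2 = 1) : Lam (ε • (1 : GL (Fin 4) F)) = 1 := by
  rw [Lam_smul, h, one_smul, map_one]

theorem PRel.lam {ε : Fˣ} {a b c : GL (Fin 4) F} (h : PRel ε a b c) :
    Rel (Lam a) (Lam b) (Lam c) :=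
  ⟨by rw [← map_pow, h.a3, map_one], by rw [← map_pow, h.b3, map_one],
    by rw [← map_pow, h.c2, Lam_eps h.e2], by rw [← map_mul, ← map_pow, h.ac, map_one],
    by rw [← map_mul, ← map_pow, h.bc, Lam_eps h.e2],
    by rw [← map_inv, ← map_mul, ← map_mul, ← map_mul, ← map_pow, h.h1, Lam_eps h.e2],
    by rw [← map_inv, ← map_mul, ← map_mul, ← map_mul, ← map_pow, h.h2, Lam_eps h.e2]⟩

theorem PRel.rank_lam (h2 : (2 : F) ≠ 0) {ν : F} (hν : ν ^ 2 = -1) {ε : Fˣ} (hε : (ε : F) = -1)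
    {a b c : GL (Fin 4) F} (h : PRel ε a b c) :
    ((Lam c : Matrix (Fin 6) (Fin 6) F) - 1).rank ≤ 2 := by
  rw [Lam_val]
  refine rank_spin h2 hν (p := a⁻¹ * c * a) ?_ ?_
  · rw [← Units.val_mul, ← pow_two, h.c2, val_smul, hε, Units.val_one, neg_smul, one_smul]
  · rw [← Units.val_mul, h.pc, val_smul, hε, neg_smul, one_smul, Units.val_mul]

theorem eps_cases {ε : Fˣ} (h : ε ^ 2 = 1) : ε = 1 ∨ (ε : F) = -1 := by
  have h1 : (ε : F) ^ 2 = 1 := by rw [← Units.val_pow_eq_pow_val, h, Units.val_one]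
  have h3 : ((ε : F) - 1) * ((ε : F) + 1) = 0 := by linear_combination h1
  rcases mul_eq_zero.1 h3 with h4 | h4
  · left
    exact Units.ext (by rw [Units.val_one]; exact sub_eq_zero.1 h4)
  · right
    exact eq_neg_of_add_eq_zero_left h4

theorem trivial_of_scalar {φ : K →* PGL(n, F)} {a : GL (Fin n) F}
    (ha : ProjGenLinGroup.mk a = φ (gen 0)) {r : F}
    (h : (a : Matrix (Fin n) (Fin n) F) = r • 1) : φ = 1 := by
  apply trivial_of_gen
  rw [← ha, ProjGenLinGroup.mk_eq_one, Subgroup.mem_center_iff]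
  intro g
  apply Units.ext
  rw [Units.val_mul, Units.val_mul, h, mul_smul_comm, mul_one, smul_mul_assoc, one_mul]

/-- the scalars between two lifts -/
theorem exists_scalar [NeZero n] {a a1 : GL (Fin n) F}
    (h : ProjGenLinGroup.mk a = ProjGenLinGroup.mk a1) (a3 : a ^ 3 = 1) (a13 : a1 ^ 3 = 1) :
    ∃ θ : Fˣ, θ ^ 3 = 1 ∧ a1 = θ • a := by
  obtain ⟨θ, hθ⟩ := mk_eq_iff.1 h
  refine ⟨θ, ?_, hθ.symm⟩
  rw [← hθ, smul_pow, a3] at a13
  exact smul_eq_self a13

variable [IsAlgClosed F]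

/-- degree five -/
theorem closed_five (h2 : (2 : F) ≠ 0) (φ : K →* PGL(5, F)) (hfin : Finite φ.range) : φ = 1 := by
  have R := allRel φ
  obtain ⟨ε, a, b, c, ha, hb, hc, PC⟩ := lift_rel' R.relC
  obtain ⟨ε', a1, b1, d, ha1, hb1, hd, PD⟩ := lift_rel' R.relD
  have one : ∀ (ε : Fˣ) (a b c : GL (Fin 5) F), PRel ε a b c → ε = 1 := by
    intro ε a b c h
    have h1 := congrArg (fun g : GL (Fin 5) F => (g : Matrix (Fin 5) (Fin 5) F).det) h.pc
    simp only [val_smul, Matrix.det_smul, Fintype.card_fin] at h1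
    have h3 : (((a⁻¹ * c * a * c : GL (Fin 5) F) : Matrix (Fin 5) (Fin 5) F)).det =
        (((c * (a⁻¹ * c * a) : GL (Fin 5) F) : Matrix (Fin 5) (Fin 5) F)).det := by
      rw [Units.val_mul, Matrix.det_mul, Units.val_mul c, Matrix.det_mul]
      ring
    rw [h3] at h1
    have h4 : (((c * (a⁻¹ * c * a) : GL (Fin 5) F) : Matrix (Fin 5) (Fin 5) F)).det ≠ 0 := by
      have := ((Matrix.isUnit_iff_isUnit_det _).1 (c * (a⁻¹ * c * a) : GL (Fin 5) F).isUnit)
      exact this.ne_zero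
    have h5 : (ε : F) ^ 5 = 1 := by
      apply mul_right_cancel₀ h4
      rw [one_mul]; exact h1.symm
    have h6 : (ε : F) ^ 2 = 1 := by rw [← Units.val_pow_eq_pow_val, h.e2, Units.val_one]
    apply Units.ext
    rw [Units.val_one]
    linear_combination h5 - ((ε : F) ^ 3 + ε) * h6
  obtain rfl := one _ _ _ _ PC
  obtain rfl := one _ _ _ _ PD
  have RC := PC.rel
  have RD := PD.rel
  obtain ⟨θ, hθ, ea⟩ := exists_scalar (ha.trans ha1.symm) PC.a3 PD.a3
  obtain ⟨η, hη, eb⟩ := exists_scalar (a := b⁻¹) (a1 := b1) (by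
    rw [map_inv, hb, hb1]) (by rw [inv_pow, PC.b3, inv_one]) PD.b3
  obtain ⟨r, hr⟩ := core h2 (MonoidHom.id (GL (Fin 5) F)) (by
    intro g hg
    obtain ⟨u, hu⟩ := mk_one_iff hg
    exact ⟨u, by rw [MonoidHom.id_apply, hu, val_smul, Units.val_one]⟩)
    (by rw [Fintype.card_fin]; norm_num) φ hfin ha hb ha1 hb1 (θ := θ) (η := η)
    (by rw [← Units.val_pow_eq_pow_val, hθ, Units.val_one])
    (by rw [← Units.val_pow_eq_pow_val, hη, Units.val_one])
    (by rw [MonoidHom.id_apply, MonoidHom.id_apply, ea, val_smul])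
    (by rw [MonoidHom.id_apply, MonoidHom.id_apply, eb, val_smul]) RC RD
    (rank_le_of_card RC h2 (by rw [Fintype.card_fin]))
    (rank_le_of_card RD h2 (by rw [Fintype.card_fin]))
  exact trivial_of_scalar ha hr

/-- a linear lift of the relations of `A, B, C` in degree four -/
theorem closed_four_lin (h2 : (2 : F) ≠ 0) (φ : K →* PGL(4, F)) (hfin : Finite φ.range)
    {a b c : GL (Fin 4) F} (h : Rel a b c) (ha : ProjGenLinGroup.mk a = φ (gen 0))
    (hb : ProjGenLinGroup.mk b = φ (gen 1) ∨ ProjGenLinGroup.mk b = (φ (gen 1))⁻¹) : φ = 1 := by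
  have one : a = 1 → φ = 1 := fun e => trivial_of_scalar ha (r := 1) (by
    rw [e, Units.val_one, one_smul])
  by_cases hc : c = 1
  · rw [hc] at h
    exact one (rel_one h)
  have hgen := gen_map hfin ha hb
  rcases dichotomy' h h2 (rank_le_of_card h h2 (by rw [Fintype.card_fin]; norm_num)) hc with
    t | ⟨t1, t2⟩
  · exact one (type_one h2 (MonoidHom.id (GL (Fin 4) F)) (by
      intro g hg
      obtain ⟨u, hu⟩ := mk_one_iff hg
      exact ⟨u, by rw [MonoidHom.id_apply, hu, val_smul, Units.val_one]⟩)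
      (by rw [Fintype.card_fin]; norm_num) φ hgen ha t)
  · exfalso
    obtain ⟨ν, hν⟩ := IsAlgClosed.exists_pow_nat_eq (-1 : F) (n := 2) (by norm_num)
    obtain ⟨s, hs⟩ := IsAlgClosed.exists_pow_nat_eq (2 : F) (n := 2) (by norm_num)
    exact four_two h2 hν hs h hc t1 t2 φ hgen ha

/-- degree four -/
theorem closed_four (h2 : (2 : F) ≠ 0) (φ : K →* PGL(4, F)) (hfin : Finite φ.range) : φ = 1 := by
  have R := allRel φ
  obtain ⟨ε, a, b, c, ha, hb, hc, PC⟩ := lift_rel' R.relC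
  obtain ⟨ε', a1, b1, d, ha1, hb1, hd, PD⟩ := lift_rel' R.relD
  have hb' : ProjGenLinGroup.mk b = φ (gen 1) := hb
  have ha' : ProjGenLinGroup.mk a = φ (gen 0) := ha
  have ha1' : ProjGenLinGroup.mk a1 = φ (gen 0) := ha1
  have hb1' : ProjGenLinGroup.mk b1 = (φ (gen 1))⁻¹ := hb1
  rcases eps_cases PC.e2 with e | e
  · subst e
    exact closed_four_lin h2 φ hfin PC.rel ha' (Or.inl hb')
  rcases eps_cases PD.e2 with e' | e'
  · subst e'
    exact closed_four_lin h2 φ hfin PD.rel ha1' (Or.inr hb1')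
  obtain ⟨ν, hν⟩ := IsAlgClosed.exists_pow_nat_eq (-1 : F) (n := 2) (by norm_num)
  obtain ⟨θ, hθ, ea⟩ := exists_scalar (ha.trans ha1.symm) PC.a3 PD.a3
  obtain ⟨η, hη, eb⟩ := exists_scalar (a := b⁻¹) (a1 := b1) (by
    rw [map_inv, hb', hb1']) (by rw [inv_pow, PC.b3, inv_one]) PD.b3
  have hθ' : (θ : F) ^ 3 = 1 := by rw [← Units.val_pow_eq_pow_val, hθ, Units.val_one]
  have hη' : (η : F) ^ 3 = 1 := by rw [← Units.val_pow_eq_pow_val, hη, Units.val_one]
  obtain ⟨r, hr⟩ := core h2 Lam (by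
    intro g hg
    obtain ⟨u, hu⟩ := mk_one_iff hg
    refine ⟨(u : F) ^ 2, ?_⟩
    rw [hu, Lam_smul, map_one, val_smul, Units.val_pow_eq_pow_val, Units.val_one])
    (by rw [Fintype.card_fin]; norm_num) φ hfin ha' hb' ha1' hb1' (θ := (θ : F) ^ 2)
    (η := (η : F) ^ 2)
    (by rw [← pow_mul, mul_comm, pow_mul, hθ', one_pow])
    (by rw [← pow_mul, mul_comm, pow_mul, hη', one_pow])
    (by rw [ea, Lam_smul, val_smul, Units.val_pow_eq_pow_val])
    (by rw [eb, Lam_smul, val_smul, Units.val_pow_eq_pow_val, map_inv]) PC.lam PD.lam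
    (PC.rank_lam h2 hν e) (PD.rank_lam h2 hν e')
  have hr0 : r ≠ 0 := by
    rintro rfl
    rw [zero_smul] at hr
    have h1 : (Lam a : Matrix (Fin 6) (Fin 6) F) *
        (((Lam a)⁻¹ : GL (Fin 6) F) : Matrix (Fin 6) (Fin 6) F) = 1 := by
      rw [← Units.val_mul, mul_inv_cancel, Units.val_one]
    rw [hr, zero_mul] at h1
    have h3 := congr_fun (congr_fun h1 0) 0
    rw [Matrix.one_apply_eq] at h3
    exact zero_ne_one h3
  obtain ⟨r', hr'⟩ := scalar_of_lam2 hr0 hr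
  exact trivial_of_scalar ha hr'

end Pool.Agent.Helper61.KP
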