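import Mathlib

/-!
# Four explicit matrices of degree eight
-/

set_option autoImplicit false
set_option linter.unusedSimpArgs false

open Matrix

namespace Pool.Agent.Helper61.KP

variable {F : Type*} [Field F]

/-- four times the matrix of `A⁻¹ B` -/
def N1 (y b g d s X Z t U V : F) : Matrix (Fin 8) (Fin 8) F :=
  !![s * t, 0, s * V, 0, -y * Z, -y * Z, -g * Z, g * Z;
    -X * t, 0, -X * V, 0, y * s, y * s, g * s, -g * s;
    0, -4 * d, 0, -4 * g, 2 * y * d + 2 * b * g, -2 * y * d - 2 * b * g, 4 * g * d,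
      4 * g * d;
    0, -4 * b, 0, -4 * y, 4 * y * b, -4 * y * b, 2 * y * d + 2 * b * g,
      2 * y * d + 2 * b * g;
    2 * U, 0, 2 * t, 0, 0, 0, 0, 0;
    0, 4 * d, 0, 4 * g, 2 * y * d + 2 * b * g, -2 * y * d - 2 * b * g, 4 * g * d, 4 * g * d;
    0, 0, 0, 0, 2 * b, 2 * b, 2 * d, -2 * d;
    0, -4 * b, 0, -4 * y, -4 * y * b, 4 * y * b, -2 * y * d - 2 * b * g,
      -2 * y * d - 2 * b * g]

/-- four times the matrix of `A B⁻¹` -/
def N2 (y b g d s X Z t U V : F) : Matrix (Fin 8) (Fin 8) F :=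
  !![s * t, 0, -s * V, 0, y * Z, -y * Z, g * Z, g * Z;
    X * t, 0, -X * V, 0, y * s, -y * s, g * s, g * s;
    0, 4 * d, 0, -4 * g, 2 * y * d + 2 * b * g, 2 * y * d + 2 * b * g, 4 * g * d, -4 * g * d;
    0, -4 * b, 0, 4 * y, -4 * y * b, -4 * y * b, -2 * y * d - 2 * b * g,
      2 * y * d + 2 * b * g;
    0, 4 * d, 0, -4 * g, -2 * y * d - 2 * b * g, -2 * y * d - 2 * b * g, -4 * g * d,
      4 * g * d;
    -2 * U, 0, 2 * t, 0, 0, 0, 0, 0;
    0, 4 * b, 0, -4 * y, -4 * y * b, -4 * y * b, -2 * y * d - 2 * b * g,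
      2 * y * d + 2 * b * g;
    0, 0, 0, 0, -2 * b, 2 * b, -2 * d, -2 * d]

/-- four times the matrix of `A⁻¹ B⁻¹` -/
def N3 (y b g d s X Z t U V : F) : Matrix (Fin 8) (Fin 8) F :=
  !![s * t, 0, -s * V, 0, -y * Z, y * Z, -g * Z, -g * Z;
    -X * t, 0, X * V, 0, y * s, -y * s, g * s, g * s;
    0, 4 * d, 0, -4 * g, -2 * y * d - 2 * b * g, -2 * y * d - 2 * b * g, -4 * g * d,
      4 * g * d;
    0, 4 * b, 0, -4 * y, -4 * y * b, -4 * y * b, -2 * y * d - 2 * b * g,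
      2 * y * d + 2 * b * g;
    -2 * U, 0, 2 * t, 0, 0, 0, 0, 0;
    0, 4 * d, 0, -4 * g, 2 * y * d + 2 * b * g, 2 * y * d + 2 * b * g, 4 * g * d, -4 * g * d;
    0, 0, 0, 0, -2 * b, 2 * b, -2 * d, -2 * d;
    0, -4 * b, 0, 4 * y, -4 * y * b, -4 * y * b, -2 * y * d - 2 * b * g,
      2 * y * d + 2 * b * g]

/-- four times the matrix of `A B` -/
def N4 (y b g d s X Z t U V : F) : Matrix (Fin 8) (Fin 8) F :=
  !![s * t, 0, s * V, 0, y * Z, y * Z, g * Z, -g * Z;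
    X * t, 0, X * V, 0, y * s, y * s, g * s, -g * s;
    0, 4 * d, 0, 4 * g, 2 * y * d + 2 * b * g, -2 * y * d - 2 * b * g, 4 * g * d, 4 * g * d;
    0, -4 * b, 0, -4 * y, -4 * y * b, 4 * y * b, -2 * y * d - 2 * b * g,
      -2 * y * d - 2 * b * g;
    0, -4 * d, 0, -4 * g, 2 * y * d + 2 * b * g, -2 * y * d - 2 * b * g, 4 * g * d,
      4 * g * d;
    2 * U, 0, 2 * t, 0, 0, 0, 0, 0;
    0, -4 * b, 0, -4 * y, 4 * y * b, -4 * y * b, 2 * y * d + 2 * b * g,
      2 * y * d + 2 * b * g;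
    0, 0, 0, 0, 2 * b, 2 * b, 2 * d, -2 * d]

theorem ntr1 (y b g d s X Z t U V : F) : (N1 y b g d s X Z t U V).trace -
    (N2 y b g d s X Z t U V).trace = 4 * d - 8 * y := by
  simp only [N1, N2, N3, N4, Matrix.trace, Matrix.diag_apply, Matrix.mul_apply,
    Fin.sum_univ_eight, Matrix.of_apply, Matrix.cons_val', Matrix.cons_val_zero,
    Matrix.cons_val_one, Matrix.cons_val, Matrix.cons_val_fin_one]
  ring

theorem nt_ii (y b g X Z : F) (h : b * g = 2 * y ^ 2 - 1) :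
    (N1 y b g (2 * y) (-1) X Z 2 0 0 * N1 y b g (2 * y) (-1) X Z 2 0 0 * N1 y b g (2 *
      y) (-1) X Z 2 0 0).trace -
      (N1 y b g (2 * y) (-1) X Z 2 0 0 * N2 y b g (2 * y) (-1) X Z 2 0 0 * N3 y b g (2 *
      y) (-1) X Z 2 0 0).trace =
      1024 * y ^ 4 - 128 * y ^ 2 := by
  simp only [N1, N2, N3, N4, Matrix.trace, Matrix.diag_apply, Matrix.mul_apply,
    Fin.sum_univ_eight, Matrix.of_apply, Matrix.cons_val', Matrix.cons_val_zero,
    Matrix.cons_val_one, Matrix.cons_val, Matrix.cons_val_fin_one]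
  linear_combination (256 * y ^ 2) * h

theorem nt_iii (y b g X Z : F) (h : b * g = 2 * y ^ 2 - 1) :
    (N1 y b g (2 * y) (-1) X Z 2 0 0 * N1 y b g (2 * y) (-1) X Z 2 0 0 * N3 y b g (2 *
      y) (-1) X Z 2 0 0).trace -
      (N1 y b g (2 * y) (-1) X Z 2 0 0 * N2 y b g (2 * y) (-1) X Z 2 0 0 * N1 y b g (2 *
      y) (-1) X Z 2 0 0).trace =
      -1024 * y ^ 4 - 1024 * y ^ 3 + 640 * y ^ 2 + 384 * y - 64 := by
  simp only [N1, N2, N3, N4, Matrix.trace, Matrix.diag_apply, Matrix.mul_apply,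
    Fin.sum_univ_eight, Matrix.of_apply, Matrix.cons_val', Matrix.cons_val_zero,
    Matrix.cons_val_one, Matrix.cons_val, Matrix.cons_val_fin_one]
  linear_combination (-512 * y ^ 2 - 384 * y - 64 * b * g + 64) * h

theorem nn_L4 (y b g X Z U V : F)  :
    (N1 y b g (2 * y) (-1) X Z (-1) U V * N1 y b g (2 * y) (-1) X Z (-1) U V).trace -
      (N2 y b g (2 * y) (-1) X Z (-1) U V * N2 y b g (2 * y) (-1) X Z (-1) U V).trace =
      32 * y * X * V - 8 * y * Z * U := by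
  simp only [N1, N2, N3, N4, Matrix.trace, Matrix.diag_apply, Matrix.mul_apply,
    Fin.sum_univ_eight, Matrix.of_apply, Matrix.cons_val', Matrix.cons_val_zero,
    Matrix.cons_val_one, Matrix.cons_val, Matrix.cons_val_fin_one]
  ring

theorem nn_iv (y b g X Z U V : F) (h : b * g = 2 * y ^ 2 - 1) :
    (N1 y b g (2 * y) (-1) X Z (-1) U V * N4 y b g (2 * y) (-1) X Z (-1) U V * N3 y b g
      (2 * y) (-1) X Z (-1) U V).trace -
      (N3 y b g (2 * y) (-1) X Z (-1) U V * N4 y b g (2 * y) (-1) X Z (-1) U V * N2 y b g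
      (2 * y) (-1) X Z (-1) U V).trace =
      -256 * y ^ 3 * X * V + 64 * y ^ 3 * Z * U + 128 * y ^ 2 * X * V - 32 * y ^ 2 * Z *
      U + 112 * y * X * V - 28 * y * Z * U - 64 * X * V + 16 * Z * U := by
  simp only [N1, N2, N3, N4, Matrix.trace, Matrix.diag_apply, Matrix.mul_apply,
    Fin.sum_univ_eight, Matrix.of_apply, Matrix.cons_val', Matrix.cons_val_zero,
    Matrix.cons_val_one, Matrix.cons_val, Matrix.cons_val_fin_one]
  linear_combination (-96 * y * X * V + 24 * y * Z * U + 64 * X * V - 16 * Z * U) * h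

theorem nn_ii (y b g X Z U V : F) (h : b * g = 2 * y ^ 2 - 1) (hU : U * V = -3) :
    (N1 y b g (2 * y) (-1) X Z (-1) U V * N1 y b g (2 * y) (-1) X Z (-1) U V * N1 y b g
      (2 * y) (-1) X Z (-1) U V).trace -
      (N1 y b g (2 * y) (-1) X Z (-1) U V * N2 y b g (2 * y) (-1) X Z (-1) U V * N3 y b g
      (2 * y) (-1) X Z (-1) U V).trace =
      4096 * y ^ 4 + 256 * y ^ 3 * X * V - 64 * y ^ 3 * Z * U - 128 * y ^ 2 * X * V - 32
      * y ^ 2 * Z * U - 1664 * y ^ 2 - 80 * y * X * V + 20 * y * Z * U + 64 * X * V + 16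
      * Z * U + 48 := by
  simp only [N1, N2, N3, N4, Matrix.trace, Matrix.diag_apply, Matrix.mul_apply,
    Fin.sum_univ_eight, Matrix.of_apply, Matrix.cons_val', Matrix.cons_val_zero,
    Matrix.cons_val_one, Matrix.cons_val, Matrix.cons_val_fin_one]
  linear_combination (1600 * y ^ 2 + 96 * y * X * V - 24 * y * Z * U + 96 * b * g - 64 * X * V - 16 * Z *
    U - 48) * h + (-32 * y ^ 2 - 16 * b * g) * hU

theorem nn_iii (y b g X Z U V : F) (h : b * g = 2 * y ^ 2 - 1) (hU : U * V = -3) :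
    (N1 y b g (2 * y) (-1) X Z (-1) U V * N1 y b g (2 * y) (-1) X Z (-1) U V * N3 y b g
      (2 * y) (-1) X Z (-1) U V).trace -
      (N1 y b g (2 * y) (-1) X Z (-1) U V * N2 y b g (2 * y) (-1) X Z (-1) U V * N1 y b g
      (2 * y) (-1) X Z (-1) U V).trace =
      2048 * y ^ 4 + 256 * y ^ 3 * X * V + 64 * y ^ 3 * Z * U - 256 * y ^ 3 + 128 * y ^
      2 * X * V - 1088 * y ^ 2 - 80 * y * X * V - 28 * y * Z * U - 64 * X * V + 80 := by
  simp only [N1, N2, N3, N4, Matrix.trace, Matrix.diag_apply, Matrix.mul_apply,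
    Fin.sum_univ_eight, Matrix.of_apply, Matrix.cons_val', Matrix.cons_val_zero,
    Matrix.cons_val_one, Matrix.cons_val, Matrix.cons_val_fin_one]
  linear_combination (832 * y ^ 2 + 96 * y * X * V + 24 * y * Z * U + 32 * b * g + 64 * X * V - 80) * h +
    (32 * y ^ 2 + 16 * b * g) * hU

theorem nn_F (y b g X Z U V : F) (h : b * g = 2 * y ^ 2 - 1) (hX : X * Z = -3) (hU : U * V = -3) :
    (N4 y b g (2 * y) (-1) X Z (-1) U V * N4 y b g (2 * y) (-1) X Z (-1) U V * N4 y b g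
      (2 * y) (-1) X Z (-1) U V).trace -
      (N4 y b g (2 * y) (-1) X Z (-1) U V * N3 y b g (2 * y) (-1) X Z (-1) U V * N2 y b g
      (2 * y) (-1) X Z (-1) U V).trace =
      8192 * y ^ 5 + 2048 * y ^ 4 - 256 * y ^ 3 * X * V - 64 * y ^ 3 * Z * U - 5888 * y
      ^ 3 - 128 * y ^ 2 * X * V - 1472 * y ^ 2 + 112 * y * X * V + 36 * y * Z * U + 896
      * y + 64 * X * V + 224 := by
  simp only [N1, N2, N3, N4, Matrix.trace, Matrix.diag_apply, Matrix.mul_apply,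
    Fin.sum_univ_eight, Matrix.of_apply, Matrix.cons_val', Matrix.cons_val_zero,
    Matrix.cons_val_one, Matrix.cons_val, Matrix.cons_val_fin_one]
  linear_combination (3840 * y ^ 3 + 896 * y ^ 2 + 640 * y * b * g - 96 * y * X * V - 24 * y * Z * U -
    896 * y + 128 * b * g - 64 * X * V - 224) * h + (32 * y ^ 2 + 16 * b * g) * hX + (32
    * y ^ 2 + 16 * b * g) * hU

end Pool.Agent.Helper61.KP
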