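import Mathlib

/-!
# Degree eight: the polynomial contradictions
-/

set_option autoImplicit false

namespace Pool.Agent.Helper61.KP

variable {F : Type*} [Field F]

theorem pow2_ne (h2 : (2 : F) ≠ 0) (k : ℕ) : (2 : F) ^ k ≠ 0 := pow_ne_zero k h2

/-- the first family -/
theorem nt_false (h2 : (2 : F) ≠ 0) (y : F) (e1 : 1024 * y ^ 4 - 128 * y ^ 2 = 0)
    (e2 : -1024 * y ^ 4 - 1024 * y ^ 3 + 640 * y ^ 2 + 384 * y - 64 = 0) : False := by
  have k1 : y ^ 2 * (8 * y ^ 2 - 1) = 0 := by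
    have : (2 : F) ^ 7 * (y ^ 2 * (8 * y ^ 2 - 1)) = 0 := by linear_combination e1
    exact (mul_eq_zero.1 this).resolve_left (pow2_ne h2 7)
  have k2 : -16 * y ^ 4 - 16 * y ^ 3 + 10 * y ^ 2 + 6 * y - 1 = 0 := by
    have : (2 : F) ^ 6 * (-16 * y ^ 4 - 16 * y ^ 3 + 10 * y ^ 2 + 6 * y - 1) = 0 := by
      linear_combination e2
    exact (mul_eq_zero.1 this).resolve_left (pow2_ne h2 6)
  rcases mul_eq_zero.1 k1 with k | k
  · have y0 : y = 0 := pow_eq_zero_iff (two_ne_zero) |>.1 k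
    rw [y0] at k2
    apply one_ne_zero (α := F)
    linear_combination -k2
  · have k3 : (2 : F) ^ 2 * y = 0 := by
      linear_combination k2 + (2 * y ^ 2 + 2 * y - 1) * k
    have y0 : y = 0 := (mul_eq_zero.1 k3).resolve_left (pow2_ne h2 2)
    rw [y0] at k
    apply one_ne_zero (α := F)
    linear_combination -k

/-- the second family -/
theorem nn_false (h2 : (2 : F) ≠ 0) (y m l : F) (hml : m * l = 9)
    (a1 : 32 * y * m - 8 * y * l = 0)
    (a2 : -256 * y ^ 3 * m + 64 * y ^ 3 * l + 128 * y ^ 2 * m - 32 * y ^ 2 * l + 112 * y * m -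
      28 * y * l - 64 * m + 16 * l = 0)
    (a3 : 4096 * y ^ 4 + 256 * y ^ 3 * m - 64 * y ^ 3 * l - 128 * y ^ 2 * m - 32 * y ^ 2 * l -
      1664 * y ^ 2 - 80 * y * m + 20 * y * l + 64 * m + 16 * l + 48 = 0)
    (a4 : 2048 * y ^ 4 + 256 * y ^ 3 * m + 64 * y ^ 3 * l - 256 * y ^ 3 + 128 * y ^ 2 * m -
      1088 * y ^ 2 - 80 * y * m - 28 * y * l - 64 * m + 80 = 0)
    (a5 : 8192 * y ^ 5 + 2048 * y ^ 4 - 256 * y ^ 3 * m - 64 * y ^ 3 * l - 5888 * y ^ 3 -
      128 * y ^ 2 * m - 1472 * y ^ 2 + 112 * y * m + 36 * y * l + 896 * y + 64 * m + 224 = 0) :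
    False := by
  have hl : l = 4 * m := by
    have : (2 : F) ^ 5 * (l - 4 * m) = 0 := by
      linear_combination 2 * a2 + (16 * y ^ 2 - 8 * y - 7) * a1
    exact sub_eq_zero.1 ((mul_eq_zero.1 this).resolve_left (pow2_ne h2 5))
  subst hl
  have b3 : 256 * y ^ 4 - 16 * y ^ 2 * m - 104 * y ^ 2 + 8 * m + 3 = 0 := by
    have : (2 : F) ^ 4 * (256 * y ^ 4 - 16 * y ^ 2 * m - 104 * y ^ 2 + 8 * m + 3) = 0 := by
      linear_combination a3
    exact (mul_eq_zero.1 this).resolve_left (pow2_ne h2 4)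
  have b4 : 128 * y ^ 4 + 32 * y ^ 3 * m - 16 * y ^ 3 + 8 * y ^ 2 * m - 68 * y ^ 2 -
      12 * y * m - 4 * m + 5 = 0 := by
    have : (2 : F) ^ 4 * (128 * y ^ 4 + 32 * y ^ 3 * m - 16 * y ^ 3 + 8 * y ^ 2 * m - 68 * y ^ 2 -
      12 * y * m - 4 * m + 5) = 0 := by
      linear_combination a4
    exact (mul_eq_zero.1 this).resolve_left (pow2_ne h2 4)
  have b5 : 256 * y ^ 5 + 64 * y ^ 4 - 16 * y ^ 3 * m - 184 * y ^ 3 - 4 * y ^ 2 * m - 46 * y ^ 2 +
      8 * y * m + 28 * y + 2 * m + 7 = 0 := by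
    have : (2 : F) ^ 5 * (256 * y ^ 5 + 64 * y ^ 4 - 16 * y ^ 3 * m - 184 * y ^ 3 - 4 * y ^ 2 * m -
      46 * y ^ 2 + 8 * y * m + 28 * y + 2 * m + 7) = 0 := by
      linear_combination a5
    exact (mul_eq_zero.1 this).resolve_left (pow2_ne h2 5)
  have hm : (2 * m - 3) * (2 * m + 3) = 0 := by linear_combination hml
  rcases mul_eq_zero.1 hm with hm | hm
  · have c3 : (16 * y ^ 2 - 3) * (16 * y ^ 2 - 5) = 0 := by
      linear_combination b3 - (4 - 8 * y ^ 2) * hm
    have c4 : 128 * y ^ 4 + 32 * y ^ 3 - 56 * y ^ 2 - 18 * y - 1 = 0 := by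
      linear_combination b4 - (16 * y ^ 3 + 4 * y ^ 2 - 6 * y - 2) * hm
    have c5 : 256 * y ^ 5 + 64 * y ^ 4 - 208 * y ^ 3 - 52 * y ^ 2 + 40 * y + 10 = 0 := by
      linear_combination b5 - (-8 * y ^ 3 - 2 * y ^ 2 + 4 * y + 1) * hm
    rcases mul_eq_zero.1 c3 with k | k
    · have d4 : 12 * y + 7 = 0 := by
        linear_combination -c4 + (8 * y ^ 2 + 2 * y - 2) * k
      have d5 : 5 * (4 * y + 1) = 0 := by
        linear_combination 2 * c5 - (4 * y + 1) * (8 * y ^ 2 - 5) * k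
      have e1 : (22 : F) = 0 := by
        linear_combination -(12 * y - 7) * d4 + 9 * k
      have e2 : (20 : F) = 0 := by
        linear_combination 5 * d4 - 3 * d5
      exact h2 (by linear_combination e1 - e2)
    · have d4 : (2 : F) * (4 * y + 3) = 0 := by
        linear_combination -c4 + (8 * y ^ 2 + 2 * y - 1) * k
      have d5 := (mul_eq_zero.1 d4).resolve_left h2
      have e1 : (2 : F) ^ 2 = 0 := by
        linear_combination -(4 * y - 3) * d5 + k
      exact pow2_ne h2 2 e1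
  · have c3 : 256 * y ^ 4 - 80 * y ^ 2 - 9 = 0 := by
      linear_combination b3 - (4 - 8 * y ^ 2) * hm
    have c4 : 128 * y ^ 4 - 64 * y ^ 3 - 80 * y ^ 2 + 18 * y + 11 = 0 := by
      linear_combination b4 - (16 * y ^ 3 + 4 * y ^ 2 - 6 * y - 2) * hm
    have c5 : (2 : F) ^ 2 * ((4 * y + 1) * ((8 * y ^ 2 - 1) * (2 * y ^ 2 - 1))) = 0 := by
      linear_combination b5 - (-8 * y ^ 3 - 2 * y ^ 2 + 4 * y + 1) * hm
    rcases mul_eq_zero.1 ((mul_eq_zero.1 c5).resolve_left (pow2_ne h2 2)) with k | k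
    · have e1 : (13 : F) = 0 := by
        linear_combination -c3 + (64 * y ^ 3 - 16 * y ^ 2 - 16 * y + 4) * k
      have e2 : (3 : F) * 2 = 0 := by
        linear_combination 2 * c4 - (64 * y ^ 3 - 48 * y ^ 2 - 28 * y + 16) * k
      have e3 : (3 : F) = 0 := (mul_eq_zero.1 e2).resolve_right h2
      exact one_ne_zero (α := F) (by linear_combination e1 - 4 * e3)
    rcases mul_eq_zero.1 k with k | k
    · have e1 : (15 : F) = 0 := by
        linear_combination -c3 + (32 * y ^ 2 - 6) * k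
      have e2 : 3 + 10 * y = 0 := by
        linear_combination c4 - (16 * y ^ 2 - 8 * y - 8) * k
      have e3 : (3 : F) = 0 := by
        linear_combination 6 * e2 - 4 * y * e1 - e1
      have e4 : y = 0 := by
        linear_combination e2 - e3 - 3 * y * e3
      rw [e4] at k
      exact one_ne_zero (α := F) (by linear_combination -k)
    · have e1 : (15 : F) = 0 := by
        linear_combination c3 - (128 * y ^ 2 + 24) * k
      have e2 : 3 - 14 * y = 0 := by
        linear_combination c4 - (64 * y ^ 2 - 32 * y - 8) * k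
      have e4 : y = -3 := by
        linear_combination e2 + y * e1 - e1 + e1
      rw [e4] at k
      exact h2 (by linear_combination k - e1)

end Pool.Agent.Helper61.KP
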