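import Pool.Agent.Helper61.KP.Fix
import Pool.Agent.Helper61.KP.EigM
import Pool.Agent.Helper61.KP.EigP

/-!
# Degree eight: the basis
-/

set_option autoImplicit false
set_option linter.unusedSectionVars false
set_option linter.unusedSimpArgs false

open Matrix
open scoped MatrixGroups

namespace Pool.Agent.Helper61.KP

open Pool.Agent.Helper79.KF Pool.Agent.Helper61.KT

variable {F : Type*} [Field F]

section gen

variable {ι : Type*} [Fintype ι] [DecidableEq ι] {A A' B B' C P Q : Matrix ι ι F}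

theorem mem_x3 (h : RR A A' B B' C P Q) (h2 : (2 : F) ≠ 0) (v : ι → F) :
    v ∈ LinearMap.range (X3 C P).mulVecLin ↔ C *ᵥ v = v ∧ P *ᵥ v = -v := by
  constructor
  · rintro ⟨w, rfl⟩
    rw [mulVecLin_apply]
    refine ⟨by rw [mulVec_mulVec, c_x3 h], by rw [mulVec_mulVec, p_x3 h, neg_mulVec]⟩
  · rintro ⟨c, p⟩
    refine ⟨(4 : F)⁻¹ • v, ?_⟩
    have e1 : (1 - P) *ᵥ v = v + v := by
      rw [sub_mulVec, one_mulVec, p, sub_neg_eq_add]
    have e : X3 C P *ᵥ v = (4 : F) • v := by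
      have : X3 C P = (1 + C) * (1 - P) := rfl
      rw [this, ← mulVec_mulVec, e1, add_mulVec, one_mulVec, mulVec_add, c]
      module
    rw [mulVecLin_apply, mulVec_smul, e, smul_smul, inv_mul_cancel₀ (four_ne h2), one_smul]

theorem mem_x0 (h : RR A A' B B' C P Q) (h2 : (2 : F) ≠ 0) (v : ι → F) :
    v ∈ LinearMap.range (X0 C P).mulVecLin ↔ C *ᵥ v = v ∧ P *ᵥ v = v := by
  constructor
  · rintro ⟨w, rfl⟩
    rw [mulVecLin_apply]
    refine ⟨by rw [mulVec_mulVec, c_x0 h], by rw [mulVec_mulVec, p_x0 h]⟩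
  · rintro ⟨c, p⟩
    refine ⟨(4 : F)⁻¹ • v, ?_⟩
    have e1 : (1 + P) *ᵥ v = v + v := by
      rw [add_mulVec, one_mulVec, p]
    have e : X0 C P *ᵥ v = (4 : F) • v := by
      have : X0 C P = (1 + C) * (1 + P) := rfl
      rw [this, ← mulVec_mulVec, e1, add_mulVec, one_mulVec, mulVec_add, c]
      module
    rw [mulVecLin_apply, mulVec_smul, e, smul_smul, inv_mul_cancel₀ (four_ne h2), one_smul]

/-- `P` and `Q` commute on the vectors fixed by `C` -/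
theorem pq_fix (h : RR A A' B B' C P Q) {v : ι → F} (c : C *ᵥ v = v) :
    P *ᵥ (Q *ᵥ v) = Q *ᵥ (P *ᵥ v) := by
  have k := app3 h.qp v
  rw [k, ← app h.pc, ← app h.qc, c]

theorem AU (h : RR A A' B B' C P Q) {v : ι → F} (c : C *ᵥ v = v) (p : P *ᵥ v = v) :
    C *ᵥ (A *ᵥ v) = A *ᵥ v ∧ P *ᵥ (A *ᵥ v) = A *ᵥ v := by
  have c2 : C *ᵥ (A *ᵥ v) = A *ᵥ v := by rw [← app h.ap v, p]
  refine ⟨c2, ?_⟩
  have k1 := app3 h.ac v
  rw [c] at k1
  have k2 := congrArg (fun w => C *ᵥ w) k1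
  rw [c2, app0 h.cc] at k2
  exact k2.symm

/-- if `Q` is `1` or `-1` on the vectors fixed by `C` and `P` then `A` fixes them -/
theorem fixA (h : RR A A' B B' C P Q) {s : F} (hs : s ≠ 0)
    (H : ∀ v, C *ᵥ v = v → P *ᵥ v = v → Q *ᵥ v = s • v) (v : ι → F) (c : C *ᵥ v = v)
    (p : P *ᵥ v = v) : A *ᵥ v = v := by
  obtain ⟨c1, p1⟩ := AU h c p
  have k1 := H _ c1 p1
  rw [app h.qa, H v c p, mulVec_smul] at k1
  have k2 : A' *ᵥ v = A *ᵥ v := smul_right_injective _ hs k1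
  have k3 : A *ᵥ (A *ᵥ v) = A' *ᵥ v := app1 h.aa v
  nth_rewrite 1 [← k2] at k3
  rw [app0 h.aai] at k3
  rw [← k2]; exact k3.symm

theorem BN (h : RR A A' B B' C P Q) {v : ι → F} (c : C *ᵥ v = -v) (q : Q *ᵥ v = v) :
    C *ᵥ (B *ᵥ v) = B *ᵥ v ∧ Q *ᵥ (B *ᵥ v) = -(B *ᵥ v) := by
  have c1 : C *ᵥ (B *ᵥ v) = B *ᵥ v := by rw [← app h.bq v, q]
  refine ⟨c1, ?_⟩
  have k1 := app3 h.bc v
  rw [c, mulVec_neg, ← app h.qc, c1] at k1
  exact k1.symm

end gen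

/-- four vectors -/
structure Fr8 (A A' B B' C P Q : Matrix (Fin 8) (Fin 8) F) (e1 e2 e3 e4 : Fin 8 → F) : Prop where
  n1 : e1 ≠ 0
  n2 : e2 ≠ 0
  n3 : e3 ≠ 0
  n4 : e4 ≠ 0
  c1 : C *ᵥ e1 = e1
  p1 : P *ᵥ e1 = e1
  q1 : Q *ᵥ e1 = e1
  c2 : C *ᵥ e2 = e2
  p2 : P *ᵥ e2 = e2
  q2 : Q *ᵥ e2 = -e2
  c3 : C *ᵥ e3 = e3
  p3 : P *ᵥ e3 = -e3
  q3 : Q *ᵥ e3 = e3
  c4 : C *ᵥ e4 = e4
  p4 : P *ᵥ e4 = -e4
  q4 : Q *ᵥ e4 = -e4

variable {A A' B B' C P Q : Matrix (Fin 8) (Fin 8) F}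

theorem Fr8.symm {e1 e2 e3 e4 : Fin 8 → F} (f : Fr8 A A' B B' C P Q e1 e2 e3 e4) :
    Fr8 B B' A A' C Q P e1 e3 e2 e4 :=
  ⟨f.n1, f.n3, f.n2, f.n4, f.c1, f.q1, f.p1, f.c3, f.q3, f.p3, f.c2, f.q2, f.p2, f.c4, f.q4, f.p4⟩

theorem Fr8.smul {e1 e2 e3 e4 : Fin 8 → F} (f : Fr8 A A' B B' C P Q e1 e2 e3 e4) {s : F}
    (hs : s ≠ 0) : Fr8 A A' B B' C P Q e1 (s • e2) e3 e4 :=
  ⟨f.n1, smul_ne_zero hs f.n2, f.n3, f.n4, f.c1, f.p1, f.q1, by rw [mulVec_smul, f.c2],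
    by rw [mulVec_smul, f.p2], by rw [mulVec_smul, f.q2, smul_neg], f.c3, f.p3, f.q3, f.c4, f.p4,
    f.q4⟩

/-- the ranks in degree eight -/
theorem ranks8 (h : RR A A' B B' C P Q) (h2 : (2 : F) ≠ 0) (hr : (C - 1).rank = 4) :
    (X3 C P).rank = 2 ∧ (X3 C Q).rank = 2 ∧ (X0 C P).rank = 2 ∧ (X0 C Q).rank = 2 := by
  have hs := h.symm
  have r1 := rank_sum_neg h h2
  rw [Fintype.card_fin] at r1
  have r2 := rank_half h h2
  have r2' := rank_half hs h2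
  have r3 := rank_x30 h h2
  have r3' := rank_x30 hs h2
  have low1 : 8 ≤ (1 + C).rank + (C - 1).rank := by
    have k := rank_add_le' (1 + C) (-(C - 1))
    have e : (1 + C + -(C - 1) : Matrix (Fin 8) (Fin 8) F) = (2 : F) • 1 := by module
    have k2 : (1 : Matrix (Fin 8) (Fin 8) F).rank ≤
        ((2 : F) • (1 : Matrix (Fin 8) (Fin 8) F)).rank := by
      refine rank_conj_le (S := (2 : F)⁻¹ • 1) (T := 1) ?_
      rw [mul_one, smul_mul_assoc, one_mul, smul_smul, inv_mul_cancel₀ h2, one_smul]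
    have k3 : (-(C - 1)).rank ≤ (C - 1).rank := by
      refine rank_conj_le (S := -1) (T := 1) ?_
      rw [mul_one, neg_mul, one_mul]
    rw [e] at k
    rw [rank_one, Fintype.card_fin] at k2
    omega
  have up : ∀ R : Matrix (Fin 8) (Fin 8) F, (1 + C).rank ≤ (X0 C R).rank + (X3 C R).rank := by
    intro R
    have e : X0 C R + X3 C R = (2 : F) • (1 + C) := by
      have : X0 C R + X3 C R = (1 + C) * (1 + R) + (1 + C) * (1 - R) := rfl
      rw [this, ← mul_add]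
      have : (1 + R + (1 - R) : Matrix (Fin 8) (Fin 8) F) = (2 : F) • 1 := by module
      rw [this, mul_smul_comm, mul_one]
    have k := rank_add_le' (X0 C R) (X3 C R)
    have k2 : (1 + C).rank ≤ (X0 C R + X3 C R).rank := by
      rw [e]
      refine rank_conj_le (S := (2 : F)⁻¹ • 1) (T := 1) ?_
      rw [mul_one, smul_mul_assoc, one_mul, smul_smul, inv_mul_cancel₀ h2, one_smul]
    omega
  have u1 := up P
  have u2 := up Q
  omega

theorem range_eq {X Y : Matrix (Fin 8) (Fin 8) F} (hXY : X.rank = Y.rank)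
    (h : LinearMap.range X.mulVecLin ≤ LinearMap.range Y.mulVecLin) :
    LinearMap.range Y.mulVecLin ≤ LinearMap.range X.mulVecLin := by
  have e := Submodule.eq_of_le_of_finrank_eq h hXY
  exact le_of_eq e.symm

theorem ne_of_rank {X : Matrix (Fin 8) (Fin 8) F} (h : X.rank = 2) : ∃ v, X *ᵥ v ≠ 0 := by
  by_contra hcon
  push Not at hcon
  have : X = 0 := by
    apply Matrix.toLin'.injective
    refine LinearMap.ext fun v => ?_
    rw [toLin'_apply, hcon v, map_zero, LinearMap.zero_apply]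
  rw [this, rank_zero] at h
  omega

theorem self_neg (h2 : (2 : F) ≠ 0) {v : Fin 8 → F} (h : v = -v) : v = 0 := by
  have : (2 : F) • v = 0 := by
    have e : (2 : F) • v = v + v := by module
    rw [e]
    nth_rewrite 1 [h]
    rw [neg_add_cancel]
  exact (smul_eq_zero.1 this).resolve_left h2

/-- a vector with `C = 1`, `P = -1`, `Q = 1` -/
theorem exists_e3 (h : RR A A' B B' C P Q) (h2 : (2 : F) ≠ 0) (hr : (C - 1).rank = 4)
    (hfix : ∀ v, A *ᵥ v = v → B *ᵥ v = v → v = 0) :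
    ∃ v, v ≠ 0 ∧ C *ᵥ v = v ∧ P *ᵥ v = -v ∧ Q *ᵥ v = v := by
  by_contra hcon
  push Not at hcon
  have H : ∀ v, C *ᵥ v = v → P *ᵥ v = -v → Q *ᵥ v = v → v = 0 := by
    intro v c p q
    by_contra hv
    exact hcon v hv c p q
  have hs := h.symm
  obtain ⟨r1, r2, r3, r4⟩ := ranks8 h h2 hr
  have a : ∀ v, C *ᵥ v = v → P *ᵥ v = -v → Q *ᵥ v = -v := by
    intro v c p
    have k := H (v + Q *ᵥ v) (by rw [mulVec_add, c, ← app h.qc, c])
      (by rw [mulVec_add, p, pq_fix h c, p, mulVec_neg, neg_add])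
      (by rw [mulVec_add, app0 h.qq, add_comm])
    exact eq_neg_of_add_eq_zero_right k
  have b : ∀ v, C *ᵥ v = v → Q *ᵥ v = -v → P *ᵥ v = -v := by
    have hle : LinearMap.range (X3 C P).mulVecLin ≤ LinearMap.range (X3 C Q).mulVecLin := by
      intro v hv
      obtain ⟨c, p⟩ := (mem_x3 h h2 v).1 hv
      exact (mem_x3 hs h2 v).2 ⟨c, a v c p⟩
    intro v c q
    exact ((mem_x3 h h2 v).1 (range_eq (r1.trans r2.symm) hle ((mem_x3 hs h2 v).2 ⟨c, q⟩))).2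
  have c' : ∀ v, C *ᵥ v = v → P *ᵥ v = v → Q *ᵥ v = (1 : F) • v := by
    intro v c p
    have c1 : C *ᵥ (v - Q *ᵥ v) = v - Q *ᵥ v := by rw [mulVec_sub, c, ← app h.qc, c]
    have k1 := b (v - Q *ᵥ v) c1 (by rw [mulVec_sub, app0 h.qq, neg_sub])
    have k2 : P *ᵥ (v - Q *ᵥ v) = v - Q *ᵥ v := by rw [mulVec_sub, p, pq_fix h c, p]
    rw [k2] at k1
    rw [one_smul]
    exact (sub_eq_zero.1 (self_neg h2 k1)).symm
  have d' : ∀ v, C *ᵥ v = v → Q *ᵥ v = v → P *ᵥ v = (1 : F) • v := by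
    intro v c q
    have c1 : C *ᵥ (v - P *ᵥ v) = v - P *ᵥ v := by rw [mulVec_sub, c, ← app h.pc, c]
    have k1 := a (v - P *ᵥ v) c1 (by rw [mulVec_sub, app0 h.pp, neg_sub])
    have k2 : Q *ᵥ (v - P *ᵥ v) = v - P *ᵥ v := by rw [mulVec_sub, q, ← pq_fix h c, q]
    rw [k2] at k1
    rw [one_smul]
    exact (sub_eq_zero.1 (self_neg h2 k1)).symm
  obtain ⟨u, hu⟩ := ne_of_rank r3
  obtain ⟨c, p⟩ := (mem_x0 h h2 (X0 C P *ᵥ u)).1 ⟨u, rfl⟩
  have q := c' _ c p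
  rw [one_smul] at q
  exact hu (hfix _ (fixA h one_ne_zero c' _ c p) (fixA hs one_ne_zero d' _ c q))

/-- a vector with `C = 1`, `P = -1`, `Q = -1` -/
theorem exists_e4 (h : RR A A' B B' C P Q) (h2 : (2 : F) ≠ 0) (hr : (C - 1).rank = 4)
    (hfix : ∀ v, A *ᵥ v = v → B *ᵥ v = v → v = 0)
    (hinv : ∀ S : Submodule F (Fin 8 → F), (∀ u ∈ S, A *ᵥ u ∈ S) → (∀ u ∈ S, B *ᵥ u ∈ S) →
      Module.finrank F S ≤ 7 → S = ⊥) :
    ∃ v, v ≠ 0 ∧ C *ᵥ v = v ∧ P *ᵥ v = -v ∧ Q *ᵥ v = -v := by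
  by_contra hcon
  push Not at hcon
  have H : ∀ v, C *ᵥ v = v → P *ᵥ v = -v → Q *ᵥ v = -v → v = 0 := by
    intro v c p q
    by_contra hv
    exact hcon v hv c p q
  have hs := h.symm
  obtain ⟨r1, r2, r3, r4⟩ := ranks8 h h2 hr
  have a : ∀ v, C *ᵥ v = v → P *ᵥ v = -v → Q *ᵥ v = v := by
    intro v c p
    have k := H (v - Q *ᵥ v) (by rw [mulVec_sub, c, ← app h.qc, c])
      (by rw [mulVec_sub, p, pq_fix h c, p, mulVec_neg]; abel)
      (by rw [mulVec_sub, app0 h.qq, neg_sub])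
    exact (sub_eq_zero.1 k).symm
  have a' : ∀ v, C *ᵥ v = v → Q *ᵥ v = -v → P *ᵥ v = v := by
    intro v c q
    have k := H (v - P *ᵥ v) (by rw [mulVec_sub, c, ← app h.pc, c])
      (by rw [mulVec_sub, app0 h.pp, neg_sub])
      (by rw [mulVec_sub, q, ← pq_fix h c, q, mulVec_neg]; abel)
    exact (sub_eq_zero.1 k).symm
  have b : ∀ v, C *ᵥ v = v → P *ᵥ v = v → Q *ᵥ v = (-1 : F) • v := by
    have hle : LinearMap.range (X3 C Q).mulVecLin ≤ LinearMap.range (X0 C P).mulVecLin := by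
      intro v hv
      obtain ⟨c, q⟩ := (mem_x3 hs h2 v).1 hv
      exact (mem_x0 h h2 v).2 ⟨c, a' v c q⟩
    intro v c p
    rw [neg_one_smul]
    exact ((mem_x3 hs h2 v).1 (range_eq (r2.trans r3.symm) hle ((mem_x0 h h2 v).2 ⟨c, p⟩))).2
  have b' : ∀ v, C *ᵥ v = v → Q *ᵥ v = v → P *ᵥ v = (-1 : F) • v := by
    have hle : LinearMap.range (X3 C P).mulVecLin ≤ LinearMap.range (X0 C Q).mulVecLin := by
      intro v hv
      obtain ⟨c, p⟩ := (mem_x3 h h2 v).1 hv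
      exact (mem_x0 hs h2 v).2 ⟨c, a v c p⟩
    intro v c q
    rw [neg_one_smul]
    exact ((mem_x3 h h2 v).1 (range_eq (r1.trans r4.symm) hle ((mem_x0 hs h2 v).2 ⟨c, q⟩))).2
  have n1 : (-1 : F) ≠ 0 := neg_ne_zero.2 one_ne_zero
  have fA := fixA h n1 b
  have fB := fixA hs n1 b'
  obtain ⟨e3, n3, c3, p3, q3⟩ := exists_e3 h h2 hr hfix
  have be3 : B *ᵥ e3 = e3 := fB e3 c3 q3
  obtain ⟨g1, g2, g3, g4⟩ := low h c3 p3
  have qf1 : Q *ᵥ (A' *ᵥ e3) = A *ᵥ e3 := by rw [app h.qai, q3]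
  have qf2 : Q *ᵥ (A *ᵥ e3) = A' *ᵥ e3 := by rw [app h.qa, q3]
  obtain ⟨c5, q5⟩ := BN h (v := A' *ᵥ e3 + A *ᵥ e3) (by rw [mulVec_add, g1, g3]; abel)
    (by rw [mulVec_add, qf1, qf2]; abel)
  set e5 : Fin 8 → F := B *ᵥ (A' *ᵥ e3 + A *ᵥ e3) with he5
  have p5 := a' _ c5 q5
  have ae5 := fA _ c5 p5
  have bie5 : B' *ᵥ e5 = A' *ᵥ e3 + A *ᵥ e3 := by rw [he5, app0 h.bib]
  have be5 : B *ᵥ e5 = A' *ᵥ e3 - A *ᵥ e3 := by
    have k := app h.pbi e5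
    rw [p5, bie5, mulVec_add, g2, g4] at k
    rw [← k]; abel
  have bw : B *ᵥ (A' *ᵥ e3 - A *ᵥ e3) = A' *ᵥ e3 + A *ᵥ e3 := by
    rw [← be5, app1 h.bb, bie5]
  -- an invariant subspace
  let S : Submodule F (Fin 8 → F) := Submodule.span F ({e3, A' *ᵥ e3, A *ᵥ e3, e5} : Set _)
  have m3 : e3 ∈ S := Submodule.subset_span (by simp)
  have mf1 : A' *ᵥ e3 ∈ S := Submodule.subset_span (by simp)
  have mf2 : A *ᵥ e3 ∈ S := Submodule.subset_span (by simp)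
  have m5 : e5 ∈ S := Submodule.subset_span (by simp)
  have clo : ∀ X : Matrix (Fin 8) (Fin 8) F, X *ᵥ e3 ∈ S → X *ᵥ (A' *ᵥ e3) ∈ S →
      X *ᵥ (A *ᵥ e3) ∈ S → X *ᵥ e5 ∈ S → ∀ u ∈ S, X *ᵥ u ∈ S := by
    intro X x1 x2 x3 x4 u hu
    have hle : S ≤ S.comap X.mulVecLin := by
      rw [Submodule.span_le]
      rintro w (rfl | rfl | rfl | hw)
      · exact x1
      · exact x2
      · exact x3
      · obtain rfl : w = e5 := hw
        exact x4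
    exact hle hu
  have hS := hinv S
    (clo A mf2 (by rw [app0 h.aai]; exact m3) (by rw [app1 h.aa]; exact mf1) (by rw [ae5]; exact m5))
    (clo B (by rw [be3]; exact m3)
      (by
        have k : B *ᵥ (A' *ᵥ e3) = (2 : F)⁻¹ • (e5 + (A' *ᵥ e3 + A *ᵥ e3)) := by
          rw [← bw, he5, ← mulVec_add, ← mulVec_smul]
          congr 1
          have : (A' *ᵥ e3 + A *ᵥ e3 + (A' *ᵥ e3 - A *ᵥ e3)) = (2 : F) • (A' *ᵥ e3) := by module
          rw [this, smul_smul, inv_mul_cancel₀ h2, one_smul]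
        rw [k]
        exact S.smul_mem _ (S.add_mem m5 (S.add_mem mf1 mf2)))
      (by
        have k : B *ᵥ (A *ᵥ e3) = (2 : F)⁻¹ • (e5 - (A' *ᵥ e3 + A *ᵥ e3)) := by
          rw [← bw, he5, ← mulVec_sub, ← mulVec_smul]
          congr 1
          have : (A' *ᵥ e3 + A *ᵥ e3 - (A' *ᵥ e3 - A *ᵥ e3)) = (2 : F) • (A *ᵥ e3) := by module
          rw [this, smul_smul, inv_mul_cancel₀ h2, one_smul]
        rw [k]
        exact S.smul_mem _ (S.sub_mem m5 (S.add_mem mf1 mf2)))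
      (by rw [be5]; exact S.sub_mem mf1 mf2))
    (by
      classical
      have k := finrank_span_finset_le_card (R := F)
        (({e3, A' *ᵥ e3, A *ᵥ e3, e5} : Finset (Fin 8 → F)))
      have k2 : (({e3, A' *ᵥ e3, A *ᵥ e3, e5} : Finset (Fin 8 → F))).card ≤ 4 :=
        Finset.card_le_four
      have k3 : (S : Submodule F (Fin 8 → F)) = Submodule.span F
          (({e3, A' *ᵥ e3, A *ᵥ e3, e5} : Finset (Fin 8 → F)) : Set (Fin 8 → F)) := by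
        simp only [S, Finset.coe_insert, Finset.coe_singleton]
      rw [k3]
      exact le_trans k (by omega))
  rw [hS] at m3
  exact n3 ((Submodule.mem_bot F).1 m3)

theorem exists_fr8 (h : RR A A' B B' C P Q) (h2 : (2 : F) ≠ 0) (hr : (C - 1).rank = 4)
    (hfix : ∀ v, A *ᵥ v = v → B *ᵥ v = v → v = 0)
    (hinv : ∀ S : Submodule F (Fin 8 → F), (∀ u ∈ S, A *ᵥ u ∈ S) → (∀ u ∈ S, B *ᵥ u ∈ S) →
      Module.finrank F S ≤ 7 → S = ⊥) :
    ∃ e1 e2 e3 e4, Fr8 A A' B B' C P Q e1 e2 e3 e4 := by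
  have hs := h.symm
  obtain ⟨r1, r2, r3, r4⟩ := ranks8 h h2 hr
  obtain ⟨e3, n3, c3, p3, q3⟩ := exists_e3 h h2 hr hfix
  obtain ⟨e2, n2, c2, q2, p2⟩ := exists_e3 hs h2 hr (fun v a b => hfix v b a)
  obtain ⟨e4, n4, c4, p4, q4⟩ := exists_e4 h h2 hr hfix hinv
  obtain ⟨e1, n1, c1, p1, q1⟩ : ∃ v, v ≠ 0 ∧ C *ᵥ v = v ∧ P *ᵥ v = v ∧ Q *ᵥ v = v := by
    by_contra hcon
    push Not at hcon
    have H : ∀ v, C *ᵥ v = v → P *ᵥ v = v → Q *ᵥ v = v → v = 0 := by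
      intro v c p q
      by_contra hv
      exact hcon v hv c p q
    have a : ∀ v, C *ᵥ v = v → P *ᵥ v = v → Q *ᵥ v = -v := by
      intro v c p
      have k := H (v + Q *ᵥ v) (by rw [mulVec_add, c, ← app h.qc, c])
        (by rw [mulVec_add, p, pq_fix h c, p])
        (by rw [mulVec_add, app0 h.qq, add_comm])
      exact eq_neg_of_add_eq_zero_right k
    have hle : LinearMap.range (X0 C P).mulVecLin ≤ LinearMap.range (X3 C Q).mulVecLin := by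
      intro v hv
      obtain ⟨c, p⟩ := (mem_x0 h h2 v).1 hv
      exact (mem_x3 hs h2 v).2 ⟨c, a v c p⟩
    have k := ((mem_x0 h h2 e4).1 (range_eq (r3.trans r2.symm) hle
      ((mem_x3 hs h2 e4).2 ⟨c4, q4⟩))).2
    rw [p4] at k
    exact n4 (self_neg h2 k.symm)
  exact ⟨e1, e2, e3, e4, n1, n2, n3, n4, c1, p1, q1, c2, p2, q2, c3, p3, q3, c4, p4, q4⟩

end Pool.Agent.Helper61.KP
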