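import Pool.Agent.Helper61.KP.EigA

/-!
# Degree eight: independence and decompositions
-/

set_option autoImplicit false
set_option linter.unusedSectionVars false
set_option linter.unusedSimpArgs false

open Matrix
open scoped MatrixGroups

namespace Pool.Agent.Helper61.KP

open Pool.Agent.Helper79.KF Pool.Agent.Helper61.KT

variable {F : Type*} [Field F]

/-- the linear combination of eight vectors -/
def lc8 (v0 v1 v2 v3 v4 v5 v6 v7 : Fin 8 → F) (x : Fin 8 → F) : Fin 8 → F :=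
  x 0 • v0 + x 1 • v1 + x 2 • v2 + x 3 • v3 + x 4 • v4 + x 5 • v5 + x 6 • v6 + x 7 • v7

theorem lc8_mat (v0 v1 v2 v3 v4 v5 v6 v7 : Fin 8 → F) :
    ∃ G : Matrix (Fin 8) (Fin 8) F, ∀ x, G *ᵥ x = lc8 v0 v1 v2 v3 v4 v5 v6 v7 x := by
  refine ⟨Matrix.of fun i j => (![v0, v1, v2, v3, v4, v5, v6, v7] : Fin 8 → Fin 8 → F) j i, ?_⟩
  intro x
  ext i
  simp only [lc8, Matrix.mulVec, dotProduct, Fin.sum_univ_eight, Matrix.of_apply, Pi.add_apply,
    Pi.smul_apply, smul_eq_mul, Matrix.cons_val_zero, Matrix.cons_val_one, Matrix.cons_val]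
  ring

theorem pm {V : Type*} [AddCommGroup V] [Module F V] (h2 : (2 : F) ≠ 0) {a b : V} (h : a + b = 0)
    (h' : a - b = 0) : a = 0 ∧ b = 0 := by
  have e1 : (2 : F) • a = 0 := by
    have : (2 : F) • a = (a + b) + (a - b) := by module
    rw [this, h, h', add_zero]
  have e2 : (2 : F) • b = 0 := by
    have : (2 : F) • b = (a + b) - (a - b) := by module
    rw [this, h, h', sub_zero]
  exact ⟨(smul_eq_zero.1 e1).resolve_left h2, (smul_eq_zero.1 e2).resolve_left h2⟩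

variable {A A' B B' C P Q : Matrix (Fin 8) (Fin 8) F}

theorem Fr8.two34 (h2 : (2 : F) ≠ 0) {e1 e2 e3 e4 : Fin 8 → F}
    (f : Fr8 A A' B B' C P Q e1 e2 e3 e4) {a b : F} (hab : a • e3 + b • e4 = 0) :
    a = 0 ∧ b = 0 := by
  have m1 := congrArg (fun w => Q *ᵥ w) hab
  simp only [mulVec_add, mulVec_smul, f.q3, f.q4, mulVec_zero] at m1
  obtain ⟨k1, k2⟩ := pm h2 hab (by rw [← m1]; module)
  exact ⟨(smul_eq_zero.1 k1).resolve_right f.n3, (smul_eq_zero.1 k2).resolve_right f.n4⟩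

theorem Fr8.two12 (h2 : (2 : F) ≠ 0) {e1 e2 e3 e4 : Fin 8 → F}
    (f : Fr8 A A' B B' C P Q e1 e2 e3 e4) {a b : F} (hab : a • e1 + b • e2 = 0) :
    a = 0 ∧ b = 0 := by
  have m1 := congrArg (fun w => Q *ᵥ w) hab
  simp only [mulVec_add, mulVec_smul, f.q1, f.q2, mulVec_zero] at m1
  obtain ⟨k1, k2⟩ := pm h2 hab (by rw [← m1]; module)
  exact ⟨(smul_eq_zero.1 k1).resolve_right f.n1, (smul_eq_zero.1 k2).resolve_right f.n2⟩

/-- the eight vectors are independent -/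
theorem Fr8.ind (h : RR A A' B B' C P Q) (h2 : (2 : F) ≠ 0) {e1 e2 e3 e4 : Fin 8 → F}
    (f : Fr8 A A' B B' C P Q e1 e2 e3 e4) (x : Fin 8 → F)
    (hx : lc8 e1 e2 e3 e4 (A' *ᵥ e3) (A *ᵥ e3) (A' *ᵥ e4) (A *ᵥ e4) x = 0) : x = 0 := by
  obtain ⟨r1, r2, r3, r4⟩ := low h f.c3 f.p3
  obtain ⟨s1, s2, s3, s4⟩ := low h f.c4 f.p4
  simp only [lc8] at hx
  have k1 := congrArg (fun w => C *ᵥ w) hx
  simp only [mulVec_add, mulVec_smul, f.c1, f.c2, f.c3, f.c4, r1, r3, s1, s3, mulVec_zero] at k1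
  obtain ⟨k2, k3⟩ := pm h2 (a := x 0 • e1 + x 1 • e2 + x 2 • e3 + x 3 • e4)
    (b := x 4 • (A' *ᵥ e3) + x 5 • (A *ᵥ e3) + x 6 • (A' *ᵥ e4) + x 7 • (A *ᵥ e4))
    (by rw [← hx]; module) (by rw [← k1]; module)
  have k4 := congrArg (fun w => P *ᵥ w) k2
  simp only [mulVec_add, mulVec_smul, f.p1, f.p2, f.p3, f.p4, mulVec_zero] at k4
  obtain ⟨k5, k6⟩ := pm h2 (a := x 0 • e1 + x 1 • e2) (b := x 2 • e3 + x 3 • e4)
    (by rw [← k2]; module) (by rw [← k4]; module)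
  obtain ⟨z0, z1⟩ := f.two12 h2 k5
  obtain ⟨z2, z3⟩ := f.two34 h2 k6
  have k7 := congrArg (fun w => P *ᵥ w) k3
  simp only [mulVec_add, mulVec_smul, r2, r4, s2, s4, mulVec_zero] at k7
  obtain ⟨k8, k9⟩ := pm h2 (a := x 4 • (A' *ᵥ e3) + x 6 • (A' *ᵥ e4))
    (b := x 5 • (A *ᵥ e3) + x 7 • (A *ᵥ e4)) (by rw [← k3]; module) (by rw [← k7]; module)
  have k10 := congrArg (fun w => A *ᵥ w) k8
  simp only [mulVec_add, mulVec_smul, app0 h.aai, mulVec_zero] at k10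
  have k11 := congrArg (fun w => A' *ᵥ w) k9
  simp only [mulVec_add, mulVec_smul, app0 h.aia, mulVec_zero] at k11
  obtain ⟨z4, z6⟩ := f.two34 h2 k10
  obtain ⟨z5, z7⟩ := f.two34 h2 k11
  ext i
  fin_cases i
  · exact z0
  · exact z1
  · exact z2
  · exact z3
  · exact z4
  · exact z5
  · exact z6
  · exact z7

theorem Fr8.expand (h : RR A A' B B' C P Q) (h2 : (2 : F) ≠ 0) {e1 e2 e3 e4 : Fin 8 → F}
    (f : Fr8 A A' B B' C P Q e1 e2 e3 e4) (u : Fin 8 → F) :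
    ∃ x, lc8 e1 e2 e3 e4 (A' *ᵥ e3) (A *ᵥ e3) (A' *ᵥ e4) (A *ᵥ e4) x = u := by
  obtain ⟨G, hG⟩ := lc8_mat e1 e2 e3 e4 (A' *ᵥ e3) (A *ᵥ e3) (A' *ᵥ e4) (A *ᵥ e4)
  have hinj : Function.Injective G.mulVec := by
    intro x y hxy
    have : G *ᵥ (x - y) = 0 := by rw [mulVec_sub, sub_eq_zero]; exact hxy
    rw [hG] at this
    exact sub_eq_zero.1 (f.ind h h2 _ this)
  obtain ⟨v, hv⟩ := Matrix.mulVec_injective_iff_isUnit.1 hinj
  refine ⟨((v⁻¹ : (Matrix (Fin 8) (Fin 8) F)ˣ) : Matrix (Fin 8) (Fin 8) F) *ᵥ u, ?_⟩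
  rw [← hG, ← hv, mulVec_mulVec, Units.mul_inv, one_mulVec]

/-- the vectors with `C = -1`, `Q = 1` -/
theorem Fr8.decN (h : RR A A' B B' C P Q) (h2 : (2 : F) ≠ 0) {e1 e2 e3 e4 : Fin 8 → F}
    (f : Fr8 A A' B B' C P Q e1 e2 e3 e4) (u : Fin 8 → F) (cu : C *ᵥ u = -u) (qu : Q *ᵥ u = u) :
    ∃ a b : F, u = a • (A' *ᵥ e3 + A *ᵥ e3) + b • (A' *ᵥ e4 - A *ᵥ e4) := by
  obtain ⟨r1, r2, r3, r4⟩ := low h f.c3 f.p3
  obtain ⟨s1, s2, s3, s4⟩ := low h f.c4 f.p4
  have q4 : Q *ᵥ (A' *ᵥ e3) = A *ᵥ e3 := by rw [app h.qai, f.q3]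
  have q5 : Q *ᵥ (A *ᵥ e3) = A' *ᵥ e3 := by rw [app h.qa, f.q3]
  have q6 : Q *ᵥ (A' *ᵥ e4) = -(A *ᵥ e4) := by rw [app h.qai, f.q4, mulVec_neg]
  have q7 : Q *ᵥ (A *ᵥ e4) = -(A' *ᵥ e4) := by rw [app h.qa, f.q4, mulVec_neg]
  obtain ⟨x, hx⟩ := f.expand h h2 u
  have hx' := hx
  simp only [lc8] at hx'
  have k1 := congrArg (fun w => C *ᵥ w) hx'
  simp only [mulVec_add, mulVec_smul, f.c1, f.c2, f.c3, f.c4, r1, r3, s1, s3, cu] at k1
  have k2 := f.ind h h2 ![2 * x 0, 2 * x 1, 2 * x 2, 2 * x 3, 0, 0, 0, 0] (by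
    simp only [lc8, Matrix.cons_val_zero, Matrix.cons_val_one, Matrix.cons_val]
    have : (0 : Fin 8 → F) = u + -u := by rw [add_neg_cancel]
    rw [this, ← k1]
    nth_rewrite 1 [← hx']
    module)
  have k3 := congrArg (fun w => Q *ᵥ w) hx'
  simp only [mulVec_add, mulVec_smul, f.q1, f.q2, f.q3, f.q4, q4, q5, q6, q7, qu] at k3
  have k4 := f.ind h h2 ![0, 2 * x 1, 0, 2 * x 3, x 4 - x 5, x 5 - x 4, x 6 + x 7, x 6 + x 7] (by
    simp only [lc8, Matrix.cons_val_zero, Matrix.cons_val_one, Matrix.cons_val]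
    have : (0 : Fin 8 → F) = u - u := by rw [sub_self]
    rw [this]
    nth_rewrite 1 [← hx']
    rw [← k3]
    module)
  have y0 : x 0 = 0 := by
    have := congrFun k2 0
    simp only [Matrix.cons_val_zero, Pi.zero_apply] at this
    exact (mul_eq_zero.1 this).resolve_left h2
  have y1 : x 1 = 0 := by
    have := congrFun k2 1
    simp only [Matrix.cons_val_one, Matrix.cons_val_zero, Pi.zero_apply] at this
    exact (mul_eq_zero.1 this).resolve_left h2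
  have y2 : x 2 = 0 := by
    have := congrFun k2 2
    simp only [Matrix.cons_val, Pi.zero_apply] at this
    exact (mul_eq_zero.1 this).resolve_left h2
  have y3 : x 3 = 0 := by
    have := congrFun k2 3
    simp only [Matrix.cons_val, Pi.zero_apply] at this
    exact (mul_eq_zero.1 this).resolve_left h2
  have y5 : x 5 = x 4 := by
    have := congrFun k4 5
    simp only [Matrix.cons_val, Pi.zero_apply] at this
    exact sub_eq_zero.1 this
  have y7 : x 7 = -x 6 := by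
    have := congrFun k4 7
    simp only [Matrix.cons_val, Pi.zero_apply] at this
    linear_combination this
  refine ⟨x 4, x 6, ?_⟩
  rw [← hx', y0, y1, y2, y3, y5, y7]
  module

/-- the vectors with `C = 1`, `P = 1` -/
theorem Fr8.decU (h : RR A A' B B' C P Q) (h2 : (2 : F) ≠ 0) {e1 e2 e3 e4 : Fin 8 → F}
    (f : Fr8 A A' B B' C P Q e1 e2 e3 e4) (u : Fin 8 → F) (cu : C *ᵥ u = u) (pu : P *ᵥ u = u) :
    ∃ a b : F, u = a • e1 + b • e2 := by
  obtain ⟨r1, r2, r3, r4⟩ := low h f.c3 f.p3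
  obtain ⟨s1, s2, s3, s4⟩ := low h f.c4 f.p4
  obtain ⟨x, hx⟩ := f.expand h h2 u
  have hx' := hx
  simp only [lc8] at hx'
  have k1 := congrArg (fun w => C *ᵥ w) hx'
  simp only [mulVec_add, mulVec_smul, f.c1, f.c2, f.c3, f.c4, r1, r3, s1, s3, cu] at k1
  have k2 := f.ind h h2 ![0, 0, 0, 0, 2 * x 4, 2 * x 5, 2 * x 6, 2 * x 7] (by
    simp only [lc8, Matrix.cons_val_zero, Matrix.cons_val_one, Matrix.cons_val]
    have : (0 : Fin 8 → F) = u - u := by rw [sub_self]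
    rw [this]
    nth_rewrite 1 [← hx']
    rw [← k1]
    module)
  have y4 : x 4 = 0 := by
    have := congrFun k2 4
    simp only [Matrix.cons_val, Pi.zero_apply] at this
    exact (mul_eq_zero.1 this).resolve_left h2
  have y5 : x 5 = 0 := by
    have := congrFun k2 5
    simp only [Matrix.cons_val, Pi.zero_apply] at this
    exact (mul_eq_zero.1 this).resolve_left h2
  have y6 : x 6 = 0 := by
    have := congrFun k2 6
    simp only [Matrix.cons_val, Pi.zero_apply] at this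
    exact (mul_eq_zero.1 this).resolve_left h2
  have y7 : x 7 = 0 := by
    have := congrFun k2 7
    simp only [Matrix.cons_val, Pi.zero_apply] at this
    exact (mul_eq_zero.1 this).resolve_left h2
  rw [y4, y5, y6, y7] at hx'
  have hx2 : x 0 • e1 + x 1 • e2 + x 2 • e3 + x 3 • e4 = u := by rw [← hx']; module
  have k3 := congrArg (fun w => P *ᵥ w) hx2
  simp only [mulVec_add, mulVec_smul, f.p1, f.p2, f.p3, f.p4, pu] at k3
  have k4 : (2 * x 2) • e3 + (2 * x 3) • e4 = 0 := by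
    have : (0 : Fin 8 → F) = u - u := by rw [sub_self]
    rw [this]
    nth_rewrite 1 [← hx2]
    rw [← k3]
    module
  obtain ⟨z2, z3⟩ := f.two34 h2 k4
  have w2 := (mul_eq_zero.1 z2).resolve_left h2
  have w3 := (mul_eq_zero.1 z3).resolve_left h2
  refine ⟨x 0, x 1, ?_⟩
  rw [← hx2, w2, w3]
  module

/-- the action of `A` on the vectors with `C = 1`, `P = 1` -/
theorem Fr8.typeA (h : RR A A' B B' C P Q) (h2 : (2 : F) ≠ 0) {e1 e2 e3 e4 : Fin 8 → F}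
    (f : Fr8 A A' B B' C P Q e1 e2 e3 e4) : ∃ s X Z : F,
      ((s = 2 ∧ X = 0 ∧ Z = 0) ∨ (s = -1 ∧ X * Z = -3)) ∧
      (2 : F) • (A *ᵥ e1) = s • e1 + X • e2 ∧ (2 : F) • (A' *ᵥ e1) = s • e1 - X • e2 ∧
      (2 : F) • (A *ᵥ e2) = Z • e1 + s • e2 ∧ (2 : F) • (A' *ᵥ e2) = -(Z • e1) + s • e2 := by
  obtain ⟨i1, i2⟩ := AU h f.c1 f.p1
  obtain ⟨j1, j2⟩ := AU h f.c2 f.p2
  obtain ⟨a, b, hab⟩ := f.decU h h2 _ i1 i2
  obtain ⟨c, d, hcd⟩ := f.decU h h2 _ j1 j2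
  have ha1 : A' *ᵥ e1 = a • e1 - b • e2 := by
    have k := app h.qa e1
    rw [f.q1, hab, mulVec_add, mulVec_smul, mulVec_smul, f.q1, f.q2] at k
    rw [← k]; module
  have ha2 : A' *ᵥ e2 = -(c • e1) + d • e2 := by
    have k := app h.qa e2
    rw [f.q2, hcd, mulVec_add, mulVec_smul, mulVec_smul, f.q1, f.q2, mulVec_neg] at k
    rw [← neg_neg (A' *ᵥ e2), ← k]; module
  have E1 : (a ^ 2 - b * c - 1) • e1 + (b * (d - a)) • e2 = 0 := by
    have k := app0 h.aia e1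
    rw [hab, mulVec_add, mulVec_smul, mulVec_smul, ha1, ha2] at k
    have : (a ^ 2 - b * c - 1) • e1 + (b * (d - a)) • e2 =
        (a • (a • e1 - b • e2) + b • (-(c • e1) + d • e2)) - e1 := by module
    rw [this, k, sub_self]
  have E2 : (c * (a - d)) • e1 + (d ^ 2 - b * c - 1) • e2 = 0 := by
    have k := app0 h.aia e2
    rw [hcd, mulVec_add, mulVec_smul, mulVec_smul, ha1, ha2] at k
    have : (c * (a - d)) • e1 + (d ^ 2 - b * c - 1) • e2 =
        (c • (a • e1 - b • e2) + d • (-(c • e1) + d • e2)) - e2 := by module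
    rw [this, k, sub_self]
  have E3 : (a ^ 2 + b * c - a) • e1 + (b * (a + d + 1)) • e2 = 0 := by
    have k := app1 h.aa e1
    rw [hab, mulVec_add, mulVec_smul, mulVec_smul, hab, hcd, ha1] at k
    have : (a ^ 2 + b * c - a) • e1 + (b * (a + d + 1)) • e2 =
        (a • (a • e1 + b • e2) + b • (c • e1 + d • e2)) - (a • e1 - b • e2) := by module
    rw [this, k, sub_self]
  have E4 : (c * (a + d + 1)) • e1 + (d ^ 2 + b * c - d) • e2 = 0 := by
    have k := app1 h.aa e2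
    rw [hcd, mulVec_add, mulVec_smul, mulVec_smul, hab, hcd, ha2] at k
    have : (c * (a + d + 1)) • e1 + (d ^ 2 + b * c - d) • e2 =
        (c • (a • e1 + b • e2) + d • (c • e1 + d • e2)) - (-(c • e1) + d • e2) := by module
    rw [this, k, sub_self]
  obtain ⟨u1, u2⟩ := f.two12 h2 E1
  obtain ⟨u3, u4⟩ := f.two12 h2 E2
  obtain ⟨u5, u6⟩ := f.two12 h2 E3
  obtain ⟨u7, u8⟩ := f.two12 h2 E4
  by_cases hbc : b = 0 ∧ c = 0
  · obtain ⟨rfl, rfl⟩ := hbc
    have a1 : a = 1 := by linear_combination u1 - u5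
    have d1 : d = 1 := by linear_combination u4 - u8
    refine ⟨2, 0, 0, Or.inl ⟨rfl, rfl, rfl⟩, ?_, ?_, ?_, ?_⟩
    · rw [hab, a1]; module
    · rw [ha1, a1]; module
    · rw [hcd, d1]; module
    · rw [ha2, d1]; module
  · have hn : b ≠ 0 ∨ c ≠ 0 := by
      by_contra hcon
      push Not at hcon
      exact hbc hcon
    have had : d = a ∧ a + d + 1 = 0 := by
      rcases hn with hb | hc
      · exact ⟨sub_eq_zero.1 ((mul_eq_zero.1 u2).resolve_left hb),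
          (mul_eq_zero.1 u6).resolve_left hb⟩
      · exact ⟨(sub_eq_zero.1 ((mul_eq_zero.1 u3).resolve_left hc)).symm,
          (mul_eq_zero.1 u7).resolve_left hc⟩
    obtain ⟨hda, h1⟩ := had
    subst hda
    refine ⟨2 * d, 2 * b, 2 * c, Or.inr ⟨?_, ?_⟩, ?_, ?_, ?_, ?_⟩
    · linear_combination h1
    · linear_combination -4 * u1 + (2 * d - 1) * h1
    · rw [hab]; module
    · rw [ha1]; module
    · rw [hcd]; module
    · rw [ha2]; module

end Pool.Agent.Helper61.KP
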