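import Pool.Agent.Helper61.KP.EigM

/-!
# The matrices of `2 A`, `2 A⁻¹`, `2 B`, `2 B⁻¹` in degree eight
-/

set_option autoImplicit false
set_option linter.unusedSimpArgs false

open Matrix

namespace Pool.Agent.Helper61.KP

variable {F : Type*} [Field F]

/-- twice the matrix of `A` -/
def NA (s X Z : F) : Matrix (Fin 8) (Fin 8) F :=
  !![s, Z, 0, 0, 0, 0, 0, 0;
    X, s, 0, 0, 0, 0, 0, 0;
    0, 0, 0, 0, 2, 0, 0, 0;
    0, 0, 0, 0, 0, 0, 2, 0;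
    0, 0, 0, 0, 0, 2, 0, 0;
    0, 0, 2, 0, 0, 0, 0, 0;
    0, 0, 0, 0, 0, 0, 0, 2;
    0, 0, 0, 2, 0, 0, 0, 0]

/-- twice the matrix of `A⁻¹` -/
def NAi (s X Z : F) : Matrix (Fin 8) (Fin 8) F :=
  !![s, -Z, 0, 0, 0, 0, 0, 0;
    -X, s, 0, 0, 0, 0, 0, 0;
    0, 0, 0, 0, 0, 2, 0, 0;
    0, 0, 0, 0, 0, 0, 0, 2;
    0, 0, 2, 0, 0, 0, 0, 0;
    0, 0, 0, 0, 2, 0, 0, 0;
    0, 0, 0, 2, 0, 0, 0, 0;
    0, 0, 0, 0, 0, 0, 2, 0]

/-- twice the matrix of `B` -/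
def NB (y b g d t U V : F) : Matrix (Fin 8) (Fin 8) F :=
  !![t, 0, V, 0, 0, 0, 0, 0;
    0, 0, 0, 0, y, y, g, -g;
    U, 0, t, 0, 0, 0, 0, 0;
    0, 0, 0, 0, b, b, d, -d;
    0, 2 * d, 0, 2 * g, y * d + b * g, -y * d - b * g, 2 * g * d, 2 * g * d;
    0, -2 * d, 0, -2 * g, y * d + b * g, -y * d - b * g, 2 * g * d, 2 * g * d;
    0, -2 * b, 0, -2 * y, -2 * y * b, 2 * y * b, -y * d - b * g, -y * d - b * g;
    0, -2 * b, 0, -2 * y, 2 * y * b, -2 * y * b, y * d + b * g, y * d + b * g]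

/-- twice the matrix of `B⁻¹` -/
def NBi (y b g d t U V : F) : Matrix (Fin 8) (Fin 8) F :=
  !![t, 0, -V, 0, 0, 0, 0, 0;
    0, 0, 0, 0, y, -y, g, g;
    -U, 0, t, 0, 0, 0, 0, 0;
    0, 0, 0, 0, -b, b, -d, -d;
    0, 2 * d, 0, -2 * g, y * d + b * g, y * d + b * g, 2 * g * d, -2 * g * d;
    0, 2 * d, 0, -2 * g, -y * d - b * g, -y * d - b * g, -2 * g * d, 2 * g * d;
    0, -2 * b, 0, 2 * y, -2 * y * b, -2 * y * b, -y * d - b * g, y * d + b * g;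
    0, 2 * b, 0, -2 * y, -2 * y * b, -2 * y * b, -y * d - b * g, y * d + b * g]

theorem N1_eq (y b g d s X Z t U V : F) (x : Fin 8 → F) :
    NAi s X Z *ᵥ (NB y b g d t U V *ᵥ x) = N1 y b g d s X Z t U V *ᵥ x := by
  funext i
  fin_cases i <;>
  · simp only [NA, NAi, NB, NBi, N1, N2, N3, N4, Matrix.mulVec, dotProduct, Fin.sum_univ_eight,
      Matrix.of_apply, Matrix.cons_val', Matrix.cons_val_zero, Matrix.cons_val_one,
      Matrix.cons_val, Matrix.cons_val_fin_one, Fin.zero_eta, Fin.mk_one, Fin.reduceFinMk]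
    ring

theorem N2_eq (y b g d s X Z t U V : F) (x : Fin 8 → F) :
    NA s X Z *ᵥ (NBi y b g d t U V *ᵥ x) = N2 y b g d s X Z t U V *ᵥ x := by
  funext i
  fin_cases i <;>
  · simp only [NA, NAi, NB, NBi, N1, N2, N3, N4, Matrix.mulVec, dotProduct, Fin.sum_univ_eight,
      Matrix.of_apply, Matrix.cons_val', Matrix.cons_val_zero, Matrix.cons_val_one,
      Matrix.cons_val, Matrix.cons_val_fin_one, Fin.zero_eta, Fin.mk_one, Fin.reduceFinMk]
    ring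

theorem N3_eq (y b g d s X Z t U V : F) (x : Fin 8 → F) :
    NAi s X Z *ᵥ (NBi y b g d t U V *ᵥ x) = N3 y b g d s X Z t U V *ᵥ x := by
  funext i
  fin_cases i <;>
  · simp only [NA, NAi, NB, NBi, N1, N2, N3, N4, Matrix.mulVec, dotProduct, Fin.sum_univ_eight,
      Matrix.of_apply, Matrix.cons_val', Matrix.cons_val_zero, Matrix.cons_val_one,
      Matrix.cons_val, Matrix.cons_val_fin_one, Fin.zero_eta, Fin.mk_one, Fin.reduceFinMk]
    ring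

theorem N4_eq (y b g d s X Z t U V : F) (x : Fin 8 → F) :
    NA s X Z *ᵥ (NB y b g d t U V *ᵥ x) = N4 y b g d s X Z t U V *ᵥ x := by
  funext i
  fin_cases i <;>
  · simp only [NA, NAi, NB, NBi, N1, N2, N3, N4, Matrix.mulVec, dotProduct, Fin.sum_univ_eight,
      Matrix.of_apply, Matrix.cons_val', Matrix.cons_val_zero, Matrix.cons_val_one,
      Matrix.cons_val, Matrix.cons_val_fin_one, Fin.zero_eta, Fin.mk_one, Fin.reduceFinMk]
    ring

end Pool.Agent.Helper61.KP
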