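import Pool.Agent.Helper61.KP.SevC

/-!
# Degree seven: the contradiction in the last case
-/

set_option autoImplicit false
set_option linter.unusedSectionVars false
set_option linter.unusedSimpArgs false

open Matrix
open scoped MatrixGroups

namespace Pool.Agent.Helper61.KP

open Pool.Agent.Helper79.KF Pool.Agent.Helper61.KT

variable {F : Type*} [Field F]

section ids

variable {ι : Type*} [Fintype ι] [DecidableEq ι] {A A' B B' C P Q : Matrix ι ι F}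

theorem trace_of_conj {P W1 W2 : Matrix ι ι F} (hp : P * P = 1) (h : W2 * P = P * W1) :
    W1.trace = W2.trace := by
  have e : W2 = P * W1 * P := by
    rw [← h, mul_assoc, hp, mul_one]
  rw [e, trace_mul_comm, ← mul_assoc, hp, one_mul]

theorem id2 (h : RR A A' B B' C P Q) :
    (A' * B' * (A' * B') * (A' * B')).trace = (A' * B' * (A * B) * (A' * B)).trace := by
  apply trace_of_conj h.pp
  have aq : A * Q = Q * A' := h.qai.symm
  have aiq : A' * Q = Q * A := h.qa.symm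
  have bp : B * P = P * B' := h.pbi.symm
  have bip : B' * P = P * B := h.pb.symm
  have aq_ : ∀ t, A * (Q * t) = Q * (A' * t) := fun t => by rw [← mul_assoc, aq, mul_assoc]
  have aiq_ : ∀ t, A' * (Q * t) = Q * (A * t) := fun t => by rw [← mul_assoc, aiq, mul_assoc]
  have bp_ : ∀ t, B * (P * t) = P * (B' * t) := fun t => by rw [← mul_assoc, bp, mul_assoc]
  have bip_ : ∀ t, B' * (P * t) = P * (B * t) := fun t => by rw [← mul_assoc, bip, mul_assoc]
  simp only [mul_assoc, h.cc, h.cc_, h.pp, h.pp_, h.qq, h.qq_, h.pc, h.pc_, h.qc, h.qc_, h.qp,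
    h.qp_, h.ac, h.ac_, h.ap, h.ap_, h.bc, h.bc_, h.bq, h.bq_, h.aic, h.aic_, h.aip, h.aip_,
    h.bic, h.bic_, h.biq, h.biq_, aq, aq_, aiq, aiq_, bp, bp_, bip, bip_]

theorem id3 (h : RR A A' B B' C P Q) :
    (A' * B' * (A' * B') * (A' * B)).trace = (A' * B' * (A * B) * (A' * B')).trace := by
  apply trace_of_conj h.pp
  have aq : A * Q = Q * A' := h.qai.symm
  have aiq : A' * Q = Q * A := h.qa.symm
  have bp : B * P = P * B' := h.pbi.symm
  have bip : B' * P = P * B := h.pb.symm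
  have aq_ : ∀ t, A * (Q * t) = Q * (A' * t) := fun t => by rw [← mul_assoc, aq, mul_assoc]
  have aiq_ : ∀ t, A' * (Q * t) = Q * (A * t) := fun t => by rw [← mul_assoc, aiq, mul_assoc]
  have bp_ : ∀ t, B * (P * t) = P * (B' * t) := fun t => by rw [← mul_assoc, bp, mul_assoc]
  have bip_ : ∀ t, B' * (P * t) = P * (B * t) := fun t => by rw [← mul_assoc, bip, mul_assoc]
  simp only [mul_assoc, h.cc, h.cc_, h.pp, h.pp_, h.qq, h.qq_, h.pc, h.pc_, h.qc, h.qc_, h.qp,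
    h.qp_, h.ac, h.ac_, h.ap, h.ap_, h.bc, h.bc_, h.bq, h.bq_, h.aic, h.aic_, h.aip, h.aip_,
    h.bic, h.bic_, h.biq, h.biq_, aq, aq_, aiq, aiq_, bp, bp_, bip, bip_]

end ids

variable {A A' B B' C P Q D P' Q' : Matrix (Fin 7) (Fin 7) F}

theorem Fr.param (h : RR A A' B B' C P Q) (h2 : (2 : F) ≠ 0) {e0 e3 e4 : Fin 7 → F}
    (f : Fr A A' B B' C P Q e0 e3 e4) : ∃ (e0 : Fin 7 → F) (y b g d : F),
      Fr A A' B B' C P Q e0 e3 e4 ∧ y * d - b * g = 1 ∧
      B' *ᵥ e0 = d • (A' *ᵥ e3 + A *ᵥ e3) - b • (A' *ᵥ e4 - A *ᵥ e4) ∧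
      B' *ᵥ e4 = -(g • (A' *ᵥ e3 + A *ᵥ e3)) + y • (A' *ᵥ e4 - A *ᵥ e4) := by
  have hs := h.symm
  obtain ⟨-, -, c0, q0⟩ := low hs f.c0 f.q0
  obtain ⟨-, -, c4, q4⟩ := low hs f.c4 f.q4
  obtain ⟨a, b, h0⟩ := f.dec h h2 _ c0 q0
  obtain ⟨c, d, h4⟩ := f.dec h h2 _ c4 q4
  have inj : ∀ v, B' *ᵥ v = 0 → v = 0 := by
    intro v hv
    have := congrArg (fun w => B *ᵥ w) hv
    simp only [mulVec_zero] at this
    rwa [app0 h.bbi] at this
  have two : ∀ s t : F, s • e0 + t • e4 = 0 → s = 0 ∧ t = 0 := by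
    intro s t hst
    have k := f.ind h h2 ![s, 0, 0, 0, t, 0, 0] (by
      simp only [lc, Matrix.cons_val_zero, Matrix.cons_val_one, Matrix.cons_val]
      rw [← hst]
      module)
    refine ⟨?_, ?_⟩
    · have := congrFun k 0
      simpa only [Matrix.cons_val_zero, Pi.zero_apply] using this
    · have := congrFun k 4
      simpa only [Matrix.cons_val, Pi.zero_apply] using this
  have hD : a * d - b * c ≠ 0 := by
    intro hD
    have k1 : B' *ᵥ (d • e0 + (-b) • e4) = 0 := by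
      rw [mulVec_add, mulVec_smul, mulVec_smul, h0, h4]
      calc _ = (a * d - b * c) • (A' *ᵥ e3 + A *ᵥ e3) := by module
        _ = 0 := by rw [hD, zero_smul]
    have k2 : B' *ᵥ ((-c) • e0 + a • e4) = 0 := by
      rw [mulVec_add, mulVec_smul, mulVec_smul, h0, h4]
      calc _ = (a * d - b * c) • (A' *ᵥ e4 - A *ᵥ e4) := by module
        _ = 0 := by rw [hD, zero_smul]
    obtain ⟨z1, z2⟩ := two _ _ (inj _ k1)
    obtain ⟨z3, z4⟩ := two _ _ (inj _ k2)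
    have zb : b = 0 := neg_eq_zero.1 z2
    rw [z4, zb, zero_smul, zero_smul, add_zero] at h0
    exact f.n0 (inj _ h0)
  set s : F := (a * d - b * c)⁻¹ with hs'
  have hs0 : s ≠ 0 := inv_ne_zero hD
  have hs1 : s * (a * d - b * c) = 1 := inv_mul_cancel₀ hD
  refine ⟨s • e0, d, -(s * b), -c, s * a, f.smul hs0, ?_, ?_, ?_⟩
  · linear_combination hs1
  · rw [mulVec_smul, h0]; module
  · rw [h4]; module

theorem beta_false (h : RR A A' B B' C P Q) (k : RR A A' B' B D P' Q') (h2 : (2 : F) ≠ 0)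
    (hr3 : 2 ≤ (X3 C P).rank) (hrP : (X0 C P).rank ≤ 1) (hrQ : (X0 C Q).rank ≤ 1)
    (hP : X0 C P ≠ 0) (hQ : X0 C Q ≠ 0) (hq : Q * X0 C P = -X0 C P) : False := by
  obtain ⟨e0', e3, e4, f'⟩ := exists_fr h h2 hr3 hrP hrQ hP hQ hq
  obtain ⟨e0, y, b, g, d, f, hD, B0, B4⟩ := f'.param h h2
  obtain ⟨G, hG⟩ := lc_mat e0 e3 (A' *ᵥ e3) (A *ᵥ e3) e4 (A' *ᵥ e4) (A *ᵥ e4)
  have hG0 : ∀ x, G *ᵥ x = 0 → x = 0 := by
    intro x hx
    rw [hG] at hx
    exact f.ind h h2 x hx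
  have m1 : ∀ x, ((2 : F) • (A' * B)) *ᵥ (G *ᵥ x) = G *ᵥ (M1 y b g d *ᵥ x) := by
    intro x; rw [hG, hG]; exact (f.mats h hD B0 B4 x).1
  have m2 : ∀ x, ((2 : F) • (A * B')) *ᵥ (G *ᵥ x) = G *ᵥ (M2 y b g d *ᵥ x) := by
    intro x; rw [hG, hG]; exact (f.mats h hD B0 B4 x).2.1
  have m3 : ∀ x, ((2 : F) • (A' * B')) *ᵥ (G *ᵥ x) = G *ᵥ (M3 y b g d *ᵥ x) := by
    intro x; rw [hG, hG]; exact (f.mats h hD B0 B4 x).2.2
  have i1 := trace_inv_mul k
  have i2 := id2 k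
  have i3 := id3 k
  have t1 := trace_eq hG0 m1
  have t2 := trace_eq hG0 m2
  have hd : d = 2 * y := by
    have k1 := tr1 y b g d
    rw [← t1, ← t2, trace_smul, trace_smul, i1, sub_self] at k1
    have k2 : (2 : F) * (d - 2 * y) = 0 := by linear_combination -k1
    exact sub_eq_zero.1 ((mul_eq_zero.1 k2).resolve_left h2)
  subst hd
  have hbg : b * g = 2 * y ^ 2 - 1 := by linear_combination -hD
  have prod : ∀ {W W' M M' : Matrix (Fin 7) (Fin 7) F}, (∀ x, W *ᵥ (G *ᵥ x) = G *ᵥ (M *ᵥ x)) →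
      (∀ x, W' *ᵥ (G *ᵥ x) = G *ᵥ (M' *ᵥ x)) →
      ∀ x, (W * W') *ᵥ (G *ᵥ x) = G *ᵥ ((M * M') *ᵥ x) := by
    intro W W' M M' hW hW' x
    rw [← mulVec_mulVec, hW', hW, ← mulVec_mulVec]
  have e1 := trace_eq hG0 (prod (prod m1 m1) m1)
  have e2 := trace_eq hG0 (prod (prod m1 m2) m3)
  have e3 := trace_eq hG0 (prod (prod m1 m1) m3)
  have e4 := trace_eq hG0 (prod (prod m1 m2) m1)
  have k2 := tr2 y b g hbg
  have k3 := tr3 y b g hbg
  rw [← e1, ← e2] at k2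
  rw [← e3, ← e4] at k3
  simp only [smul_mul_assoc, mul_smul_comm, trace_smul] at k2 k3
  rw [i2, sub_self] at k2
  rw [i3, sub_self] at k3
  exact poly_false h2 y k2.symm k3.symm

end Pool.Agent.Helper61.KP
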