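import Pool.Agent.Helper61.KP.EigB
import Pool.Agent.Helper61.KP.EigN
import Pool.Agent.Helper61.KP.SevD

/-!
# Degree eight: the action on the basis
-/

set_option autoImplicit false
set_option linter.unusedSectionVars false
set_option linter.unusedSimpArgs false

open Matrix
open scoped MatrixGroups

namespace Pool.Agent.Helper61.KP

open Pool.Agent.Helper79.KF Pool.Agent.Helper61.KT

variable {F : Type*} [Field F]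

/-- the action of an element and its inverse on two vectors -/
structure TN (A A' : Matrix (Fin 8) (Fin 8) F) (u v : Fin 8 → F) (s X Z : F) : Prop where
  a1 : (2 : F) • (A *ᵥ u) = s • u + X • v
  a2 : (2 : F) • (A' *ᵥ u) = s • u - X • v
  a3 : (2 : F) • (A *ᵥ v) = Z • u + s • v
  a4 : (2 : F) • (A' *ᵥ v) = -(Z • u) + s • v

theorem TN.smul {A A' : Matrix (Fin 8) (Fin 8) F} {u v : Fin 8 → F} {s X Z : F}
    (t : TN A A' u v s X Z) {c : F} (hc : c ≠ 0) : TN A A' u (c • v) s (X * c⁻¹) (Z * c) := by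
  have e : X • v = (X * c⁻¹) • (c • v) := by
    rw [smul_smul, mul_assoc, inv_mul_cancel₀ hc, mul_one]
  refine ⟨?_, ?_, ?_, ?_⟩
  · rw [← e]; exact t.a1
  · rw [← e]; exact t.a2
  · rw [mulVec_smul, smul_comm, t.a3]; module
  · rw [mulVec_smul, smul_comm, t.a4]; module

variable {A A' B B' C P Q : Matrix (Fin 8) (Fin 8) F}

theorem Fr8.param (h : RR A A' B B' C P Q) (h2 : (2 : F) ≠ 0) {e1 e2 e3 e4 : Fin 8 → F}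
    (f : Fr8 A A' B B' C P Q e1 e2 e3 e4) : ∃ (c y b g d : F), c ≠ 0 ∧ y * d - b * g = 1 ∧
      B' *ᵥ (c • e2) = d • (A' *ᵥ e3 + A *ᵥ e3) - b • (A' *ᵥ e4 - A *ᵥ e4) ∧
      B' *ᵥ e4 = -(g • (A' *ᵥ e3 + A *ᵥ e3)) + y • (A' *ᵥ e4 - A *ᵥ e4) := by
  have hs := h.symm
  obtain ⟨-, -, c0, q0⟩ := low hs f.c2 f.q2
  obtain ⟨-, -, c4, q4⟩ := low hs f.c4 f.q4
  obtain ⟨a, b, h0⟩ := f.decN h h2 _ c0 q0
  obtain ⟨c, d, h4⟩ := f.decN h h2 _ c4 q4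
  have inj : ∀ v, B' *ᵥ v = 0 → v = 0 := by
    intro v hv
    have := congrArg (fun w => B *ᵥ w) hv
    simp only [mulVec_zero] at this
    rwa [app0 h.bbi] at this
  have two : ∀ s t : F, s • e2 + t • e4 = 0 → s = 0 ∧ t = 0 := by
    intro s t hst
    have k := f.ind h h2 ![0, s, 0, t, 0, 0, 0, 0] (by
      simp only [lc8, Matrix.cons_val_zero, Matrix.cons_val_one, Matrix.cons_val]
      rw [← hst]
      module)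
    refine ⟨?_, ?_⟩
    · have := congrFun k 1
      simpa only [Matrix.cons_val_one, Matrix.cons_val_zero, Pi.zero_apply] using this
    · have := congrFun k 3
      simpa only [Matrix.cons_val, Pi.zero_apply] using this
  have hD : a * d - b * c ≠ 0 := by
    intro hD
    have k1 : B' *ᵥ (d • e2 + (-b) • e4) = 0 := by
      rw [mulVec_add, mulVec_smul, mulVec_smul, h0, h4]
      calc _ = (a * d - b * c) • (A' *ᵥ e3 + A *ᵥ e3) := by module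
        _ = 0 := by rw [hD, zero_smul]
    have k2 : B' *ᵥ ((-c) • e2 + a • e4) = 0 := by
      rw [mulVec_add, mulVec_smul, mulVec_smul, h0, h4]
      calc _ = (a * d - b * c) • (A' *ᵥ e4 - A *ᵥ e4) := by module
        _ = 0 := by rw [hD, zero_smul]
    obtain ⟨z1, z2⟩ := two _ _ (inj _ k1)
    obtain ⟨z3, z4⟩ := two _ _ (inj _ k2)
    have zb : b = 0 := neg_eq_zero.1 z2
    rw [z4, zb, zero_smul, zero_smul, add_zero] at h0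
    exact f.n2 (inj _ h0)
  set s : F := (a * d - b * c)⁻¹ with hs'
  have hs0 : s ≠ 0 := inv_ne_zero hD
  have hs1 : s * (a * d - b * c) = 1 := inv_mul_cancel₀ hD
  refine ⟨s, d, -(s * b), -c, s * a, hs0, ?_, ?_, ?_⟩
  · linear_combination hs1
  · rw [mulVec_smul, h0]; module
  · rw [h4]; module

/-- the action of `2 B` and `2 B⁻¹` on the basis -/
theorem Fr8.act (h : RR A A' B B' C P Q) {e1 e2 e3 e4 : Fin 8 → F}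
    (f : Fr8 A A' B B' C P Q e1 e2 e3 e4) {y b g d : F} (hD : y * d - b * g = 1)
    (B2 : B' *ᵥ e2 = d • (A' *ᵥ e3 + A *ᵥ e3) - b • (A' *ᵥ e4 - A *ᵥ e4))
    (B4 : B' *ᵥ e4 = -(g • (A' *ᵥ e3 + A *ᵥ e3)) + y • (A' *ᵥ e4 - A *ᵥ e4)) :
    (B *ᵥ e2 = d • (A' *ᵥ e3 - A *ᵥ e3) - b • (A' *ᵥ e4 + A *ᵥ e4) ∧
      B *ᵥ e4 = g • (A' *ᵥ e3 - A *ᵥ e3) - y • (A' *ᵥ e4 + A *ᵥ e4) ∧
      (2 : F) • (B *ᵥ (A' *ᵥ e3)) = y • e2 + b • e4 + ((y * d + b * g) • (A' *ᵥ e3 + A *ᵥ e3) -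
        (2 * y * b) • (A' *ᵥ e4 - A *ᵥ e4)) ∧
      (2 : F) • (B *ᵥ (A *ᵥ e3)) = y • e2 + b • e4 - ((y * d + b * g) • (A' *ᵥ e3 + A *ᵥ e3) -
        (2 * y * b) • (A' *ᵥ e4 - A *ᵥ e4)) ∧
      (2 : F) • (B *ᵥ (A' *ᵥ e4)) = ((2 * g * d) • (A' *ᵥ e3 + A *ᵥ e3) -
        (y * d + b * g) • (A' *ᵥ e4 - A *ᵥ e4)) + (g • e2 + d • e4) ∧
      (2 : F) • (B *ᵥ (A *ᵥ e4)) = ((2 * g * d) • (A' *ᵥ e3 + A *ᵥ e3) -
        (y * d + b * g) • (A' *ᵥ e4 - A *ᵥ e4)) - (g • e2 + d • e4)) ∧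
    ((2 : F) • (B' *ᵥ (A' *ᵥ e3)) = ((y * d + b * g) • (A' *ᵥ e3 - A *ᵥ e3) -
        (2 * y * b) • (A' *ᵥ e4 + A *ᵥ e4)) + (y • e2 - b • e4) ∧
      (2 : F) • (B' *ᵥ (A *ᵥ e3)) = ((y * d + b * g) • (A' *ᵥ e3 - A *ᵥ e3) -
        (2 * y * b) • (A' *ᵥ e4 + A *ᵥ e4)) - (y • e2 - b • e4) ∧
      (2 : F) • (B' *ᵥ (A' *ᵥ e4)) = (g • e2 - d • e4) + ((2 * g * d) • (A' *ᵥ e3 - A *ᵥ e3) -
        (y * d + b * g) • (A' *ᵥ e4 + A *ᵥ e4)) ∧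
      (2 : F) • (B' *ᵥ (A *ᵥ e4)) = (g • e2 - d • e4) - ((2 * g * d) • (A' *ᵥ e3 - A *ᵥ e3) -
        (y * d + b * g) • (A' *ᵥ e4 + A *ᵥ e4))) := by
  obtain ⟨r1, r2, r3, r4⟩ := low h f.c3 f.p3
  obtain ⟨s1, s2, s3, s4⟩ := low h f.c4 f.p4
  have b0 : B *ᵥ e2 = d • (A' *ᵥ e3 - A *ᵥ e3) - b • (A' *ᵥ e4 + A *ᵥ e4) := by
    have k := app h.pbi e2
    rw [f.p2, B2] at k
    rw [← k]
    simp only [mulVec_add, mulVec_sub, mulVec_smul, r2, r4, s2, s4]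
    module
  have b4 : B *ᵥ e4 = g • (A' *ᵥ e3 - A *ᵥ e3) - y • (A' *ᵥ e4 + A *ᵥ e4) := by
    have k := app h.pbi e4
    rw [f.p4, mulVec_neg, B4] at k
    rw [← neg_neg (B *ᵥ e4), ← k]
    simp only [mulVec_add, mulVec_sub, mulVec_smul, mulVec_neg, r2, r4, s2, s4]
    module
  have bw1 : B *ᵥ (A' *ᵥ e3 + A *ᵥ e3) = y • e2 + b • e4 := by
    have k : A' *ᵥ e3 + A *ᵥ e3 = B' *ᵥ (y • e2 + b • e4) := by
      rw [mulVec_add, mulVec_smul, mulVec_smul, B2, B4]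
      calc A' *ᵥ e3 + A *ᵥ e3 = (y * d - b * g) • (A' *ᵥ e3 + A *ᵥ e3) := by rw [hD, one_smul]
        _ = _ := by module
    rw [k, app0 h.bbi]
  have bw2 : B *ᵥ (A' *ᵥ e4 - A *ᵥ e4) = g • e2 + d • e4 := by
    have k : A' *ᵥ e4 - A *ᵥ e4 = B' *ᵥ (g • e2 + d • e4) := by
      rw [mulVec_add, mulVec_smul, mulVec_smul, B2, B4]
      calc A' *ᵥ e4 - A *ᵥ e4 = (y * d - b * g) • (A' *ᵥ e4 - A *ᵥ e4) := by rw [hD, one_smul]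
        _ = _ := by module
    rw [k, app0 h.bbi]
  have bi1 : B' *ᵥ (A' *ᵥ e3 + A *ᵥ e3) = (y * d + b * g) • (A' *ᵥ e3 - A *ᵥ e3) -
        (2 * y * b) • (A' *ᵥ e4 + A *ᵥ e4) := by
    rw [← app1 h.bb, bw1, mulVec_add, mulVec_smul, mulVec_smul, b0, b4]
    module
  have bi2 : B' *ᵥ (A' *ᵥ e4 - A *ᵥ e4) = (2 * g * d) • (A' *ᵥ e3 - A *ᵥ e3) -
        (y * d + b * g) • (A' *ᵥ e4 + A *ᵥ e4) := by
    rw [← app1 h.bb, bw2, mulVec_add, mulVec_smul, mulVec_smul, b0, b4]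
    module
  have pw1 : P *ᵥ (A' *ᵥ e3 + A *ᵥ e3) = A' *ᵥ e3 - A *ᵥ e3 := by
    rw [mulVec_add, r2, r4]; abel
  have pw2 : P *ᵥ (A' *ᵥ e4 - A *ᵥ e4) = A' *ᵥ e4 + A *ᵥ e4 := by
    rw [mulVec_sub, s2, s4]; abel
  have pw1' : P *ᵥ (A' *ᵥ e3 - A *ᵥ e3) = A' *ᵥ e3 + A *ᵥ e3 := by
    rw [mulVec_sub, r2, r4]; abel
  have pw2' : P *ᵥ (A' *ᵥ e4 + A *ᵥ e4) = A' *ᵥ e4 - A *ᵥ e4 := by
    rw [mulVec_add, s2, s4]; abel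
  have bw1' : B *ᵥ (A' *ᵥ e3 - A *ᵥ e3) = (y * d + b * g) • (A' *ᵥ e3 + A *ᵥ e3) -
        (2 * y * b) • (A' *ᵥ e4 - A *ᵥ e4) := by
    have k := app h.pbi (A' *ᵥ e3 + A *ᵥ e3)
    rw [pw1, bi1] at k
    rw [← k, mulVec_sub, mulVec_smul, mulVec_smul, pw1', pw2']
  have bw2' : B *ᵥ (A' *ᵥ e4 + A *ᵥ e4) = (2 * g * d) • (A' *ᵥ e3 + A *ᵥ e3) -
        (y * d + b * g) • (A' *ᵥ e4 - A *ᵥ e4) := by
    have k := app h.pbi (A' *ᵥ e4 - A *ᵥ e4)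
    rw [pw2, bi2] at k
    rw [← k, mulVec_sub, mulVec_smul, mulVec_smul, pw1', pw2']
  have bi1' : B' *ᵥ (A' *ᵥ e3 - A *ᵥ e3) = y • e2 - b • e4 := by
    have k := app h.pb (A' *ᵥ e3 + A *ᵥ e3)
    rw [pw1, bw1] at k
    rw [← k, mulVec_add, mulVec_smul, mulVec_smul, f.p2, f.p4]
    module
  have bi2' : B' *ᵥ (A' *ᵥ e4 + A *ᵥ e4) = g • e2 - d • e4 := by
    have k := app h.pb (A' *ᵥ e4 - A *ᵥ e4)
    rw [pw2, bw2] at k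
    rw [← k, mulVec_add, mulVec_smul, mulVec_smul, f.p2, f.p4]
    module
  refine ⟨⟨b0, b4, ?_, ?_, ?_, ?_⟩, ?_, ?_, ?_, ?_⟩
  · rw [← bw1, ← bw1', mulVec_add, mulVec_sub]; module
  · rw [← bw1, ← bw1', mulVec_add, mulVec_sub]; module
  · rw [← bw2, ← bw2', mulVec_add, mulVec_sub]; module
  · rw [← bw2, ← bw2', mulVec_add, mulVec_sub]; module
  · rw [← bi1', ← bi1, mulVec_add, mulVec_sub]; module
  · rw [← bi1', ← bi1, mulVec_add, mulVec_sub]; module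
  · rw [← bi2', ← bi2, mulVec_add, mulVec_sub]; module
  · rw [← bi2', ← bi2, mulVec_add, mulVec_sub]; module

theorem two_lc8 (X : Matrix (Fin 8) (Fin 8) F) (v0 v1 v2 v3 v4 v5 v6 v7 : Fin 8 → F)
    (x : Fin 8 → F) : ((2 : F) • X) *ᵥ lc8 v0 v1 v2 v3 v4 v5 v6 v7 x =
      x 0 • ((2 : F) • (X *ᵥ v0)) + x 1 • ((2 : F) • (X *ᵥ v1)) +
      x 2 • ((2 : F) • (X *ᵥ v2)) + x 3 • ((2 : F) • (X *ᵥ v3)) +
      x 4 • ((2 : F) • (X *ᵥ v4)) + x 5 • ((2 : F) • (X *ᵥ v5)) +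
      x 6 • ((2 : F) • (X *ᵥ v6)) + x 7 • ((2 : F) • (X *ᵥ v7)) := by
  simp only [lc8, smul_mulVec, mulVec_add, mulVec_smul]

theorem Fr8.mA (h : RR A A' B B' C P Q) {e1 e2 e3 e4 : Fin 8 → F} {s X Z : F}
    (t : TN A A' e1 e2 s X Z) (x : Fin 8 → F) :
    ((2 : F) • A) *ᵥ lc8 e1 e2 e3 e4 (A' *ᵥ e3) (A *ᵥ e3) (A' *ᵥ e4) (A *ᵥ e4) x =
      lc8 e1 e2 e3 e4 (A' *ᵥ e3) (A *ᵥ e3) (A' *ᵥ e4) (A *ᵥ e4) (NA s X Z *ᵥ x) := by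
  rw [two_lc8, t.a1, t.a3, app0 h.aai, app1 h.aa, app0 h.aai, app1 h.aa]
  simp only [lc8, NA, Matrix.mulVec, dotProduct, Fin.sum_univ_eight, Matrix.of_apply,
    Matrix.cons_val', Matrix.cons_val_zero, Matrix.cons_val_one, Matrix.cons_val,
    Matrix.cons_val_fin_one]
  module

theorem Fr8.mAi (h : RR A A' B B' C P Q) {e1 e2 e3 e4 : Fin 8 → F} {s X Z : F}
    (t : TN A A' e1 e2 s X Z) (x : Fin 8 → F) :
    ((2 : F) • A') *ᵥ lc8 e1 e2 e3 e4 (A' *ᵥ e3) (A *ᵥ e3) (A' *ᵥ e4) (A *ᵥ e4) x =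
      lc8 e1 e2 e3 e4 (A' *ᵥ e3) (A *ᵥ e3) (A' *ᵥ e4) (A *ᵥ e4) (NAi s X Z *ᵥ x) := by
  have aiai : A' * A' = A := by
    calc A' * A' = A' * (A * A) := by rw [h.aa]
      _ = A := by rw [← mul_assoc, h.aia, one_mul]
  rw [two_lc8, t.a2, t.a4, app1 aiai, app0 h.aia, app1 aiai, app0 h.aia]
  simp only [lc8, NAi, Matrix.mulVec, dotProduct, Fin.sum_univ_eight, Matrix.of_apply,
    Matrix.cons_val', Matrix.cons_val_zero, Matrix.cons_val_one, Matrix.cons_val,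
    Matrix.cons_val_fin_one]
  module

theorem Fr8.mB (h : RR A A' B B' C P Q) {e1 e2 e3 e4 : Fin 8 → F}
    (f : Fr8 A A' B B' C P Q e1 e2 e3 e4) {y b g d : F} (hD : y * d - b * g = 1)
    (B2 : B' *ᵥ e2 = d • (A' *ᵥ e3 + A *ᵥ e3) - b • (A' *ᵥ e4 - A *ᵥ e4))
    (B4 : B' *ᵥ e4 = -(g • (A' *ᵥ e3 + A *ᵥ e3)) + y • (A' *ᵥ e4 - A *ᵥ e4))
    {t U V : F} (tn : TN B B' e1 e3 t U V) (x : Fin 8 → F) :
    ((2 : F) • B) *ᵥ lc8 e1 e2 e3 e4 (A' *ᵥ e3) (A *ᵥ e3) (A' *ᵥ e4) (A *ᵥ e4) x =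
      lc8 e1 e2 e3 e4 (A' *ᵥ e3) (A *ᵥ e3) (A' *ᵥ e4) (A *ᵥ e4) (NB y b g d t U V *ᵥ x) := by
  obtain ⟨⟨b2, b4, t4, t5, t6, t7⟩, -⟩ := f.act h hD B2 B4
  rw [two_lc8, tn.a1, tn.a3, t4, t5, t6, t7, b2, b4]
  simp only [lc8, NB, Matrix.mulVec, dotProduct, Fin.sum_univ_eight, Matrix.of_apply,
    Matrix.cons_val', Matrix.cons_val_zero, Matrix.cons_val_one, Matrix.cons_val,
    Matrix.cons_val_fin_one]
  module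

theorem Fr8.mBi (h : RR A A' B B' C P Q) {e1 e2 e3 e4 : Fin 8 → F}
    (f : Fr8 A A' B B' C P Q e1 e2 e3 e4) {y b g d : F} (hD : y * d - b * g = 1)
    (B2 : B' *ᵥ e2 = d • (A' *ᵥ e3 + A *ᵥ e3) - b • (A' *ᵥ e4 - A *ᵥ e4))
    (B4 : B' *ᵥ e4 = -(g • (A' *ᵥ e3 + A *ᵥ e3)) + y • (A' *ᵥ e4 - A *ᵥ e4))
    {t U V : F} (tn : TN B B' e1 e3 t U V) (x : Fin 8 → F) :
    ((2 : F) • B') *ᵥ lc8 e1 e2 e3 e4 (A' *ᵥ e3) (A *ᵥ e3) (A' *ᵥ e4) (A *ᵥ e4) x =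
      lc8 e1 e2 e3 e4 (A' *ᵥ e3) (A *ᵥ e3) (A' *ᵥ e4) (A *ᵥ e4) (NBi y b g d t U V *ᵥ x) := by
  obtain ⟨-, u4, u5, u6, u7⟩ := f.act h hD B2 B4
  rw [two_lc8, tn.a2, tn.a4, u4, u5, u6, u7, B2, B4]
  simp only [lc8, NBi, Matrix.mulVec, dotProduct, Fin.sum_univ_eight, Matrix.of_apply,
    Matrix.cons_val', Matrix.cons_val_zero, Matrix.cons_val_one, Matrix.cons_val,
    Matrix.cons_val_fin_one]
  module

/-- the matrices of the four products -/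
theorem Fr8.mats (h : RR A A' B B' C P Q) (h2 : (2 : F) ≠ 0) {e1 e2 e3 e4 : Fin 8 → F}
    (f : Fr8 A A' B B' C P Q e1 e2 e3 e4) {y b g d : F} (hD : y * d - b * g = 1)
    (B2 : B' *ᵥ e2 = d • (A' *ᵥ e3 + A *ᵥ e3) - b • (A' *ᵥ e4 - A *ᵥ e4))
    (B4 : B' *ᵥ e4 = -(g • (A' *ᵥ e3 + A *ᵥ e3)) + y • (A' *ᵥ e4 - A *ᵥ e4))
    {s X Z t U V : F} (ta : TN A A' e1 e2 s X Z) (tb : TN B B' e1 e3 t U V) :
    ∃ G : Matrix (Fin 8) (Fin 8) F, (∀ x, G *ᵥ x = 0 → x = 0) ∧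
      (∀ x, (((2 : F) • A') * ((2 : F) • B)) *ᵥ (G *ᵥ x) = G *ᵥ (N1 y b g d s X Z t U V *ᵥ x)) ∧
      (∀ x, (((2 : F) • A) * ((2 : F) • B')) *ᵥ (G *ᵥ x) = G *ᵥ (N2 y b g d s X Z t U V *ᵥ x)) ∧
      (∀ x, (((2 : F) • A') * ((2 : F) • B')) *ᵥ (G *ᵥ x) = G *ᵥ (N3 y b g d s X Z t U V *ᵥ x)) ∧
      (∀ x, (((2 : F) • A) * ((2 : F) • B)) *ᵥ (G *ᵥ x) = G *ᵥ (N4 y b g d s X Z t U V *ᵥ x)) := by
  obtain ⟨G, hG⟩ := lc8_mat e1 e2 e3 e4 (A' *ᵥ e3) (A *ᵥ e3) (A' *ᵥ e4) (A *ᵥ e4)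
  refine ⟨G, ?_, ?_, ?_, ?_, ?_⟩
  · intro x hx
    rw [hG] at hx
    exact f.ind h h2 x hx
  · intro x
    rw [← mulVec_mulVec, hG, f.mB h hD B2 B4 tb, Fr8.mAi h ta, N1_eq, hG]
  · intro x
    rw [← mulVec_mulVec, hG, f.mBi h hD B2 B4 tb, Fr8.mA h ta, N2_eq, hG]
  · intro x
    rw [← mulVec_mulVec, hG, f.mBi h hD B2 B4 tb, Fr8.mAi h ta, N3_eq, hG]
  · intro x
    rw [← mulVec_mulVec, hG, f.mB h hD B2 B4 tb, Fr8.mA h ta, N4_eq, hG]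

end Pool.Agent.Helper61.KP
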