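import Pool.Agent.Helper61.KP.EigC

/-!
# Degree eight: the identities and the contradictions
-/

set_option autoImplicit false
set_option linter.unusedSectionVars false
set_option linter.unusedSimpArgs false

open Matrix
open scoped MatrixGroups

namespace Pool.Agent.Helper61.KP

open Pool.Agent.Helper79.KF Pool.Agent.Helper61.KT

variable {F : Type*} [Field F]

section ids

variable {ι : Type*} [Fintype ι] [DecidableEq ι] {A A' B B' C P Q : Matrix ι ι F}

theorem trace_of_conj2 {g g' W1 W2 : Matrix ι ι F} (hg : g' * g = 1) (hg' : g * g' = 1)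
    (h : W2 * g = g * W1) : W1.trace = W2.trace := by
  have e : W1 = g' * (W2 * g) := by
    rw [h, ← mul_assoc, hg, one_mul]
  rw [e, trace_mul_comm, mul_assoc, hg', mul_one]

theorem id4 (h : RR A A' B B' C P Q) :
    (A' * B' * (A' * B')).trace = (A * B * (A * B)).trace := by
  apply trace_of_conj2 (g := P * Q) (g' := Q * P)
    (by rw [mul_assoc, ← mul_assoc P P Q, h.pp, one_mul, h.qq])
    (by rw [mul_assoc, ← mul_assoc Q Q P, h.qq, one_mul, h.pp])
  have aq : A * Q = Q * A' := h.qai.symm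
  have aiq : A' * Q = Q * A := h.qa.symm
  have bp : B * P = P * B' := h.pbi.symm
  have bip : B' * P = P * B := h.pb.symm
  have aq_ : ∀ t, A * (Q * t) = Q * (A' * t) := fun t => by rw [← mul_assoc, aq, mul_assoc]
  have aiq_ : ∀ t, A' * (Q * t) = Q * (A * t) := fun t => by rw [← mul_assoc, aiq, mul_assoc]
  have bp_ : ∀ t, B * (P * t) = P * (B' * t) := fun t => by rw [← mul_assoc, bp, mul_assoc]
  have bip_ : ∀ t, B' * (P * t) = P * (B * t) := fun t => by rw [← mul_assoc, bip, mul_assoc]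
  simp only [mul_assoc, h.cc, h.cc_, h.pp, h.pp_, h.qq, h.qq_, h.pc, h.pc_, h.qc, h.qc_, h.qp,
    h.qp_, h.ac, h.ac_, h.ap, h.ap_, h.bc, h.bc_, h.bq, h.bq_, h.aic, h.aic_, h.aip, h.aip_,
    h.bic, h.bic_, h.biq, h.biq_, aq, aq_, aiq, aiq_, bp, bp_, bip, bip_]

theorem id5 (h : RR A A' B B' C P Q) :
    (A' * B' * (A * B') * (A' * B)).trace = (A' * B * (A * B') * (A * B)).trace := by
  have e : (A' * B * (A * B') * (A * B)).trace = (A * B' * (A * B) * (A' * B)).trace := by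
    rw [trace_mul_comm (A * B' * (A * B)), mul_assoc (A' * B)]
  rw [e]
  apply trace_of_conj h.qq
  have aq : A * Q = Q * A' := h.qai.symm
  have aiq : A' * Q = Q * A := h.qa.symm
  have bp : B * P = P * B' := h.pbi.symm
  have bip : B' * P = P * B := h.pb.symm
  have aq_ : ∀ t, A * (Q * t) = Q * (A' * t) := fun t => by rw [← mul_assoc, aq, mul_assoc]
  have aiq_ : ∀ t, A' * (Q * t) = Q * (A * t) := fun t => by rw [← mul_assoc, aiq, mul_assoc]
  have bp_ : ∀ t, B * (P * t) = P * (B' * t) := fun t => by rw [← mul_assoc, bp, mul_assoc]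
  have bip_ : ∀ t, B' * (P * t) = P * (B * t) := fun t => by rw [← mul_assoc, bip, mul_assoc]
  simp only [mul_assoc, h.cc, h.cc_, h.pp, h.pp_, h.qq, h.qq_, h.pc, h.pc_, h.qc, h.qc_, h.qp,
    h.qp_, h.ac, h.ac_, h.ap, h.ap_, h.bc, h.bc_, h.bq, h.bq_, h.aic, h.aic_, h.aip, h.aip_,
    h.bic, h.bic_, h.biq, h.biq_, aq, aq_, aiq, aiq_, bp, bp_, bip, bip_]

end ids

variable {A A' B B' C P Q D P' Q' E P'' Q'' : Matrix (Fin 8) (Fin 8) F}

theorem prod8 {G W W' M M' : Matrix (Fin 8) (Fin 8) F} (hW : ∀ x, W *ᵥ (G *ᵥ x) = G *ᵥ (M *ᵥ x))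
    (hW' : ∀ x, W' *ᵥ (G *ᵥ x) = G *ᵥ (M' *ᵥ x)) (x : Fin 8 → F) :
    (W * W') *ᵥ (G *ᵥ x) = G *ᵥ ((M * M') *ᵥ x) := by
  rw [← mulVec_mulVec, hW', hW, ← mulVec_mulVec]

/-- one of `A`, `B` acts trivially on the vectors fixed by the normal subgroup -/
theorem nt_case (h : RR A A' B B' C P Q) (k : RR A A' B' B D P' Q') (h2 : (2 : F) ≠ 0)
    {e1 e2 e3 e4 : Fin 8 → F} (f' : Fr8 A A' B B' C P Q e1 e2 e3 e4) {X Z : F}
    (ta' : TN A A' e1 e2 (-1) X Z) (tb : TN B B' e1 e3 2 0 0) : False := by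
  obtain ⟨c, y, b, g, d, hc, hD, B2, B4⟩ := f'.param h h2
  have f := f'.smul hc
  have ta := ta'.smul hc
  obtain ⟨G, hG0, m1, m2, m3, m4⟩ := f.mats h h2 hD B2 B4 ta tb
  have i1 := trace_inv_mul k
  have i2 := id2 k
  have i3 := id3 k
  have t1 := trace_eq hG0 m1
  have t2 := trace_eq hG0 m2
  have hd : d = 2 * y := by
    have k1 := ntr1 y b g d (-1) (X * c⁻¹) (Z * c) 2 0 0
    rw [← t1, ← t2] at k1
    simp only [smul_mul_assoc, mul_smul_comm, trace_smul] at k1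
    rw [i1, sub_self] at k1
    have k2 : (2 : F) ^ 2 * (d - 2 * y) = 0 := by linear_combination -k1
    exact sub_eq_zero.1 ((mul_eq_zero.1 k2).resolve_left (pow2_ne h2 2))
  subst hd
  have hbg : b * g = 2 * y ^ 2 - 1 := by linear_combination -hD
  have e1 := trace_eq hG0 (prod8 (prod8 m1 m1) m1)
  have e2 := trace_eq hG0 (prod8 (prod8 m1 m2) m3)
  have e3 := trace_eq hG0 (prod8 (prod8 m1 m1) m3)
  have e4 := trace_eq hG0 (prod8 (prod8 m1 m2) m1)
  have k2 := nt_ii y b g (X * c⁻¹) (Z * c) hbg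
  have k3 := nt_iii y b g (X * c⁻¹) (Z * c) hbg
  rw [← e1, ← e2] at k2
  rw [← e3, ← e4] at k3
  simp only [smul_mul_assoc, mul_smul_comm, trace_smul] at k2 k3
  rw [i2, sub_self] at k2
  rw [i3, sub_self] at k3
  exact nt_false h2 y k2.symm k3.symm

theorem nn_case (h : RR A A' B B' C P Q) (k : RR A A' B' B D P' Q') (l : RR A' A B' B E P'' Q'')
    (h2 : (2 : F) ≠ 0) {e1 e2 e3 e4 : Fin 8 → F} (f' : Fr8 A A' B B' C P Q e1 e2 e3 e4)
    {X Z U V : F} (hX' : X * Z = -3) (hU : U * V = -3)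
    (ta' : TN A A' e1 e2 (-1) X Z) (tb : TN B B' e1 e3 (-1) U V) : False := by
  obtain ⟨c, y, b, g, d, hc, hD, B2, B4⟩ := f'.param h h2
  have f := f'.smul hc
  have ta := ta'.smul hc
  have hX : (X * c⁻¹) * (Z * c) = -3 := by
    rw [← hX']
    field_simp
  set X1 := X * c⁻¹
  set Z1 := Z * c
  obtain ⟨G, hG0, m1, m2, m3, m4⟩ := f.mats h h2 hD B2 B4 ta tb
  have i1 := trace_inv_mul k
  have i2 := id2 k
  have i3 := id3 k
  have i4 := id4 k
  have i5 := id5 k
  have j2 := id2 l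
  have t1 := trace_eq hG0 m1
  have t2 := trace_eq hG0 m2
  have hd : d = 2 * y := by
    have k1 := ntr1 y b g d (-1) X1 Z1 (-1) U V
    rw [← t1, ← t2] at k1
    simp only [smul_mul_assoc, mul_smul_comm, trace_smul] at k1
    rw [i1, sub_self] at k1
    have k2 : (2 : F) ^ 2 * (d - 2 * y) = 0 := by linear_combination -k1
    exact sub_eq_zero.1 ((mul_eq_zero.1 k2).resolve_left (pow2_ne h2 2))
  subst hd
  have hbg : b * g = 2 * y ^ 2 - 1 := by linear_combination -hD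
  have s1 := trace_eq hG0 (prod8 m1 m1)
  have s2 := trace_eq hG0 (prod8 m2 m2)
  have s3 := trace_eq hG0 (prod8 (prod8 m1 m4) m3)
  have s4 := trace_eq hG0 (prod8 (prod8 m3 m4) m2)
  have e1 := trace_eq hG0 (prod8 (prod8 m1 m1) m1)
  have e2 := trace_eq hG0 (prod8 (prod8 m1 m2) m3)
  have e3 := trace_eq hG0 (prod8 (prod8 m1 m1) m3)
  have e4 := trace_eq hG0 (prod8 (prod8 m1 m2) m1)
  have e5 := trace_eq hG0 (prod8 (prod8 m4 m4) m4)
  have e6 := trace_eq hG0 (prod8 (prod8 m4 m3) m2)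
  have k0 := nn_L4 y b g X1 Z1 U V
  have k1 := nn_iv y b g X1 Z1 U V hbg
  have k2 := nn_ii y b g X1 Z1 U V hbg hU
  have k3 := nn_iii y b g X1 Z1 U V hbg hU
  have k4 := nn_F y b g X1 Z1 U V hbg hX hU
  rw [← s1, ← s2] at k0
  rw [← s3, ← s4] at k1
  rw [← e1, ← e2] at k2
  rw [← e3, ← e4] at k3
  rw [← e5, ← e6] at k4
  simp only [smul_mul_assoc, mul_smul_comm, trace_smul] at k0 k1 k2 k3 k4
  rw [i4, sub_self] at k0
  rw [i5, sub_self] at k1
  rw [i2, sub_self] at k2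
  rw [i3, sub_self] at k3
  rw [j2, sub_self] at k4
  have hml : (X1 * V) * (Z1 * U) = 9 := by
    linear_combination (U * V) * hX - 3 * hU
  refine nn_false h2 y (X1 * V) (Z1 * U) hml ?_ ?_ ?_ ?_ ?_
  · linear_combination -k0
  · linear_combination -k1
  · linear_combination -k2
  · linear_combination -k3
  · linear_combination -k4

end Pool.Agent.Helper61.KP
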