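import Pool.Agent.Helper61.KP.EigD

/-!
# Linear representations of degree at most eight
-/

set_option autoImplicit false
set_option linter.unusedSectionVars false
set_option linter.unusedSimpArgs false

open Matrix
open scoped MatrixGroups

namespace Pool.Agent.Helper61.KP

open Pool.Agent.Helper79.KF Pool.Agent.Helper61.KT

variable {F : Type*} [Field F]

section gen

variable {ι : Type*} [Fintype ι] [DecidableEq ι]

/-- the subgroup which stabilizes a subspace -/
def stabU (U : Submodule F (ι → F)) : Subgroup (GL ι F) where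
  carrier := {g | ∀ u ∈ U, (g : Matrix ι ι F) *ᵥ u ∈ U ∧
    ((g⁻¹ : GL ι F) : Matrix ι ι F) *ᵥ u ∈ U}
  one_mem' := by
    intro u hu
    rw [inv_one, Units.val_one, one_mulVec]
    exact ⟨hu, hu⟩
  mul_mem' := by
    intro x y hx hy u hu
    constructor
    · rw [Units.val_mul, ← mulVec_mulVec]
      exact (hx _ (hy u hu).1).1
    · rw [_root_.mul_inv_rev, Units.val_mul, ← mulVec_mulVec]
      exact (hy _ (hx u hu).2).2
  inv_mem' := by
    intro x hx u hu
    refine ⟨(hx u hu).2, ?_⟩
    rw [inv_inv]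
    exact (hx u hu).1

/-- a stable subspace of dimension at most seven consists of fixed vectors -/
theorem stab_fix (h2 : (2 : F) ≠ 0) (φ : K →* GL ι F) (U : Submodule F (ι → F))
    (hU : ∀ k, φ k ∈ stabU U) (hr : Module.finrank F U ≤ 7) (k : K) (u : ι → F) (hu : u ∈ U) :
    (φ k : Matrix ι ι F) *ᵥ u = u := by
  have hmap : ∀ k, ∀ x ∈ U, (φ k : Matrix ι ι F).mulVecLin x ∈ U := by
    intro k x hx
    exact (hU k x hx).1
  let ρ : K →* Module.End F U :=
    { toFun := fun k => ((φ k : Matrix ι ι F).mulVecLin).restrict (hmap k)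
      map_one' := by
        ext x
        simp
      map_mul' := by
        intro k l
        ext x
        simp [mulVec_mulVec] }
  have hρ := trivial_end7 h2 hr ρ
  have h3 := DFunLike.congr_fun hρ k
  exact congrArg (fun T : Module.End F U => ((T ⟨u, hu⟩ : U) : ι → F)) h3

end gen

/-- degree eight, finite image -/
theorem field_eight (h2 : (2 : F) ≠ 0) (f : K →* GL (Fin 8) F) (hfin : Finite f.range) :
    f = 1 := by
  by_contra hne
  have R := allRel f
  have hC : Rel (f (gen 0)) (f (gen 1)) (f (gen 2)) := R.relC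
  have hD : Rel (f (gen 0)) (f (gen 1))⁻¹ (f (gen 3)) := R.relD
  have hE : Rel (f (gen 0))⁻¹ (f (gen 1)) (f (gen 4)) := R.relE
  have hF : Rel (f (gen 0))⁻¹ (f (gen 1))⁻¹ (f (gen 5)) := R.relF
  have C' := rr hC
  have D' := rr hD
  have E' := rr hE
  have F' := rr hF
  simp only [inv_inv] at D' E' F'
  -- common fixed vectors
  have hfix : ∀ v, (f (gen 0) : Matrix (Fin 8) (Fin 8) F) *ᵥ v = v →
      (f (gen 1) : Matrix (Fin 8) (Fin 8) F) *ᵥ v = v → v = 0 := by
    intro v ha hb
    by_contra hv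
    apply hne
    have hle : f.range ≤ fixU (Submodule.span F {v}) := by
      refine le_trans (gen_of_finite f hfin) ?_
      rw [Subgroup.closure_le]
      rintro y (rfl | hy)
      · intro u hu
        obtain ⟨c, rfl⟩ := Submodule.mem_span_singleton.1 hu
        rw [mulVec_smul, ha]
      · obtain rfl : y = f (gen 1) := hy
        intro u hu
        obtain ⟨c, rfl⟩ := Submodule.mem_span_singleton.1 hu
        rw [mulVec_smul, hb]
    refine quot_trivial h2 f (Submodule.span F {v}) (fun k => hle ⟨k, rfl⟩) ?_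
    have k1 := Submodule.finrank_quotient_add_finrank (Submodule.span F {v})
    rw [Module.finrank_fintype_fun_eq_card, Fintype.card_fin, finrank_span_singleton hv] at k1
    omega
  have hinv : ∀ S : Submodule F (Fin 8 → F),
      (∀ u ∈ S, (f (gen 0) : Matrix (Fin 8) (Fin 8) F) *ᵥ u ∈ S) →
      (∀ u ∈ S, (f (gen 1) : Matrix (Fin 8) (Fin 8) F) *ᵥ u ∈ S) →
      Module.finrank F S ≤ 7 → S = ⊥ := by
    intro S ha hb hr
    have ha' : f (gen 0) ∈ stabU S := by
      intro u hu
      refine ⟨ha u hu, ?_⟩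
      have k := app1 C'.aa u
      rw [← k]
      exact ha _ (ha u hu)
    have hb' : f (gen 1) ∈ stabU S := by
      intro u hu
      refine ⟨hb u hu, ?_⟩
      have k := app1 C'.bb u
      rw [← k]
      exact hb _ (hb u hu)
    have hle : f.range ≤ stabU S := by
      refine le_trans (gen_of_finite f hfin) ?_
      rw [Subgroup.closure_le]
      rintro y (rfl | hy)
      · exact ha'
      · obtain rfl : y = f (gen 1) := hy
        exact hb'
    rw [Submodule.eq_bot_iff]
    intro u hu
    exact hfix u (stab_fix h2 f S (fun k => hle ⟨k, rfl⟩) hr (gen 0) u hu)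
      (stab_fix h2 f S (fun k => hle ⟨k, rfl⟩) hr (gen 1) u hu)
  have hrank : ((f (gen 2) : Matrix (Fin 8) (Fin 8) F) - 1).rank = 4 := by
    obtain ⟨U, hU, hr⟩ := fix_gen h2 f hfin 2 (le_refl _)
    have hU0 : U = ⊥ := by
      rw [Submodule.eq_bot_iff]
      intro u hu
      exact hfix u (hU (gen 0) u hu) (hU (gen 1) u hu)
    rw [hU0, finrank_bot] at hr
    have r1 := rank_sum_neg C' h2
    rw [Fintype.card_fin] at r1
    have r2 := rank_half C' h2
    have r3 := rank_x30 C' h2
    omega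
  obtain ⟨e1, e2, e3, e4, f8⟩ := exists_fr8 C' h2 hrank hfix hinv
  obtain ⟨s, X, Z, hs, a1, a2, a3, a4⟩ := f8.typeA C' h2
  obtain ⟨t, U, V, ht, b1, b2, b3, b4⟩ := f8.symm.typeA C'.symm h2
  rcases hs with ⟨rfl, rfl, rfl⟩ | ⟨rfl, hX⟩
  · rcases ht with ⟨rfl, rfl, rfl⟩ | ⟨rfl, hU⟩
    · refine f8.n1 (hfix e1 ?_ ?_)
      · rw [zero_smul, add_zero] at a1
        exact smul_right_injective _ h2 a1
      · rw [zero_smul, add_zero] at b1
        exact smul_right_injective _ h2 b1
    · exact nt_case C'.symm E'.symm h2 f8.symm ⟨b1, b2, b3, b4⟩ ⟨a1, a2, a3, a4⟩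
  · rcases ht with ⟨rfl, rfl, rfl⟩ | ⟨rfl, hU⟩
    · exact nt_case C' D' h2 f8 ⟨a1, a2, a3, a4⟩ ⟨b1, b2, b3, b4⟩
    · exact nn_case C' D' F' h2 f8 hX hU ⟨a1, a2, a3, a4⟩ ⟨b1, b2, b3, b4⟩

/-- degree at most eight -/
theorem trivial_eight {R : Type*} [CommRing R] (h2 : IsUnit (2 : R)) {n : ℕ} (hn : n ≤ 8)
    (φ : K →* GL (Fin n) R) : φ = 1 := by
  rcases Nat.lt_or_ge 7 n with h8 | h7
  swap
  · exact trivial_seven h2 h7 φ
  obtain rfl : n = 8 := by omega
  obtain ⟨y, hy⟩ := h2.exists_right_inv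
  refine reduce φ {y} (Set.finite_singleton y) ?_
  intro S hS ψ _ I hI hfin
  have hy2 := two_ne_of hy (hS rfl) hI
  let _ := Ideal.Quotient.field I
  refine field_eight hy2 _ ?_
  have h1 : (Set.univ : Set (GL (Fin 8) (S ⧸ I))).Finite := Set.toFinite _
  exact (h1.subset (Set.subset_univ _)).to_subtype

end Pool.Agent.Helper61.KP
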