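import Pool.Agent.Helper61.KP.Seven

/-!
# The common fixed space
-/

set_option autoImplicit false
set_option linter.unusedSectionVars false

open Matrix
open scoped MatrixGroups

namespace Pool.Agent.Helper61.KP

open Pool.Agent.Helper79.KF Pool.Agent.Helper61.KT

variable {F : Type*} [Field F]

theorem trivial_end7 (h2 : (2 : F) ≠ 0) {U : Type*} [AddCommGroup U] [Module F U]
    [FiniteDimensional F U] (hU : Module.finrank F U ≤ 7) (ρ : K →* Module.End F U) : ρ = 1 := by
  let b := Module.finBasis F U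
  let e : Module.End F U →* Matrix (Fin (Module.finrank F U)) (Fin (Module.finrank F U)) F :=
    (LinearMap.toMatrixAlgEquiv b).toRingEquiv.toRingHom.toMonoidHom
  have h := trivial_seven (isUnit_iff_ne_zero.2 h2) hU (e.comp ρ).toHomUnits
  refine MonoidHom.ext fun k => ?_
  have h1 := DFunLike.congr_fun h k
  have h2 := congrArg (fun g : GL (Fin (Module.finrank F U)) F =>
    (g : Matrix (Fin (Module.finrank F U)) (Fin (Module.finrank F U)) F)) h1
  have h3 : LinearMap.toMatrixAlgEquiv b (ρ k) = LinearMap.toMatrixAlgEquiv b 1 := by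
    rw [map_one]; exact h2
  exact (LinearMap.toMatrixAlgEquiv b).injective h3

variable {ι : Type*} [Fintype ι] [DecidableEq ι]

/-- a representation which fixes a subspace of codimension at most seven -/
theorem quot_trivial (h2 : (2 : F) ≠ 0) (φ : K →* GL ι F) (U : Submodule F (ι → F))
    (hU : ∀ k, ∀ u ∈ U, (φ k : Matrix ι ι F) *ᵥ u = u)
    (hr : Module.finrank F ((ι → F) ⧸ U) ≤ 7) : φ = 1 := by
  have hmap : ∀ k, U ≤ U.comap ((φ k : Matrix ι ι F).mulVecLin) := by
    intro k u hu
    rw [Submodule.mem_comap, mulVecLin_apply, hU k u hu]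
    exact hu
  let ρ : K →* Module.End F ((ι → F) ⧸ U) :=
    { toFun := fun k => U.mapQ U ((φ k : Matrix ι ι F).mulVecLin) (hmap k)
      map_one' := by
        refine LinearMap.ext fun x => ?_
        induction x using Submodule.Quotient.induction_on with
        | _ v => simp
      map_mul' := by
        intro k l
        refine LinearMap.ext fun x => ?_
        induction x using Submodule.Quotient.induction_on with
        | _ v => simp [mulVec_mulVec] }
  have hρ := trivial_end7 h2 hr ρ
  have key : ∀ k v, (φ k : Matrix ι ι F) *ᵥ v - v ∈ U := by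
    intro k v
    have h1 := DFunLike.congr_fun hρ k
    have h3 := congrArg (fun T : Module.End F ((ι → F) ⧸ U) => T (Submodule.Quotient.mk v)) h1
    exact (Submodule.Quotient.eq U).1 h3
  have val : ∀ k l v, ((φ k * φ l : GL ι F) : Matrix ι ι F) *ᵥ v =
      (φ k : Matrix ι ι F) *ᵥ v + ((φ l : Matrix ι ι F) *ᵥ v - v) := by
    intro k l v
    rw [Units.val_mul, ← mulVec_mulVec]
    have e1 : (φ l : Matrix ι ι F) *ᵥ v = v + ((φ l : Matrix ι ι F) *ᵥ v - v) := by abel
    nth_rewrite 1 [e1]
    rw [mulVec_add, hU k _ (key l v)]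
  have com : ∀ k l, φ k * φ l = φ l * φ k := by
    intro k l
    apply Units.ext
    apply Matrix.toLin'.injective
    refine LinearMap.ext fun v => ?_
    rw [toLin'_apply, toLin'_apply, val, val]
    abel
  let _ : CommGroup φ.range :=
    { (inferInstance : Group φ.range) with
      mul_comm := by
        rintro ⟨_, k, rfl⟩ ⟨_, l, rfl⟩
        exact Subtype.ext (com k l) }
  have h5 := trivial_comm (M := φ.range) φ.rangeRestrict
  refine MonoidHom.ext fun k => ?_
  exact congrArg Subtype.val (DFunLike.congr_fun h5 k)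

theorem codim_ker (M : Matrix ι ι F) :
    Fintype.card ι ≤ Module.finrank F (LinearMap.ker M.mulVecLin) + M.rank := by
  have h := LinearMap.finrank_range_add_finrank_ker M.mulVecLin
  rw [Module.finrank_fintype_fun_eq_card] at h
  have h1 : M.rank = Module.finrank F (LinearMap.range M.mulVecLin) := rfl
  omega

theorem codim_inf {U W : Submodule F (ι → F)} {a b : ℕ}
    (hU : Fintype.card ι ≤ Module.finrank F U + a) (hW : Fintype.card ι ≤ Module.finrank F W + b) :
    Fintype.card ι ≤ Module.finrank F (U ⊓ W : Submodule F (ι → F)) + (a + b) := by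
  have h := Submodule.finrank_sup_add_finrank_inf_eq U W
  have h1 := Submodule.finrank_le (U ⊔ W)
  rw [Module.finrank_fintype_fun_eq_card] at h1
  omega

/-- the fixed vectors of `A` and `B` -/
theorem fix_space {A A' B B' C P Q : Matrix ι ι F} (h : RR A A' B B' C P Q) (h2 : (2 : F) ≠ 0) :
    ∃ U : Submodule F (ι → F), (∀ u ∈ U, A *ᵥ u = u ∧ B *ᵥ u = u) ∧
      Fintype.card ι ≤ Module.finrank F U + 3 * (C - 1).rank := by
  have hs := h.symm
  refine ⟨LinearMap.ker (C - 1).mulVecLin ⊓ (LinearMap.ker (X3 C P).mulVecLin ⊓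
    (LinearMap.ker (X3 C Q).mulVecLin ⊓ (LinearMap.ker (X3 C Q * A).mulVecLin ⊓
      LinearMap.ker (X3 C P * B).mulVecLin))), ?_, ?_⟩
  · rintro u ⟨u1, u2, u3, u4, u5⟩
    rw [SetLike.mem_coe, LinearMap.mem_ker, mulVecLin_apply] at u1 u2 u3 u4 u5
    have cu : C *ᵥ u = u := by
      rw [sub_mulVec, one_mulVec, sub_eq_zero] at u1
      exact u1
    -- `X3` on the vectors fixed by `C`
    have x3 : ∀ (R : Matrix ι ι F), R * C = C * R → ∀ v, C *ᵥ v = v → X3 C R *ᵥ v = 0 →
        R *ᵥ v = v := by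
      intro R hR v hv h0
      have k2 : X3 C R *ᵥ v = (2 : F) • (v - R *ᵥ v) := by
        have : X3 C R = (1 + C) * (1 - R) := rfl
        rw [this, ← mulVec_mulVec, sub_mulVec, one_mulVec, add_mulVec, one_mulVec, mulVec_sub,
          ← app hR, hv]
        module
      rw [k2] at h0
      exact (sub_eq_zero.1 ((smul_eq_zero.1 h0).resolve_left h2)).symm
    have pu := x3 P h.pc u cu u2
    have qu := x3 Q h.qc u cu u3
    rw [← mulVec_mulVec] at u4 u5
    have ca : C *ᵥ (A *ᵥ u) = A *ᵥ u := by rw [← app h.ap, pu]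
    have cb : C *ᵥ (B *ᵥ u) = B *ᵥ u := by rw [← app h.bq, qu]
    have qa := x3 Q h.qc _ ca u4
    have pb := x3 P h.pc _ cb u5
    rw [app h.qa, qu] at qa
    rw [app h.pb, pu] at pb
    constructor
    · have k1 : A *ᵥ (A *ᵥ u) = A' *ᵥ u := app1 h.aa u
      nth_rewrite 1 [← qa] at k1
      rw [app0 h.aai] at k1
      rw [← qa]; exact k1.symm
    · have k1 : B *ᵥ (B *ᵥ u) = B' *ᵥ u := app1 h.bb u
      nth_rewrite 1 [← pb] at k1
      rw [app0 h.bbi] at k1
      rw [← pb]; exact k1.symm
  · have r := rank_half h h2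
    have r' := rank_half hs h2
    have r4 := rank_mul_le_left (X3 C Q) A
    have r5 := rank_mul_le_left (X3 C P) B
    have k := codim_inf (codim_ker (C - 1)) (codim_inf (codim_ker (X3 C P))
      (codim_inf (codim_ker (X3 C Q)) (codim_inf (codim_ker (X3 C Q * A))
        (codim_ker (X3 C P * B)))))
    omega

/-- the subgroup fixing a subspace -/
def fixU (U : Submodule F (ι → F)) : Subgroup (GL ι F) where
  carrier := {g | ∀ u ∈ U, (g : Matrix ι ι F) *ᵥ u = u}
  one_mem' := by
    intro u _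
    rw [Units.val_one, one_mulVec]
  mul_mem' := by
    intro x y hx hy u hu
    rw [Units.val_mul, ← mulVec_mulVec, hy u hu, hx u hu]
  inv_mem' := by
    intro x hx u hu
    have h := hx u hu
    nth_rewrite 1 [← h]
    rw [mulVec_mulVec, ← Units.val_mul, inv_mul_cancel, Units.val_one, one_mulVec]

/-- the fixed space of `K` for a representation with finite image -/
theorem fix_all (h2 : (2 : F) ≠ 0) {n : ℕ} (φ : K →* GL (Fin n) F) (hfin : Finite φ.range)
    {a b c : GL (Fin n) F} (h : Rel a b c) (ha : a = φ (gen 0) ∨ a = (φ (gen 0))⁻¹)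
    (hb : b = φ (gen 1) ∨ b = (φ (gen 1))⁻¹) :
    ∃ U : Submodule F (Fin n → F), (∀ k, ∀ u ∈ U, (φ k : Matrix (Fin n) (Fin n) F) *ᵥ u = u) ∧
      n ≤ Module.finrank F U + 3 * ((c : Matrix (Fin n) (Fin n) F) - 1).rank := by
  obtain ⟨U, hU, hr⟩ := fix_space (rr h) h2
  rw [Fintype.card_fin] at hr
  refine ⟨U, ?_, hr⟩
  have ma : a ∈ fixU U := fun u hu => (hU u hu).1
  have mb : b ∈ fixU U := fun u hu => (hU u hu).2
  have ma' : φ (gen 0) ∈ fixU U := by
    rcases ha with e | e
    · rw [← e]; exact ma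
    · have := inv_mem ma
      rwa [e, inv_inv] at this
  have mb' : φ (gen 1) ∈ fixU U := by
    rcases hb with e | e
    · rw [← e]; exact mb
    · have := inv_mem mb
      rwa [e, inv_inv] at this
  have hle : φ.range ≤ fixU U := by
    refine le_trans (gen_of_finite φ hfin) ?_
    rw [Subgroup.closure_le]
    rintro y (rfl | hy)
    · exact ma'
    · obtain rfl : y = φ (gen 1) := hy
      exact mb'
  intro k
  exact hle ⟨k, rfl⟩

/-- the same for the four involutions -/
theorem fix_gen (h2 : (2 : F) ≠ 0) {n : ℕ} (φ : K →* GL (Fin n) F) (hfin : Finite φ.range)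
    (i : Fin 6) (hi : 2 ≤ i) :
    ∃ U : Submodule F (Fin n → F), (∀ k, ∀ u ∈ U, (φ k : Matrix (Fin n) (Fin n) F) *ᵥ u = u) ∧
      n ≤ Module.finrank F U + 3 * ((φ (gen i) : Matrix (Fin n) (Fin n) F) - 1).rank := by
  have R := allRel φ
  fin_cases i
  · exact absurd hi (by decide)
  · exact absurd hi (by decide)
  · exact fix_all h2 φ hfin R.relC (Or.inl rfl) (Or.inl rfl)
  · exact fix_all h2 φ hfin R.relD (Or.inl rfl) (Or.inr rfl)
  · exact fix_all h2 φ hfin R.relE (Or.inr rfl) (Or.inl rfl)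
  · exact fix_all h2 φ hfin R.relF (Or.inr rfl) (Or.inr rfl)

theorem trivial_rank (h2 : (2 : F) ≠ 0) {n : ℕ} (φ : K →* GL (Fin n) F) (hfin : Finite φ.range)
    (i : Fin 6) (hi : 2 ≤ i) (hr : ((φ (gen i) : Matrix (Fin n) (Fin n) F) - 1).rank ≤ 2) :
    φ = 1 := by
  obtain ⟨U, hU, hn⟩ := fix_gen h2 φ hfin i hi
  refine quot_trivial h2 φ U hU ?_
  have h := Submodule.finrank_quotient_add_finrank U
  rw [Module.finrank_fintype_fun_eq_card, Fintype.card_fin] at h
  omega

/-- over commutative rings -/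
theorem trivial_one {R : Type*} [CommRing R] (h2 : IsUnit (2 : R)) {n : ℕ}
    (φ : K →* GL (Fin n) R) {U : Matrix (Fin n) (Fin 2) R} {U' : Matrix (Fin 2) (Fin n) R}
    (i : Fin 6) (hi : 2 ≤ i)
    (hC : (φ (gen i) : Matrix (Fin n) (Fin n) R) - 1 = U * U') : φ = 1 := by
  obtain ⟨y, hy⟩ := h2.exists_right_inv
  set T0 : Set R := {y} ∪ (Set.range (fun t : Fin n × Fin 2 => U t.1 t.2) ∪
    Set.range (fun t : Fin 2 × Fin n => U' t.1 t.2)) with hT0
  have hfin : T0.Finite := (Set.finite_singleton y).union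
    ((Set.finite_range _).union (Set.finite_range _))
  refine reduce φ T0 hfin ?_
  intro S hS ψ hψ I hI hfi
  have hy2 := two_ne_of hy (hS (Or.inl rfl)) hI
  let _ := Ideal.Quotient.field I
  have key : ∀ (g : K) (W : Matrix (Fin n) (Fin 2) R) (W' : Matrix (Fin 2) (Fin n) R),
      (∀ i j, W i j ∈ S) → (∀ i j, W' i j ∈ S) →
      (φ g : Matrix (Fin n) (Fin n) R) - 1 = W * W' →
      ((((GeneralLinearGroup.map (n := Fin n) (Ideal.Quotient.mk I)).comp ψ) g :
        GL (Fin n) (S ⧸ I)) - 1 : Matrix (Fin n) (Fin n) (S ⧸ I)).rank ≤ 2 := by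
    intro g W W' hW hW' hg
    let w : Matrix (Fin n) (Fin 2) S := fun i j => ⟨W i j, hW i j⟩
    let w' : Matrix (Fin 2) (Fin n) S := fun i j => ⟨W' i j, hW' i j⟩
    have e1 : (ψ g : Matrix (Fin n) (Fin n) S) - 1 = w * w' := by
      ext i j
      have h1 := congrArg (fun X : Matrix (Fin n) (Fin n) R => X i j) hg
      have h2 : ((φ g : GL (Fin n) R) : Matrix (Fin n) (Fin n) R) i j =
          (((ψ g : Matrix (Fin n) (Fin n) S) i j : S) : R) := by
        rw [← hψ]; rfl
      simp only [Matrix.sub_apply, h2, Matrix.mul_apply] at h1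
      rw [Matrix.sub_apply, Matrix.mul_apply, AddSubgroupClass.coe_sub,
        AddSubmonoidClass.coe_finsetSum]
      have h3 : (((1 : Matrix (Fin n) (Fin n) S) i j : S) : R) =
          (1 : Matrix (Fin n) (Fin n) R) i j := by
        rw [Matrix.one_apply, Matrix.one_apply]
        split_ifs <;> simp
      rw [h3, h1]
      rfl
    have e2 : ((((GeneralLinearGroup.map (n := Fin n) (Ideal.Quotient.mk I)).comp ψ) g :
        GL (Fin n) (S ⧸ I)) - 1 : Matrix (Fin n) (Fin n) (S ⧸ I)) =
        w.map (Ideal.Quotient.mk I) * w'.map (Ideal.Quotient.mk I) := by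
      rw [← Matrix.map_mul, ← e1]
      ext i j
      rw [Matrix.map_apply, Matrix.sub_apply, Matrix.sub_apply, map_sub]
      have h3 : Ideal.Quotient.mk I ((1 : Matrix (Fin n) (Fin n) S) i j) =
          (1 : Matrix (Fin n) (Fin n) (S ⧸ I)) i j := by
        rw [Matrix.one_apply, Matrix.one_apply]
        split_ifs <;> simp
      rw [h3]
      rfl
    rw [e2]
    exact le_trans (rank_mul_le_left _ _) (le_trans (rank_le_card_width _) (by simp))
  refine trivial_rank hy2 _ ?_ i hi ?_
  · have h1 : (Set.univ : Set (GL (Fin n) (S ⧸ I))).Finite := Set.toFinite _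
    exact (h1.subset (Set.subset_univ _)).to_subtype
  · exact key _ U U' (fun i j => hS (Or.inr (Or.inl ⟨(i, j), rfl⟩)))
      (fun i j => hS (Or.inr (Or.inr ⟨(i, j), rfl⟩))) hC

end Pool.Agent.Helper61.KP
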