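import Pool.Agent.Helper61.KP.LiftP

/-!
# Four-dimensional representations of the relations of `A, B, C`: the second type
-/

set_option autoImplicit false
set_option linter.unusedSectionVars false

open Matrix
open scoped MatrixGroups

namespace Pool.Agent.Helper61.KP

open Pool.Agent.Helper79.KF Pool.Agent.Helper61.KT

variable {F : Type*} [Field F]

section vec

variable {ι : Type*} [Fintype ι] [DecidableEq ι]

/-- apply an identity of products of matrices to a vector -/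
theorem app {X Y Z W : Matrix ι ι F} (h : X * Y = Z * W) (v : ι → F) :
    X *ᵥ (Y *ᵥ v) = Z *ᵥ (W *ᵥ v) := by rw [mulVec_mulVec, mulVec_mulVec, h]

theorem app3 {X Y Z W T : Matrix ι ι F} (h : X * Y = Z * (W * T)) (v : ι → F) :
    X *ᵥ (Y *ᵥ v) = Z *ᵥ (W *ᵥ (T *ᵥ v)) := by
  rw [mulVec_mulVec, mulVec_mulVec, mulVec_mulVec, h, mul_assoc]

theorem app1 {X Y Z : Matrix ι ι F} (h : X * Y = Z) (v : ι → F) :
    X *ᵥ (Y *ᵥ v) = Z *ᵥ v := by rw [mulVec_mulVec, h]

theorem app0 {X Y : Matrix ι ι F} (h : X * Y = 1) (v : ι → F) :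
    X *ᵥ (Y *ᵥ v) = v := by rw [mulVec_mulVec, h, one_mulVec]

end vec

variable {A A' B B' C P Q : Matrix (Fin 4) (Fin 4) F}

/-- the shape of `A` and `B` in a four-dimensional representation of the second type -/
theorem shape (h : RR A A' B B' C P Q) (h2 : (2 : F) ≠ 0) (hc : C ≠ 1)
    (hq : Q * X3 C P = X3 C P) (hp : P * X3 C Q = X3 C Q) :
    ∃ e : Fin 4 → (Fin 4 → F), (∀ x : Fin 4 → F,
        x 0 • e 0 + x 1 • e 1 + x 2 • e 2 + x 3 • e 3 = 0 → x = 0) ∧
      A *ᵥ e 0 = e 0 ∧ A *ᵥ e 1 = e 3 ∧ A *ᵥ e 3 = e 2 ∧ A *ᵥ e 2 = e 1 ∧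
      B *ᵥ e 0 = e 1 - e 2 ∧ B *ᵥ (e 1 - e 2) = e 1 + e 2 ∧ B *ᵥ (e 1 + e 2) = e 0 ∧
      B *ᵥ e 3 = e 3 := by
  have h4 := four_ne h2
  have hs := h.symm
  obtain ⟨v, hv⟩ : ∃ v : Fin 4 → F, X3 C P *ᵥ v ≠ 0 := by
    by_contra hcon
    push Not at hcon
    apply x3_ne h h2 hc
    apply Matrix.toLin'.injective
    refine LinearMap.ext fun v => ?_
    rw [toLin'_apply, hcon v, map_zero, LinearMap.zero_apply]
  set e3 : Fin 4 → F := X3 C P *ᵥ v with he3
  have c3 : C *ᵥ e3 = e3 := by rw [he3, mulVec_mulVec, c_x3 h]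
  have p3 : P *ᵥ e3 = -e3 := by rw [he3, mulVec_mulVec, p_x3 h, neg_mulVec]
  have q3 : Q *ᵥ e3 = e3 := by rw [he3, mulVec_mulVec, hq]
  set e2 : Fin 4 → F := A *ᵥ e3 with he2
  set e1 : Fin 4 → F := A' *ᵥ e3 with he1
  have a1 : A *ᵥ e1 = e3 := app0 h.aai e3
  have a2 : A *ᵥ e2 = e1 := app1 h.aa e3
  have c2 : C *ᵥ e2 = -e2 := by
    rw [he2, ← app h.ap e3, p3, mulVec_neg]
  have q2 : Q *ᵥ e2 = e1 := by rw [he2, app h.qa e3, q3]
  have q1 : Q *ᵥ e1 = e2 := by rw [he1, app h.qai e3, q3]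
  have p1 : P *ᵥ e1 = e1 := by rw [he1, ← app h.aic e3, c3]
  have c1 : C *ᵥ e1 = -e1 := by
    have k1 := app3 h.aip e3
    rw [p3, mulVec_neg, ← he1, p1] at k1
    exact k1.symm
  have p2 : P *ᵥ e2 = -e2 := by
    have k1 := app3 h.ac e3
    rw [c3, ← he2] at k1
    have k2 := congrArg (fun w => C *ᵥ w) k1
    rw [c2, app0 h.cc] at k2
    exact k2.symm
  -- the vectors `f1 = e1 + e2` and `f2 = e1 - e2`
  have cf1 : C *ᵥ (e1 + e2) = -(e1 + e2) := by rw [mulVec_add, c1, c2]; module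
  have cf2 : C *ᵥ (e1 - e2) = -(e1 - e2) := by rw [mulVec_sub, c1, c2]; module
  have qf1 : Q *ᵥ (e1 + e2) = e1 + e2 := by rw [mulVec_add, q1, q2]; module
  have pf1 : P *ᵥ (e1 + e2) = e1 - e2 := by rw [mulVec_add, p1, p2]; module
  set e0 : Fin 4 → F := B *ᵥ (e1 + e2) with he0
  have c0 : C *ᵥ e0 = e0 := by rw [he0, ← app h.bq, qf1]
  have q0 : Q *ᵥ e0 = -e0 := by
    have k1 := app3 h.bc (e1 + e2)
    rw [cf1, mulVec_neg, ← he0] at k1
    have k2 := congrArg (fun w => C *ᵥ w) k1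
    rw [mulVec_neg, c0, app0 h.cc] at k2
    exact k2.symm
  have p0 : P *ᵥ e0 = e0 := by
    have k1 : X3 C Q *ᵥ e0 = (4 : F) • e0 := by
      have : X3 C Q = (1 + C) * (1 - Q) := rfl
      rw [this, ← mulVec_mulVec, sub_mulVec, one_mulVec, q0, add_mulVec, one_mulVec, sub_neg_eq_add,
        mulVec_add, c0]
      module
    have k2 : (4 : F) • (P *ᵥ e0) = (4 : F) • e0 := by
      rw [← mulVec_smul, ← k1, mulVec_mulVec, hp]
    exact smul_right_injective _ h4 k2
  have b0 : B *ᵥ e0 = e1 - e2 := by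
    have k1 := app h.pb (e1 + e2)
    rw [← he0, p0, pf1] at k1
    rw [k1, app0 h.bbi]
  have bf2 : B *ᵥ (e1 - e2) = e1 + e2 := by
    rw [← b0, app1 h.bb, he0, app0 h.bib]
  -- independence
  have ind : ∀ x0 x1 x2 x3 : F, x0 • e0 + x1 • e1 + x2 • e2 + x3 • e3 = 0 →
      x0 = 0 ∧ x1 = 0 ∧ x2 = 0 ∧ x3 = 0 := by
    intro x0 x1 x2 x3 hx
    have hC : x0 • e0 - x1 • e1 - x2 • e2 + x3 • e3 = 0 := by
      have := congrArg (fun w => C *ᵥ w) hx
      simp only [mulVec_add, mulVec_smul, c0, c1, c2, c3, mulVec_zero] at this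
      rw [← this]; module
    have hP : x0 • e0 + x1 • e1 - x2 • e2 - x3 • e3 = 0 := by
      have := congrArg (fun w => P *ᵥ w) hx
      simp only [mulVec_add, mulVec_smul, p0, p1, p2, p3, mulVec_zero] at this
      rw [← this]; module
    have hCP : x0 • e0 - x1 • e1 + x2 • e2 - x3 • e3 = 0 := by
      have := congrArg (fun w => P *ᵥ w) hC
      simp only [mulVec_add, mulVec_sub, mulVec_smul, p0, p1, p2, p3, mulVec_zero] at this
      rw [← this]; module
    have n3 : e3 ≠ 0 := hv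
    have n2 : e2 ≠ 0 := by
      intro h0
      apply n3
      have := congrArg (fun w => A' *ᵥ w) h0
      simp only [he2, mulVec_zero] at this
      rw [app0 h.aia] at this
      exact this
    have n1 : e1 ≠ 0 := by
      intro h0
      apply n3
      rw [← a1, h0, mulVec_zero]
    have n0 : e0 ≠ 0 := by
      intro h0
      have k1 : e1 + e2 = 0 := by
        have := congrArg (fun w => B' *ᵥ w) h0
        simp only [he0, mulVec_zero] at this
        rw [app0 h.bib] at this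
        exact this
      have k2 : e1 - e2 = 0 := by rw [← pf1, k1, mulVec_zero]
      apply n1
      have k3 : (2 : F) • e1 = 0 := by
        have : (2 : F) • e1 = (e1 + e2) + (e1 - e2) := by module
        rw [this, k1, k2, add_zero]
      exact (smul_eq_zero.1 k3).resolve_left h2
    have g0 : (4 * x0) • e0 = 0 := by
      have : (4 * x0) • e0 = (x0 • e0 + x1 • e1 + x2 • e2 + x3 • e3) +
        (x0 • e0 - x1 • e1 - x2 • e2 + x3 • e3) + (x0 • e0 + x1 • e1 - x2 • e2 - x3 • e3) +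
        (x0 • e0 - x1 • e1 + x2 • e2 - x3 • e3) := by module
      rw [this, hx, hC, hP, hCP]; simp
    have g1 : (4 * x1) • e1 = 0 := by
      have : (4 * x1) • e1 = (x0 • e0 + x1 • e1 + x2 • e2 + x3 • e3) -
        (x0 • e0 - x1 • e1 - x2 • e2 + x3 • e3) + (x0 • e0 + x1 • e1 - x2 • e2 - x3 • e3) -
        (x0 • e0 - x1 • e1 + x2 • e2 - x3 • e3) := by module
      rw [this, hx, hC, hP, hCP]; simp
    have g2 : (4 * x2) • e2 = 0 := by
      have : (4 * x2) • e2 = (x0 • e0 + x1 • e1 + x2 • e2 + x3 • e3) -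
        (x0 • e0 - x1 • e1 - x2 • e2 + x3 • e3) - (x0 • e0 + x1 • e1 - x2 • e2 - x3 • e3) +
        (x0 • e0 - x1 • e1 + x2 • e2 - x3 • e3) := by module
      rw [this, hx, hC, hP, hCP]; simp
    have g3 : (4 * x3) • e3 = 0 := by
      have : (4 * x3) • e3 = (x0 • e0 + x1 • e1 + x2 • e2 + x3 • e3) +
        (x0 • e0 - x1 • e1 - x2 • e2 + x3 • e3) - (x0 • e0 + x1 • e1 - x2 • e2 - x3 • e3) -
        (x0 • e0 - x1 • e1 + x2 • e2 - x3 • e3) := by module
      rw [this, hx, hC, hP, hCP]; simp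
    refine ⟨?_, ?_, ?_, ?_⟩
    · exact (mul_eq_zero.1 ((smul_eq_zero.1 g0).resolve_right n0)).resolve_left h4
    · exact (mul_eq_zero.1 ((smul_eq_zero.1 g1).resolve_right n1)).resolve_left h4
    · exact (mul_eq_zero.1 ((smul_eq_zero.1 g2).resolve_right n2)).resolve_left h4
    · exact (mul_eq_zero.1 ((smul_eq_zero.1 g3).resolve_right n3)).resolve_left h4
  have n3 : e3 ≠ 0 := hv
  have n0 : e0 ≠ 0 := by
    intro h0
    have := ind 1 0 0 0 (by rw [h0]; simp)
    exact one_ne_zero this.1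
  -- every vector is a combination
  have span : ∀ w : Fin 4 → F, ∃ x0 x1 x2 x3 : F, w = x0 • e0 + x1 • e1 + x2 • e2 + x3 • e3 := by
    have hli : LinearIndependent F ![e0, e1, e2, e3] := by
      rw [Fintype.linearIndependent_iff]
      intro g hg
      rw [Fin.sum_univ_four] at hg
      obtain ⟨k0, k1, k2, k3⟩ := ind (g 0) (g 1) (g 2) (g 3) hg
      intro i
      fin_cases i
      · exact k0
      · exact k1
      · exact k2
      · exact k3
    have htop := hli.span_eq_top_of_card_eq_finrank (by simp)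
    intro w
    have hw : w ∈ Submodule.span F (Set.range ![e0, e1, e2, e3]) := by rw [htop]; trivial
    rw [Submodule.mem_span_range_iff_exists_fun] at hw
    obtain ⟨g, hg⟩ := hw
    rw [Fin.sum_univ_four] at hg
    exact ⟨g 0, g 1, g 2, g 3, hg.symm⟩
  -- `A` fixes `e0`
  have a0 : A *ᵥ e0 = e0 := by
    obtain ⟨x0, x1, x2, x3, hx⟩ := span (A *ᵥ e0)
    have kC : C *ᵥ (A *ᵥ e0) = A *ᵥ e0 := by rw [← app h.ap, p0]
    have kP : P *ᵥ (A *ᵥ e0) = A *ᵥ e0 := by
      have k1 := app3 h.ac e0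
      rw [c0] at k1
      have k2 := congrArg (fun w => C *ᵥ w) k1
      rw [kC, app0 h.cc] at k2
      exact k2.symm
    have m1 : (0 : F) • e0 + (2 * x1) • e1 + (2 * x2) • e2 + (0 : F) • e3 = 0 := by
      have k1 := kC
      rw [hx] at k1
      simp only [mulVec_add, mulVec_smul, c0, c1, c2, c3] at k1
      have k2 := sub_eq_zero.2 k1.symm
      rw [← k2]; module
    have m2 : (0 : F) • e0 + (0 : F) • e1 + (2 * x2) • e2 + (2 * x3) • e3 = 0 := by
      have k1 := kP
      rw [hx] at k1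
      simp only [mulVec_add, mulVec_smul, p0, p1, p2, p3] at k1
      have k2 := sub_eq_zero.2 k1.symm
      rw [← k2]; module
    obtain ⟨-, z1, z2, -⟩ := ind _ _ _ _ m1
    obtain ⟨-, -, -, z3⟩ := ind _ _ _ _ m2
    have z1' := (mul_eq_zero.1 z1).resolve_left h2
    have z2' := (mul_eq_zero.1 z2).resolve_left h2
    have z3' := (mul_eq_zero.1 z3).resolve_left h2
    have hx' : A *ᵥ e0 = x0 • e0 := by rw [hx, z1', z2', z3']; simp
    have ai : A' *ᵥ e0 = x0 • e0 := by
      have k1 := app h.qa e0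
      rw [hx', q0, mulVec_smul, q0, mulVec_neg, smul_neg] at k1
      exact (neg_injective k1).symm
    have k1 : x0 ^ 2 • e0 = e0 := by
      have := app0 h.aai e0
      rw [ai, mulVec_smul, hx', smul_smul, ← pow_two] at this
      exact this
    have k2 : x0 ^ 2 • e0 = x0 • e0 := by
      have := app1 h.aa e0
      rw [hx', mulVec_smul, hx', smul_smul, ← pow_two, ai] at this
      exact this
    rw [hx', ← k2, k1]
  have b3 : B *ᵥ e3 = e3 := by
    obtain ⟨x0, x1, x2, x3, hx⟩ := span (B *ᵥ e3)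
    have kC : C *ᵥ (B *ᵥ e3) = B *ᵥ e3 := by rw [← app h.bq, q3]
    have kQ : Q *ᵥ (B *ᵥ e3) = B *ᵥ e3 := by
      have k1 := app3 h.bc e3
      rw [c3] at k1
      have k2 := congrArg (fun w => C *ᵥ w) k1
      rw [kC, app0 h.cc] at k2
      exact k2.symm
    have m1 : (0 : F) • e0 + (2 * x1) • e1 + (2 * x2) • e2 + (0 : F) • e3 = 0 := by
      have k1 := kC
      rw [hx] at k1
      simp only [mulVec_add, mulVec_smul, c0, c1, c2, c3] at k1
      have k2 := sub_eq_zero.2 k1.symm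
      rw [← k2]; module
    obtain ⟨-, z1, z2, -⟩ := ind _ _ _ _ m1
    have z1' := (mul_eq_zero.1 z1).resolve_left h2
    have z2' := (mul_eq_zero.1 z2).resolve_left h2
    have m2 : (2 * x0) • e0 + (0 : F) • e1 + (0 : F) • e2 + (0 : F) • e3 = 0 := by
      have k1 := kQ
      rw [hx, z1', z2'] at k1
      simp only [mulVec_add, mulVec_smul, q0, q3, zero_smul, mulVec_zero] at k1
      have k2 := sub_eq_zero.2 k1.symm
      rw [← k2]; module
    obtain ⟨z0, -, -, -⟩ := ind _ _ _ _ m2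
    have z0' := (mul_eq_zero.1 z0).resolve_left h2
    have hx' : B *ᵥ e3 = x3 • e3 := by rw [hx, z1', z2', z0']; simp
    have bi : B' *ᵥ e3 = x3 • e3 := by
      have k1 := app h.pb e3
      rw [hx', p3, mulVec_smul, p3, mulVec_neg, smul_neg] at k1
      exact (neg_injective k1).symm
    have k1 : x3 ^ 2 • e3 = e3 := by
      have := app0 h.bbi e3
      rw [bi, mulVec_smul, hx', smul_smul, ← pow_two] at this
      exact this
    have k2 : x3 ^ 2 • e3 = x3 • e3 := by
      have := app1 h.bb e3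
      rw [hx', mulVec_smul, hx', smul_smul, ← pow_two, bi] at this
      exact this
    rw [hx', ← k2, k1]
  refine ⟨![e0, e1, e2, e3], ?_, a0, a1, rfl, a2, b0, bf2, rfl, b3⟩
  intro x hx
  obtain ⟨k0, k1, k2, k3⟩ := ind (x 0) (x 1) (x 2) (x 3) hx
  ext i
  fin_cases i
  · exact k0
  · exact k1
  · exact k2
  · exact k3

end Pool.Agent.Helper61.KP
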