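import Pool.Agent.Helper61.KP.Norm
import Pool.Agent.Helper61.KT.Fin

/-!
# Linear lifts of projective representations of `K`
-/

set_option autoImplicit false
set_option linter.unusedSectionVars false

open Matrix
open scoped MatrixGroups

namespace Pool.Agent.Helper61.KP

open Pool.Agent.Helper79.KF Pool.Agent.Helper61.KT

/-- a homomorphism `φ : G → P` into the image of `H` lifts along `π`, up to a homomorphism `L`
that kills the kernel of `π` on `H` -/
theorem exists_lift {M P Q G : Type*} [Group M] [Group P] [Group Q] [Group G] (π : M →* P)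
    (L : M →* Q) (H : Subgroup M) (φ : G →* P) (hφ : φ.range ≤ H.map π)
    (hk : ∀ m ∈ H, π m = 1 → L m = 1) :
    ∃ ψ : G →* Q, ∀ k : G, ∀ m ∈ H, π m = φ k → ψ k = L m := by
  have h1 : ∀ k : G, ∃ m, m ∈ H ∧ π m = φ k := by
    intro k
    obtain ⟨m, hm, hmk⟩ := hφ ⟨k, rfl⟩
    exact ⟨m, hm, hmk⟩
  choose s hs hsk using h1
  have key : ∀ m ∈ H, ∀ m' ∈ H, π m = π m' → L m = L m' := by
    intro m hm m' hm' h
    have h2 := hk (m⁻¹ * m') (H.mul_mem (H.inv_mem hm) hm') (by
      rw [map_mul, map_inv, h, inv_mul_cancel])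
    rw [map_mul, map_inv] at h2
    exact inv_mul_eq_one.1 h2
  refine ⟨MonoidHom.mk' (fun k => L (s k)) ?_, ?_⟩
  · intro k l
    rw [← map_mul]
    apply key _ (hs _) _ (H.mul_mem (hs _) (hs _))
    rw [hsk, map_mul, map_mul, hsk, hsk]
  · intro k m hm h
    exact key _ (hs _) _ hm ((hsk k).trans h.symm)

variable {F : Type*} [Field F] {ι : Type*} [Fintype ι] [DecidableEq ι]

theorem fix_trivial' (h2 : (2 : F) ≠ 0) (φ : K →* GL ι F) (Z : Matrix ι ι F)
    (hfix : ∀ k, (φ k : Matrix ι ι F) * Z = Z ∧ Z * (φ k : Matrix ι ι F) = Z)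
    (hr : ((4 : F) • 1 - Z).rank ≤ 3) : φ = 1 := by
  have h4 := four_ne h2
  set E : Matrix ι ι F := 1 - (4 : F)⁻¹ • Z with hE
  have hcomm : ∀ k, (φ k : Matrix ι ι F) * E = E * (φ k : Matrix ι ι F) := by
    intro k
    rw [hE, mul_sub, sub_mul, mul_one, one_mul, mul_smul_comm, smul_mul_assoc, (hfix k).1,
      (hfix k).2]
  have hrE : Module.finrank F (LinearMap.range E.mulVecLin) ≤ 3 := by
    have : E.rank ≤ ((4 : F) • (1 : Matrix ι ι F) - Z).rank := by
      refine rank_conj_le (S := (4 : F)⁻¹ • 1) (T := 1) ?_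
      rw [mul_one, smul_mul_assoc, one_mul, smul_sub, smul_smul, inv_mul_cancel₀ h4, one_smul]
    exact le_trans this hr
  have hmap : ∀ k, ∀ x ∈ LinearMap.range E.mulVecLin,
      (φ k : Matrix ι ι F).mulVecLin x ∈ LinearMap.range E.mulVecLin := by
    rintro k _ ⟨v, rfl⟩
    refine ⟨(φ k : Matrix ι ι F) *ᵥ v, ?_⟩
    rw [mulVecLin_apply, mulVecLin_apply, mulVecLin_apply, mulVec_mulVec, mulVec_mulVec, hcomm]
  let ρ : K →* Module.End F (LinearMap.range E.mulVecLin) :=
    { toFun := fun k => ((φ k : Matrix ι ι F).mulVecLin).restrict (hmap k)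
      map_one' := by
        ext x
        simp
      map_mul' := by
        intro k l
        ext x
        simp [mulVec_mulVec] }
  have hρ := trivial_end hrE ρ
  refine MonoidHom.ext fun k => Units.ext ?_
  have h1 : (φ k : Matrix ι ι F) * E = E := by
    apply Matrix.toLin'.injective
    refine LinearMap.ext fun v => ?_
    have h3 := DFunLike.congr_fun hρ k
    have h4 := congrArg (fun T : Module.End F (LinearMap.range E.mulVecLin) =>
      ((T ⟨E.mulVecLin v, ⟨v, rfl⟩⟩ : LinearMap.range E.mulVecLin) : ι → F)) h3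
    have h5 : (φ k : Matrix ι ι F).mulVecLin (E.mulVecLin v) = E.mulVecLin v := h4
    rw [mulVecLin_apply, mulVecLin_apply, mulVec_mulVec] at h5
    rw [toLin'_apply, toLin'_apply, h5]
  have h5 : (1 : Matrix ι ι F) = E + (4 : F)⁻¹ • Z := by rw [hE, sub_add_cancel]
  calc (φ k : Matrix ι ι F) = (φ k : Matrix ι ι F) * (E + (4 : F)⁻¹ • Z) := by
        rw [← h5, mul_one]
    _ = E + (4 : F)⁻¹ • Z := by rw [mul_add, h1, mul_smul_comm, (hfix k).1]
    _ = ((1 : K →* GL ι F) k : Matrix ι ι F) := by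
        rw [← h5, MonoidHom.one_apply, Units.val_one]

/-- the first type: a common fixed vector -/
def TypeOne (a b : GL ι F) : Prop :=
  ∃ Z : Matrix ι ι F, (a : Matrix ι ι F) * Z = Z ∧ (b : Matrix ι ι F) * Z = Z ∧
      Z * (a : Matrix ι ι F) = Z ∧ Z * (b : Matrix ι ι F) = Z ∧
      ((4 : F) • 1 - Z).rank ≤ 3

/-- the subgroup fixing `Z` on both sides -/
def fixer (Z : Matrix ι ι F) : Subgroup (GL ι F) where
  carrier := {g | (g : Matrix ι ι F) * Z = Z ∧ Z * (g : Matrix ι ι F) = Z}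
  one_mem' := by simp
  mul_mem' := by
    rintro x y ⟨x1, x2⟩ ⟨y1, y2⟩
    refine ⟨?_, ?_⟩
    · rw [Units.val_mul, mul_assoc, y1, x1]
    · rw [Units.val_mul, ← mul_assoc, x2, y2]
  inv_mem' := by
    rintro x ⟨x1, x2⟩
    refine ⟨?_, ?_⟩
    · calc ((x⁻¹ : GL ι F) : Matrix ι ι F) * Z =
          ((x⁻¹ : GL ι F) : Matrix ι ι F) * ((x : Matrix ι ι F) * Z) := by rw [x1]
        _ = Z := by rw [← mul_assoc, ← Units.val_mul, inv_mul_cancel, Units.val_one, one_mul]
    · calc Z * ((x⁻¹ : GL ι F) : Matrix ι ι F) =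
          Z * (x : Matrix ι ι F) * ((x⁻¹ : GL ι F) : Matrix ι ι F) := by rw [x2]
        _ = Z := by rw [mul_assoc, ← Units.val_mul, mul_inv_cancel, Units.val_one, mul_one]

variable {n : ℕ}

theorem type_one (h2 : (2 : F) ≠ 0) (L : GL (Fin n) F →* GL ι F)
    (hL : ∀ g, ProjGenLinGroup.mk g = 1 → ∃ s : F, (L g : Matrix ι ι F) = s • 1)
    (hι : 3 < Fintype.card ι) (φ : K →* PGL(n, F)) {a b : GL (Fin n) F}
    (hgen : φ.range ≤ (Subgroup.closure {a, b}).map ProjGenLinGroup.mk)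
    (ha : ProjGenLinGroup.mk a = φ (gen 0)) (hT : TypeOne (L a) (L b)) : L a = 1 := by
  obtain ⟨Z, z1, z2, z3, z4, hr⟩ := hT
  have hZ0 : Z ≠ 0 := by
    rintro rfl
    have h4 := four_ne h2
    rw [sub_zero] at hr
    have h1 : (1 : Matrix ι ι F).rank ≤ ((4 : F) • (1 : Matrix ι ι F)).rank := by
      refine rank_conj_le (S := (4 : F)⁻¹ • 1) (T := 1) ?_
      rw [mul_one, smul_mul_assoc, one_mul, smul_smul, inv_mul_cancel₀ h4, one_smul]
    rw [rank_one] at h1
    omega
  have hle : Subgroup.closure {a, b} ≤ (fixer Z).comap L := by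
    rw [Subgroup.closure_le]
    rintro y (rfl | hy)
    · exact ⟨z1, z3⟩
    · obtain rfl : y = b := hy
      exact ⟨z2, z4⟩
  obtain ⟨ψ, hψ⟩ := exists_lift ProjGenLinGroup.mk L (Subgroup.closure {a, b}) φ hgen (by
    intro m hm hm1
    obtain ⟨s, hs⟩ := hL m hm1
    obtain ⟨h1, -⟩ := hle hm
    rw [hs, smul_mul_assoc, one_mul] at h1
    have h3 : (s - 1) • Z = 0 := by rw [sub_smul, h1, one_smul, sub_self]
    have h4 := (smul_eq_zero.1 h3).resolve_right hZ0
    apply Units.ext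
    rw [hs, sub_eq_zero.1 h4, one_smul, Units.val_one])
  have h1 : ψ = 1 := by
    refine fix_trivial' h2 ψ Z ?_ hr
    intro k
    obtain ⟨m, hm, hmk⟩ := hgen ⟨k, rfl⟩
    rw [hψ k m hm hmk]
    exact hle hm
  have h3 := hψ (gen 0) a (Subgroup.subset_closure (by simp)) ha
  rw [← h3, h1, MonoidHom.one_apply]

/-- the image of `K` when it is finite -/
theorem gen_of_finite {P : Type*} [Group P] (φ : K →* P) (hfin : Finite φ.range) :
    φ.range ≤ Subgroup.closure {φ (gen 0), φ (gen 1)} := by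
  have h := generated φ.rangeRestrict
  rintro _ ⟨k, rfl⟩
  have h1 : φ.rangeRestrict k ∈ Subgroup.closure {φ.rangeRestrict (gen 0), φ.rangeRestrict (gen 1)} := by
    rw [← h]; exact ⟨k, rfl⟩
  have h3 := Subgroup.mem_map_of_mem φ.range.subtype h1
  rw [MonoidHom.map_closure] at h3
  refine Subgroup.closure_mono ?_ h3
  rintro _ ⟨y, hy, rfl⟩
  rcases hy with rfl | hy
  · left; rfl
  · right
    obtain rfl : y = _ := hy
    rfl

theorem gen_map {φ : K →* PGL(n, F)} (hfin : Finite φ.range) {a b : GL (Fin n) F}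
    (ha : ProjGenLinGroup.mk a = φ (gen 0))
    (hb : ProjGenLinGroup.mk b = φ (gen 1) ∨ ProjGenLinGroup.mk b = (φ (gen 1))⁻¹) :
    φ.range ≤ (Subgroup.closure {a, b}).map ProjGenLinGroup.mk := by
  refine le_trans (gen_of_finite φ hfin) ?_
  rw [Subgroup.closure_le]
  have h1 : φ (gen 0) ∈ (Subgroup.closure {a, b}).map ProjGenLinGroup.mk :=
    ⟨a, Subgroup.subset_closure (by simp), ha⟩
  have h2 : φ (gen 1) ∈ (Subgroup.closure {a, b}).map ProjGenLinGroup.mk := by
    rcases hb with hb | hb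
    · exact ⟨b, Subgroup.subset_closure (by simp), hb⟩
    · refine ⟨b⁻¹, Subgroup.inv_mem _ (Subgroup.subset_closure (by simp)), ?_⟩
      rw [map_inv, hb, inv_inv]
  rintro y (rfl | hy)
  · exact h1
  · obtain rfl : y = φ (gen 1) := hy
    exact h2

end Pool.Agent.Helper61.KP
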