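import Pool.Agent.Helper61.KT.Sfour

/-!
# Normalised lifts of the relations of `A, B, C` from `PGLₙ` to `GLₙ`
-/

set_option autoImplicit false

open Matrix
open scoped MatrixGroups

namespace Pool.Agent.Helper61.KP

open Pool.Agent.Helper79.KF Pool.Agent.Helper61.KT

variable {F : Type*} [Field F] {n : ℕ}

theorem val_smul (u : Fˣ) (g : GL (Fin n) F) : ((u • g : GL (Fin n) F) : Matrix (Fin n) (Fin n) F) =
    (u : F) • (g : Matrix (Fin n) (Fin n) F) := rfl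

instance towerGL : IsScalarTower Fˣ (GL (Fin n) F) (GL (Fin n) F) :=
  ⟨fun u x y => Units.ext (smul_mul_assoc (u : F) (x : Matrix (Fin n) (Fin n) F)
    (y : Matrix (Fin n) (Fin n) F))⟩

instance commGL : SMulCommClass Fˣ (GL (Fin n) F) (GL (Fin n) F) :=
  ⟨fun u x y => Units.ext (mul_smul_comm (u : F) (x : Matrix (Fin n) (Fin n) F)
    (y : Matrix (Fin n) (Fin n) F)).symm⟩

theorem smul_eq_mul_scalar (u : Fˣ) (g : GL (Fin n) F) :
    u • g = g * Matrix.GeneralLinearGroup.scalar (Fin n) u := by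
  apply Units.ext
  rw [val_smul, Units.val_mul, Matrix.GeneralLinearGroup.coe_scalar]
  ext i j
  simp [mul_comm]

theorem mk_smul (u : Fˣ) (g : GL (Fin n) F) :
    ProjGenLinGroup.mk (u • g) = ProjGenLinGroup.mk g := by
  rw [smul_eq_mul_scalar, map_mul, ProjGenLinGroup.mk_scalar, mul_one]

theorem mk_eq_iff {g k : GL (Fin n) F} :
    ProjGenLinGroup.mk g = ProjGenLinGroup.mk k ↔ ∃ u : Fˣ, u • g = k := by
  rw [ProjGenLinGroup.mk_eq_mk_iff]
  simp only [smul_eq_mul_scalar]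

theorem mk_one_iff {g : GL (Fin n) F} (h : ProjGenLinGroup.mk g = 1) :
    ∃ u : Fˣ, g = u • (1 : GL (Fin n) F) := by
  rw [← ProjGenLinGroup.mk_one, eq_comm, mk_eq_iff] at h
  obtain ⟨u, hu⟩ := h
  exact ⟨u, hu.symm⟩

theorem smul_eq_self [NeZero n] {u : Fˣ} {g : GL (Fin n) F} (h : u • g = g) : u = 1 := by
  have h1 : u • (1 : GL (Fin n) F) = 1 := by
    have := congrArg (fun k => k * g⁻¹) h
    simp only [smul_mul_assoc, mul_inv_cancel] at this
    exact this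
  have h2 := congrArg (fun k : GL (Fin n) F => (k : Matrix (Fin n) (Fin n) F) 0 0) h1
  simp only [val_smul, Units.val_one, Matrix.smul_apply, Matrix.one_apply_eq, smul_eq_mul,
    mul_one] at h2
  exact Units.ext h2

theorem smul_inj [NeZero n] {u v : Fˣ} {g : GL (Fin n) F} (h : u • g = v • g) : u = v := by
  have h1 : (v⁻¹ * u) • g = g := by rw [mul_smul, h, smul_smul, inv_mul_cancel, one_smul]
  have h2 := smul_eq_self h1
  exact (inv_mul_eq_one.1 h2).symm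

/-- the normalised relations in `GLₙ`; `ε = ± 1` -/
structure PRel (ε : Fˣ) (a b c : GL (Fin n) F) : Prop where
  e2 : ε ^ 2 = 1
  a3 : a ^ 3 = 1
  b3 : b ^ 3 = 1
  c2 : c ^ 2 = ε • (1 : GL (Fin n) F)
  ac : (a * c) ^ 3 = 1
  bc : (b * c) ^ 3 = ε • (1 : GL (Fin n) F)
  h1 : (a * b * a⁻¹ * c) ^ 2 = ε • (1 : GL (Fin n) F)
  h2 : (b * a * b⁻¹ * c) ^ 2 = ε • (1 : GL (Fin n) F)

theorem exists_root [IsAlgClosed F] (μ : Fˣ) {m : ℕ} (hm : 0 < m) : ∃ u : Fˣ, u ^ m * μ = 1 := by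
  obtain ⟨z, hz⟩ := IsAlgClosed.exists_pow_nat_eq ((μ⁻¹ : Fˣ) : F) hm
  have hz0 : z ≠ 0 := by
    rintro rfl
    rw [zero_pow hm.ne'] at hz
    exact (μ⁻¹).ne_zero hz.symm
  refine ⟨Units.mk0 z hz0, ?_⟩
  apply Units.ext
  rw [Units.val_mul, Units.val_pow_eq_pow_val, Units.val_mk0, hz, Units.val_one,
    ← Units.val_mul, inv_mul_cancel, Units.val_one]

/-- a lift of an element of order `m` -/
theorem lift_pow [IsAlgClosed F] {c : GL (Fin n) F} {m : ℕ} (hm : 0 < m)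
    (h : ProjGenLinGroup.mk c ^ m = 1) : ∃ u : Fˣ, (u • c) ^ m = 1 := by
  rw [← map_pow] at h
  obtain ⟨μ, hμ⟩ := mk_one_iff h
  obtain ⟨u, hu⟩ := exists_root μ hm
  exact ⟨u, by rw [smul_pow, hμ, smul_smul, hu, one_smul]⟩

variable [NeZero n]

theorem scal3 {g c : GL (Fin n) F} {τ : Fˣ} (g3 : g ^ 3 = 1) (c2 : c ^ 2 = 1)
    (h : (g * c) ^ 2 = τ • (1 : GL (Fin n) F)) : τ ^ 3 = 1 := by
  have hci : c⁻¹ = c := inv_of_sq c2
  have e1 : c * g * c⁻¹ = τ • g⁻¹ := by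
    have : c * g * c⁻¹ = g⁻¹ * (g * c) ^ 2 * (c⁻¹ * c⁻¹) := by rw [pow_two]; group
    rw [this, h, hci, ← pow_two, c2, mul_one, mul_smul_comm, mul_one]
  have e2 : c * g ^ 3 * c⁻¹ = (c * g * c⁻¹) ^ 3 := by rw [pow_three, pow_three]; group
  rw [e1, smul_pow, inv_pow, g3, inv_one, mul_one, mul_inv_cancel] at e2
  exact smul_eq_self e2.symm

section prod

variable {a c : GL (Fin n) F} {ν : Fˣ}

omit [NeZero n] in
theorem cac' (c2 : c ^ 2 = 1) (hν : (a * c) ^ 3 = ν • (1 : GL (Fin n) F)) :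
    c * a * c = ν • (a⁻¹ * c * a⁻¹) := by
  have hci : c⁻¹ = c := inv_of_sq c2
  have e : c * a * c = a⁻¹ * (a * c) ^ 3 * c⁻¹ * a⁻¹ := by rw [pow_three]; group
  rw [e, hν, mul_smul_comm, smul_mul_assoc, smul_mul_assoc, mul_one, hci]

omit [NeZero n] in
theorem pc' (a3 : a ^ 3 = 1) (c2 : c ^ 2 = 1) (hν : (a * c) ^ 3 = ν • (1 : GL (Fin n) F)) :
    a⁻¹ * c * a * c = ν • (a * c * a⁻¹) := by
  have haa : a * a = a⁻¹ := inv_three a3
  have e : a⁻¹ * c * a * c = a⁻¹ * (c * a * c) := by group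
  have e2 : a⁻¹ * (a⁻¹ * c * a⁻¹) = (a * a)⁻¹ * c * a⁻¹ := by group
  rw [e, cac' c2 hν, mul_smul_comm, e2, haa, inv_inv]

omit [NeZero n] in
theorem pcp' (a3 : a ^ 3 = 1) (c2 : c ^ 2 = 1) (hν : (a * c) ^ 3 = ν • (1 : GL (Fin n) F)) :
    a⁻¹ * c * a * c * (a⁻¹ * c * a) = (ν * ν) • c := by
  have haa : a * a = a⁻¹ := inv_three a3
  have e3 : a * c * a⁻¹ * (a⁻¹ * c * a) = a * (c * (a * a)⁻¹ * c) * a := by group
  have e4 : a * (c * a * c) * a = a * (c * a * c) * a := rfl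
  rw [pc' a3 c2 hν, smul_mul_assoc, e3, haa, inv_inv, cac' c2 hν, mul_smul_comm, smul_mul_assoc,
    smul_smul]
  congr 1; group

theorem nu4 (a3 : a ^ 3 = 1) (c2 : c ^ 2 = 1) (hν : (a * c) ^ 3 = ν • (1 : GL (Fin n) F)) :
    ν ^ 4 = 1 := by
  have hcc : c * c = 1 := by rw [← pow_two, c2]
  have pcp := pcp' a3 c2 hν
  set p : GL (Fin n) F := a⁻¹ * c * a with hp
  have pp : p * p = 1 := conj_sq hcc
  have h4 : (ν * ν * (ν * ν)) • c = c := by
    have e : c = p * (p * c * p) * p := by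
      have : p * (p * c * p) * p = (p * p) * c * (p * p) := by group
      rw [this, pp]; group
    have e2 : p * (p * c * p) * p = (ν * ν * (ν * ν)) • c := by
      rw [pcp, mul_smul_comm, smul_mul_assoc, pcp, smul_smul]
    rw [← e2]; exact e.symm
  have h5 := smul_eq_self h4
  rw [← h5]
  apply Units.ext
  simp only [Units.val_pow_eq_pow_val, Units.val_mul]
  ring

end prod

theorem nunu {a b c : GL (Fin n) F} {ν ν' : Fˣ} (a3 : a ^ 3 = 1) (b3 : b ^ 3 = 1) (c2 : c ^ 2 = 1)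
    (hν : (a * c) ^ 3 = ν • (1 : GL (Fin n) F)) (hν' : (b * c) ^ 3 = ν' • (1 : GL (Fin n) F))
    (h1 : (a * b * a⁻¹ * c) ^ 2 = 1) (h2 : (b * a * b⁻¹ * c) ^ 2 = 1) : ν' = ν ^ 3 := by
  have hcc : c * c = 1 := by rw [← pow_two, c2]
  have hci : c⁻¹ = c := inv_of_sq c2
  have kp := pc' a3 c2 hν
  have kq := pc' b3 c2 hν'
  have kp2 := pcp' a3 c2 hν
  have kq2 := pcp' b3 c2 hν'
  have paq : b⁻¹ * c * b * a * (b⁻¹ * c * b) = a⁻¹ := by
    have e : b⁻¹ * c * b * a * (b⁻¹ * c * b) =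
        a⁻¹ * (b⁻¹ * (b * a * b⁻¹ * c) ^ 2 * b) := by rw [pow_two]; group
    rw [e, h2]; group
  have pbp : a⁻¹ * c * a * b * (a⁻¹ * c * a) = b⁻¹ := by
    have e : a⁻¹ * c * a * b * (a⁻¹ * c * a) =
        b⁻¹ * (a⁻¹ * (a * b * a⁻¹ * c) ^ 2 * a) := by rw [pow_two]; group
    rw [e, h1]; group
  have hp : a⁻¹ * c * a * (a⁻¹ * c * a) = 1 := conj_sq hcc
  have hq : b⁻¹ * c * b * (b⁻¹ * c * b) = 1 := conj_sq hcc
  set p : GL (Fin n) F := a⁻¹ * c * a with hpd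
  set q : GL (Fin n) F := b⁻¹ * c * b with hqd
  have hpi : p⁻¹ = p := inv_eq_of_mul_eq_one_right hp
  have hqi : q⁻¹ = q := inv_eq_of_mul_eq_one_right hq
  have qcq : q * c * q = (ν' * ν') • c := kq2
  -- first computation of `(pq)²`
  have f1 : p * q * (p * q) = (ν' * ν' * ν⁻¹) • c := by
    have e1 : q * p * q = (q * a * q)⁻¹ * (q * c * q) * (q * a * q) := by
      have : (q * a * q)⁻¹ * (q * c * q) * (q * a * q) =
          q⁻¹ * a⁻¹ * (q⁻¹ * q) * c * (q * q) * a * q := by group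
      rw [this, inv_mul_cancel, hq, mul_one, mul_one, hqi, hpd]; group
    have e2 : q * p * q = (ν' * ν') • (a * c * a⁻¹) := by
      rw [e1, paq, qcq, inv_inv, mul_smul_comm, smul_mul_assoc]
    have e3 : a * c * a⁻¹ = ν⁻¹ • (p * c) := by
      rw [kp, smul_smul, inv_mul_cancel, one_smul]
    have e4 : p * q * (p * q) = p * (q * p * q) := by group
    rw [e4, e2, e3, mul_smul_comm, mul_smul_comm, ← mul_assoc, hp, one_mul, smul_smul]
  have f2 : p * q * (p * q) = (ν * ν * ν') • c := by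
    have e1 : p * q * p = (p * b * p)⁻¹ * (p * c * p) * (p * b * p) := by
      have : (p * b * p)⁻¹ * (p * c * p) * (p * b * p) =
          p⁻¹ * b⁻¹ * (p⁻¹ * p) * c * (p * p) * b * p := by group
      rw [this, inv_mul_cancel, hp, mul_one, mul_one, hpi, hqd]; group
    have e2 : p * q * p = (ν * ν) • (b * c * b⁻¹) := by
      rw [e1, pbp, kp2, inv_inv, mul_smul_comm, smul_mul_assoc]
    have e3 : b * c * b⁻¹ = ν'⁻¹ • (q * c) := by
      rw [kq, smul_smul, inv_mul_cancel, one_smul]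
    have e4 : p * q * (p * q) = p * q * p * q := by group
    have e5 : ν * ν * ν'⁻¹ * (ν' * ν') = ν * ν * ν' := by
      apply Units.ext
      simp only [Units.val_mul, Units.val_inv_eq_inv_val]
      have : (ν' : F) ≠ 0 := ν'.ne_zero
      field_simp
    rw [e4, e2, e3, smul_mul_assoc, smul_mul_assoc, qcq, smul_smul, smul_smul, e5]
  have f3 := smul_inj (f1.symm.trans f2)
  have hn0 : (ν : F) ≠ 0 := ν.ne_zero
  have hn1 : (ν' : F) ≠ 0 := ν'.ne_zero
  apply Units.ext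
  have f4 := congrArg (fun z : Fˣ => (z : F)) f3
  simp only [Units.val_mul, Units.val_inv_eq_inv_val] at f4
  field_simp at f4
  rw [Units.val_pow_eq_pow_val]
  linear_combination f4

/-- normalised lifts -/
theorem lift_rel' [IsAlgClosed F] {α β x : PGL(n, F)} (h : Rel α β x) :
    ∃ (ε : Fˣ) (a b c : GL (Fin n) F),
      ProjGenLinGroup.mk a = α ∧ ProjGenLinGroup.mk b = β ∧ ProjGenLinGroup.mk c = x ∧
        PRel ε a b c := by
  obtain ⟨a, rfl⟩ := ProjGenLinGroup.mk_surjective α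
  obtain ⟨b, rfl⟩ := ProjGenLinGroup.mk_surjective β
  obtain ⟨c, rfl⟩ := ProjGenLinGroup.mk_surjective x
  obtain ⟨u, c2⟩ := lift_pow (by norm_num) h.x2
  obtain ⟨v, b3⟩ := lift_pow (by norm_num) h.b3
  obtain ⟨w, a3⟩ := lift_pow (by norm_num) h.a3
  have hc := mk_smul u c
  have hb := mk_smul v b
  have ha := mk_smul w a
  rw [← hc, ← hb, ← ha] at h
  rw [← hc, ← hb, ← ha]
  generalize u • c = c at *
  generalize v • b = b at *
  generalize w • a = a at *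
  clear hc hb ha
  -- the relations `h1` and `h2`
  obtain ⟨τ, hτ⟩ := mk_one_iff (g := (a * b * a⁻¹ * c) ^ 2) (by
    rw [map_pow, map_mul, map_mul, map_mul, map_inv]; exact h.h1)
  have τ3 : τ ^ 3 = 1 := scal3 (g := a * b * a⁻¹) (by
    have : (a * b * a⁻¹) ^ 3 = a * b ^ 3 * a⁻¹ := by rw [pow_three, pow_three]; group
    rw [this, b3, mul_one, mul_inv_cancel]) c2 hτ
  obtain ⟨σ, hσ⟩ := mk_one_iff (g := (b * a * b⁻¹ * c) ^ 2) (by
    rw [map_pow, map_mul, map_mul, map_mul, map_inv]; exact h.h2)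
  have σ3 : σ ^ 3 = 1 := scal3 (g := b * a * b⁻¹) (by
    have : (b * a * b⁻¹) ^ 3 = b * a ^ 3 * b⁻¹ := by rw [pow_three, pow_three]; group
    rw [this, a3, mul_one, mul_inv_cancel]) c2 hσ
  have a3' : (σ • a) ^ 3 = 1 := by rw [smul_pow, σ3, a3, one_smul]
  have b3' : (τ • b) ^ 3 = 1 := by rw [smul_pow, τ3, b3, one_smul]
  have h1' : (σ • a * τ • b * (σ • a)⁻¹ * c) ^ 2 = 1 := by
    have e : σ • a * τ • b * (σ • a)⁻¹ * c = τ • (a * b * a⁻¹ * c) := by
      rw [smul_inv, smul_mul_assoc, smul_mul_assoc, mul_smul_comm, smul_smul, mul_inv_cancel,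
        one_smul, mul_smul_comm, smul_mul_assoc, smul_mul_assoc]
    rw [e, smul_pow, hτ, smul_smul, ← pow_succ, τ3, one_smul]
  have h2' : (τ • b * σ • a * (τ • b)⁻¹ * c) ^ 2 = 1 := by
    have e : τ • b * σ • a * (τ • b)⁻¹ * c = σ • (b * a * b⁻¹ * c) := by
      rw [smul_inv, smul_mul_assoc, smul_mul_assoc, mul_smul_comm, smul_smul, mul_inv_cancel,
        one_smul, mul_smul_comm, smul_mul_assoc, smul_mul_assoc]
    rw [e, smul_pow, hσ, smul_smul, ← pow_succ, σ3, one_smul]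
  have hb := mk_smul τ b
  have ha := mk_smul σ a
  rw [← hb, ← ha] at h
  rw [← hb, ← ha]
  generalize τ • b = b at *
  generalize σ • a = a at *
  -- the relations `ac` and `bc`
  obtain ⟨ν, hν⟩ := mk_one_iff (g := (a * c) ^ 3) (by rw [map_pow, map_mul]; exact h.ax)
  obtain ⟨ν', hν'⟩ := mk_one_iff (g := (b * c) ^ 3) (by rw [map_pow, map_mul]; exact h.bx)
  have n4 := nu4 a3' c2 hν
  have nn := nunu a3' b3' c2 hν hν' h1' h2'
  refine ⟨ν ^ 2, a, b, ν • c, rfl, rfl, mk_smul _ _, ?_, a3', b3', ?_, ?_, ?_, ?_, ?_⟩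
  · rw [← pow_mul]; exact n4
  · rw [smul_pow, c2]
  · rw [mul_smul_comm, smul_pow, hν, smul_smul, ← pow_succ, n4, one_smul]
  · rw [mul_smul_comm, smul_pow, hν', smul_smul, nn, ← pow_add, show 3 + 3 = 4 + 2 from rfl,
      pow_add, n4, one_mul]
  · rw [mul_smul_comm, smul_pow, h1']
  · rw [mul_smul_comm, smul_pow, h2']

end Pool.Agent.Helper61.KP
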