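import Pool.Agent.Helper61.KP.Four

/-!
# Four-dimensional representations: the second type comes from a product of two groups `PGL₂`
-/

set_option autoImplicit false
set_option linter.unusedSectionVars false

open Matrix
open scoped MatrixGroups

namespace Pool.Agent.Helper61.KP

open Pool.Agent.Helper79.KF Pool.Agent.Helper61.KT

variable {F : Type*} [Field F]

/-- an identification of the two by two matrices with the four-dimensional space -/
def Gq (e : Fin 4 → (Fin 4 → F)) (ν s : F) (X : Matrix (Fin 2) (Fin 2) F) : Fin 4 → F :=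
  (s * (X 0 0 + X 1 1)) • e 0 + (-(2 * ν * (X 0 0 - X 1 1))) • e 1 + (2 * (X 0 1 - X 1 0)) • e 2 +
    (-(2 * ν * (X 0 1 + X 1 0))) • e 3

/-- triples `(g, u, w)` such that `g` is `X ↦ u X w⁻¹` -/
def Sq (G : Matrix (Fin 2) (Fin 2) F → (Fin 4 → F)) :
    Subgroup (GL (Fin 4) F × GL (Fin 2) F × GL (Fin 2) F) where
  carrier := {t | ∀ X : Matrix (Fin 2) (Fin 2) F, (t.1 : Matrix (Fin 4) (Fin 4) F) *ᵥ
    G (X * (t.2.2 : Matrix (Fin 2) (Fin 2) F)) = G ((t.2.1 : Matrix (Fin 2) (Fin 2) F) * X)}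
  one_mem' := by
    intro X
    simp
  mul_mem' := by
    intro x y hx hy X
    have e1 : ((x * y).1 : Matrix (Fin 4) (Fin 4) F) =
        (x.1 : Matrix (Fin 4) (Fin 4) F) * (y.1 : Matrix (Fin 4) (Fin 4) F) := rfl
    have e2 : ((x * y).2.2 : Matrix (Fin 2) (Fin 2) F) =
        (x.2.2 : Matrix (Fin 2) (Fin 2) F) * (y.2.2 : Matrix (Fin 2) (Fin 2) F) := rfl
    have e3 : ((x * y).2.1 : Matrix (Fin 2) (Fin 2) F) =
        (x.2.1 : Matrix (Fin 2) (Fin 2) F) * (y.2.1 : Matrix (Fin 2) (Fin 2) F) := rfl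
    rw [e1, e2, e3, ← mulVec_mulVec, ← mul_assoc X, hy (X * (x.2.2 : Matrix (Fin 2) (Fin 2) F)),
      ← mul_assoc, hx ((y.2.1 : Matrix (Fin 2) (Fin 2) F) * X), ← mul_assoc]
  inv_mem' := by
    intro x hx X
    have k1 := hx ((((x.2.1)⁻¹ : GL (Fin 2) F) : Matrix (Fin 2) (Fin 2) F) * X *
      (((x.2.2)⁻¹ : GL (Fin 2) F) : Matrix (Fin 2) (Fin 2) F))
    have e1 : (((x.2.1)⁻¹ : GL (Fin 2) F) : Matrix (Fin 2) (Fin 2) F) * X *
        (((x.2.2)⁻¹ : GL (Fin 2) F) : Matrix (Fin 2) (Fin 2) F) *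
        (x.2.2 : Matrix (Fin 2) (Fin 2) F) =
        (((x.2.1)⁻¹ : GL (Fin 2) F) : Matrix (Fin 2) (Fin 2) F) * X := by
      rw [mul_assoc, ← Units.val_mul, inv_mul_cancel, Units.val_one, mul_one]
    have e2 : (x.2.1 : Matrix (Fin 2) (Fin 2) F) *
        ((((x.2.1)⁻¹ : GL (Fin 2) F) : Matrix (Fin 2) (Fin 2) F) * X *
        (((x.2.2)⁻¹ : GL (Fin 2) F) : Matrix (Fin 2) (Fin 2) F)) =
        X * (((x.2.2)⁻¹ : GL (Fin 2) F) : Matrix (Fin 2) (Fin 2) F) := by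
      rw [← mul_assoc, ← mul_assoc, ← Units.val_mul, mul_inv_cancel, Units.val_one, one_mul]
    rw [e1, e2] at k1
    have e3 : ((x⁻¹).1 : Matrix (Fin 4) (Fin 4) F) =
        (((x.1)⁻¹ : GL (Fin 4) F) : Matrix (Fin 4) (Fin 4) F) := rfl
    have e4 : ((x⁻¹).2.2 : Matrix (Fin 2) (Fin 2) F) =
        (((x.2.2)⁻¹ : GL (Fin 2) F) : Matrix (Fin 2) (Fin 2) F) := rfl
    have e5 : ((x⁻¹).2.1 : Matrix (Fin 2) (Fin 2) F) =
        (((x.2.1)⁻¹ : GL (Fin 2) F) : Matrix (Fin 2) (Fin 2) F) := rfl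
    rw [e3, e4, e5, ← k1, mulVec_mulVec, ← Units.val_mul, inv_mul_cancel, Units.val_one,
      one_mulVec]

theorem Gq_smul (e : Fin 4 → (Fin 4 → F)) (ν s r : F) (X : Matrix (Fin 2) (Fin 2) F) :
    Gq e ν s (r • X) = r • Gq e ν s X := by
  simp only [Gq, Matrix.smul_apply, smul_eq_mul]
  module

theorem Gq_inj {e : Fin 4 → (Fin 4 → F)} (he : ∀ x : Fin 4 → F,
      x 0 • e 0 + x 1 • e 1 + x 2 • e 2 + x 3 • e 3 = 0 → x = 0) (h2 : (2 : F) ≠ 0) {ν s : F}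
    (hν : ν ≠ 0) (hs : s ≠ 0) {X Y : Matrix (Fin 2) (Fin 2) F}
    (h : Gq e ν s X = Gq e ν s Y) : X = Y := by
  have h1 := he ![s * (X 0 0 + X 1 1) - s * (Y 0 0 + Y 1 1),
    -(2 * ν * (X 0 0 - X 1 1)) - -(2 * ν * (Y 0 0 - Y 1 1)),
    2 * (X 0 1 - X 1 0) - 2 * (Y 0 1 - Y 1 0),
    -(2 * ν * (X 0 1 + X 1 0)) - -(2 * ν * (Y 0 1 + Y 1 0))] (by
      have h3 := sub_eq_zero.2 h
      simp only [Gq] at h3
      rw [← h3]
      simp only [Matrix.cons_val_zero, Matrix.cons_val_one, Matrix.cons_val]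
      module)
  have k0 := congr_fun h1 0
  have k1 := congr_fun h1 1
  have k2 := congr_fun h1 2
  have k3 := congr_fun h1 3
  simp only [Matrix.cons_val_zero, Matrix.cons_val_one, Matrix.cons_val, Pi.zero_apply] at k0 k1 k2 k3
  have m0 : (X 0 0 + X 1 1) - (Y 0 0 + Y 1 1) = 0 := by
    have : s * ((X 0 0 + X 1 1) - (Y 0 0 + Y 1 1)) = 0 := by linear_combination k0
    exact (mul_eq_zero.1 this).resolve_left hs
  have m1 : (X 0 0 - X 1 1) - (Y 0 0 - Y 1 1) = 0 := by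
    have : (2 * ν) * ((X 0 0 - X 1 1) - (Y 0 0 - Y 1 1)) = 0 := by linear_combination -k1
    exact (mul_eq_zero.1 this).resolve_left (mul_ne_zero h2 hν)
  have m2 : (X 0 1 - X 1 0) - (Y 0 1 - Y 1 0) = 0 := by
    have : 2 * ((X 0 1 - X 1 0) - (Y 0 1 - Y 1 0)) = 0 := by linear_combination k2
    exact (mul_eq_zero.1 this).resolve_left h2
  have m3 : (X 0 1 + X 1 0) - (Y 0 1 + Y 1 0) = 0 := by
    have : (2 * ν) * ((X 0 1 + X 1 0) - (Y 0 1 + Y 1 0)) = 0 := by linear_combination -k3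
    exact (mul_eq_zero.1 this).resolve_left (mul_ne_zero h2 hν)
  ext i j
  fin_cases i <;> fin_cases j
  · apply mul_left_cancel₀ h2
    simp only [Fin.zero_eta, Fin.isValue]
    linear_combination m0 + m1
  · apply mul_left_cancel₀ h2
    simp only [Fin.zero_eta, Fin.isValue, Fin.mk_one]
    linear_combination m2 + m3
  · apply mul_left_cancel₀ h2
    simp only [Fin.zero_eta, Fin.isValue, Fin.mk_one]
    linear_combination m3 - m2
  · apply mul_left_cancel₀ h2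
    simp only [Fin.isValue, Fin.mk_one]
    linear_combination m0 - m1

theorem comb {V : Type*} [AddCommGroup V] [Module F V] {e0 e1 e2 e3 : V}
    {x0 x1 x2 x3 y0 y1 y2 y3 : F} (h0 : x0 = y0) (h1 : x1 = y1) (h2 : x2 = y2) (h3 : x3 = y3) :
    x0 • e0 + x1 • e1 + x2 • e2 + x3 • e3 = y0 • e0 + y1 • e1 + y2 • e2 + y3 • e3 := by
  rw [h0, h1, h2, h3]

theorem mem_a {A : Matrix (Fin 4) (Fin 4) F} {e : Fin 4 → (Fin 4 → F)} {ν s : F}
    (hν : ν ^ 2 = -1) (a0 : A *ᵥ e 0 = e 0) (a1 : A *ᵥ e 1 = e 3) (a3 : A *ᵥ e 3 = e 2)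
    (a2 : A *ᵥ e 2 = e 1) (X : Matrix (Fin 2) (Fin 2) F) :
    A *ᵥ Gq e ν s (X * !![1 - ν, -1 - ν; 1 - ν, 1 + ν]) =
      Gq e ν s (!![1 - ν, -1 - ν; 1 - ν, 1 + ν] * X) := by
  simp only [Gq, mulVec_add, mulVec_smul, a0, a1, a2, a3, Matrix.mul_apply, Fin.sum_univ_two,
    Matrix.of_apply, Matrix.cons_val_zero, Matrix.cons_val_one, Matrix.cons_val', Matrix.cons_val,
    Matrix.cons_val_fin_one]
  generalize X 0 0 = x
  generalize X 0 1 = y
  generalize X 1 0 = z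
  generalize X 1 1 = t
  have k : ∀ α β γ δ : F, α • e 0 + β • e 3 + γ • e 1 + δ • e 2 =
      α • e 0 + γ • e 1 + δ • e 2 + β • e 3 := by intro α β γ δ; module
  rw [k]
  refine comb ?_ ?_ ?_ ?_
  · ring
  · linear_combination (-2 * x + 2 * y - 2 * z - 2 * t) * hν
  · linear_combination (2 * x - 2 * y + 2 * z + 2 * t) * hν
  · ring

theorem mem_b {B : Matrix (Fin 4) (Fin 4) F} {e : Fin 4 → (Fin 4 → F)} {ν s : F}
    (hν : ν ^ 2 = -1) (hs : s ^ 2 = 2) (b0 : B *ᵥ e 0 = e 1 - e 2)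
    (b1 : B *ᵥ (e 1 - e 2) = e 1 + e 2) (b2 : B *ᵥ (e 1 + e 2) = e 0) (b3 : B *ᵥ e 3 = e 3)
    (X : Matrix (Fin 2) (Fin 2) F) :
    B *ᵥ Gq e ν s (X * !![1, s + ν; -s + ν, 1]) = Gq e ν s (!![1, -s + ν; s + ν, 1] * X) := by
  have k : ∀ α β γ δ : F, B *ᵥ (α • e 0 + (2 * β) • e 1 + (2 * γ) • e 2 + δ • e 3) =
      (β + γ) • e 0 + (α + β - γ) • e 1 + (-α + β - γ) • e 2 + δ • e 3 := by
    intro α β γ δ
    have e1 : α • e 0 + (2 * β) • e 1 + (2 * γ) • e 2 + δ • e 3 =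
        α • e 0 + (β + γ) • (e 1 + e 2) + (β - γ) • (e 1 - e 2) + δ • e 3 := by module
    rw [e1]
    simp only [mulVec_add, mulVec_smul, b0, b1, b3]
    rw [← mulVec_add, b2]
    module
  have k1 : Gq e ν s (X * !![1, s + ν; -s + ν, 1]) =
      (s * ((X * !![1, s + ν; -s + ν, 1]) 0 0 + (X * !![1, s + ν; -s + ν, 1]) 1 1)) • e 0 +
      (2 * (-(ν * ((X * !![1, s + ν; -s + ν, 1]) 0 0 - (X * !![1, s + ν; -s + ν, 1]) 1 1)))) • e 1 +
      (2 * ((X * !![1, s + ν; -s + ν, 1]) 0 1 - (X * !![1, s + ν; -s + ν, 1]) 1 0)) • e 2 +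
      (-(2 * ν * ((X * !![1, s + ν; -s + ν, 1]) 0 1 + (X * !![1, s + ν; -s + ν, 1]) 1 0))) • e 3 := by
    simp only [Gq]
    refine comb rfl ?_ rfl rfl
    ring
  rw [k1, k]
  simp only [Gq, Matrix.mul_apply, Fin.sum_univ_two,
    Matrix.of_apply, Matrix.cons_val_zero, Matrix.cons_val_one, Matrix.cons_val', Matrix.cons_val,
    Matrix.cons_val_fin_one]
  generalize X 0 0 = x
  generalize X 0 1 = y
  generalize X 1 0 = z
  generalize X 1 1 = t
  refine comb ?_ ?_ ?_ ?_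
  · linear_combination (-y + z) * hν + (-y + z) * hs
  · linear_combination (-3 * y + 3 * z) * hν + (-y + z) * hs
  · linear_combination (-y + z) * hν + (y - z) * hs
  · ring

theorem four_two (h2 : (2 : F) ≠ 0) {ν s : F} (hν : ν ^ 2 = -1) (hs : s ^ 2 = 2)
    {a b c : GL (Fin 4) F} (h : Rel a b c) (hc : c ≠ 1)
    (hq : ((b⁻¹ * c * b : GL (Fin 4) F) : Matrix (Fin 4) (Fin 4) F) *
      X3 (c : Matrix (Fin 4) (Fin 4) F) ((a⁻¹ * c * a : GL (Fin 4) F) : Matrix (Fin 4) (Fin 4) F) =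
      X3 (c : Matrix (Fin 4) (Fin 4) F) ((a⁻¹ * c * a : GL (Fin 4) F) : Matrix (Fin 4) (Fin 4) F))
    (hp : ((a⁻¹ * c * a : GL (Fin 4) F) : Matrix (Fin 4) (Fin 4) F) *
      X3 (c : Matrix (Fin 4) (Fin 4) F) ((b⁻¹ * c * b : GL (Fin 4) F) : Matrix (Fin 4) (Fin 4) F) =
      X3 (c : Matrix (Fin 4) (Fin 4) F) ((b⁻¹ * c * b : GL (Fin 4) F) : Matrix (Fin 4) (Fin 4) F))
    (φ : K →* PGL(4, F)) (hgen : φ.range ≤ (Subgroup.closure {a, b}).map ProjGenLinGroup.mk)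
    (ha : ProjGenLinGroup.mk a = φ (gen 0)) : False := by
  have h4 := four_ne h2
  have hν0 : ν ≠ 0 := by
    rintro rfl
    rw [zero_pow (by norm_num)] at hν
    have : (1 : F) = 0 := by linear_combination hν
    exact one_ne_zero this
  have hs0 : s ≠ 0 := by
    rintro rfl
    rw [zero_pow (by norm_num)] at hs
    exact h2 hs.symm
  obtain ⟨e, he, a0, a1, a3, a2, b0, b1, b2, b3⟩ :=
    shape (rr h) h2 (fun hh => hc (Units.ext hh)) hq hp
  have da : (!![1 - ν, -1 - ν; 1 - ν, 1 + ν] : Matrix (Fin 2) (Fin 2) F).det ≠ 0 := by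
    rw [Matrix.det_fin_two_of]
    have : (1 - ν) * (1 + ν) - (-1 - ν) * (1 - ν) = 4 := by linear_combination -2 * hν
    rw [this]; exact h4
  have db : (!![1, -s + ν; s + ν, 1] : Matrix (Fin 2) (Fin 2) F).det ≠ 0 := by
    rw [Matrix.det_fin_two_of]
    have : (1 : F) * 1 - (-s + ν) * (s + ν) = 4 := by linear_combination hs - hν
    rw [this]; exact h4
  have db' : (!![1, s + ν; -s + ν, 1] : Matrix (Fin 2) (Fin 2) F).det ≠ 0 := by
    rw [Matrix.det_fin_two_of]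
    have : (1 : F) * 1 - (s + ν) * (-s + ν) = 4 := by linear_combination hs - hν
    rw [this]; exact h4
  let ga : GL (Fin 2) F := Matrix.GeneralLinearGroup.mkOfDetNeZero _ da
  let gb : GL (Fin 2) F := Matrix.GeneralLinearGroup.mkOfDetNeZero _ db
  let hb : GL (Fin 2) F := Matrix.GeneralLinearGroup.mkOfDetNeZero _ db'
  have ma : ((a, ga, ga) : GL (Fin 4) F × GL (Fin 2) F × GL (Fin 2) F) ∈ Sq (Gq e ν s) :=
    fun X => mem_a hν a0 a1 a3 a2 X
  have mb : ((b, gb, hb) : GL (Fin 4) F × GL (Fin 2) F × GL (Fin 2) F) ∈ Sq (Gq e ν s) :=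
    fun X => mem_b hν hs b0 b1 b2 b3 X
  let π : GL (Fin 4) F × GL (Fin 2) F × GL (Fin 2) F →* PGL(4, F) :=
    ProjGenLinGroup.mk.comp (MonoidHom.fst _ _)
  let L : GL (Fin 4) F × GL (Fin 2) F × GL (Fin 2) F →* PGL(2, F) :=
    ProjGenLinGroup.mk.comp ((MonoidHom.fst _ _).comp (MonoidHom.snd _ _))
  have hle : Subgroup.closure {a, b} ≤ (Sq (Gq e ν s)).map (MonoidHom.fst _ _) := by
    rw [Subgroup.closure_le]
    rintro y (rfl | hy)
    · exact ⟨_, ma, rfl⟩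
    · obtain rfl : y = b := hy
      exact ⟨_, mb, rfl⟩
  have hφ : φ.range ≤ (Sq (Gq e ν s)).map π := by
    refine le_trans hgen ?_
    rw [← Subgroup.map_map]
    exact Subgroup.map_mono hle
  obtain ⟨ψ, hψ⟩ := exists_lift π L (Sq (Gq e ν s)) φ hφ (by
    rintro ⟨g, u, w⟩ hm hm1
    obtain ⟨r, hr⟩ := mk_one_iff (g := g) hm1
    have k1 : ∀ X : Matrix (Fin 2) (Fin 2) F, (r : F) • (X * (w : Matrix (Fin 2) (Fin 2) F)) =
        (u : Matrix (Fin 2) (Fin 2) F) * X := by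
      intro X
      apply Gq_inj he h2 hν0 hs0
      rw [Gq_smul]
      have k2 : (g : Matrix (Fin 4) (Fin 4) F) *ᵥ Gq e ν s (X * (w : Matrix (Fin 2) (Fin 2) F)) =
        Gq e ν s ((u : Matrix (Fin 2) (Fin 2) F) * X) := hm X
      rw [← k2, hr, val_smul, Units.val_one, smul_mulVec, one_mulVec]
    have k3 : (u : Matrix (Fin 2) (Fin 2) F) = (r : F) • (w : Matrix (Fin 2) (Fin 2) F) := by
      have := k1 1
      rw [one_mul, mul_one] at this
      exact this.symm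
    change ProjGenLinGroup.mk u = 1
    rw [ProjGenLinGroup.mk_eq_one, Subgroup.mem_center_iff]
    intro t
    apply Units.ext
    rw [Units.val_mul, Units.val_mul, ← k1 (t : Matrix (Fin 2) (Fin 2) F), k3, mul_smul_comm])
  have hψ1 := trivial_pgl ψ
  have k1 := hψ (gen 0) (a, ga, ga) ma ha
  rw [hψ1, MonoidHom.one_apply] at k1
  have k2 : ProjGenLinGroup.mk ga = 1 := k1.symm
  rw [ProjGenLinGroup.mk_eq_one, Subgroup.mem_center_iff] at k2
  have dt : (!![1, 1; 0, 1] : Matrix (Fin 2) (Fin 2) F).det ≠ 0 := by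
    rw [Matrix.det_fin_two_of]; simp
  have k3 := k2 (Matrix.GeneralLinearGroup.mkOfDetNeZero _ dt)
  have k4 := congrArg (fun g : GL (Fin 2) F => (g : Matrix (Fin 2) (Fin 2) F) 0 0) k3
  have k5 : ((!![1, 1; 0, 1] : Matrix (Fin 2) (Fin 2) F) *
      (!![1 - ν, -1 - ν; 1 - ν, 1 + ν] : Matrix (Fin 2) (Fin 2) F)) 0 0 =
      ((!![1 - ν, -1 - ν; 1 - ν, 1 + ν] : Matrix (Fin 2) (Fin 2) F) *
      (!![1, 1; 0, 1] : Matrix (Fin 2) (Fin 2) F)) 0 0 := k4
  simp only [Matrix.mul_apply, Fin.sum_univ_two,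
    Matrix.of_apply, Matrix.cons_val_zero, Matrix.cons_val_one, Matrix.cons_val', Matrix.cons_val,
    Matrix.cons_val_fin_one] at k5
  have k6 : ν = 1 := by linear_combination -k5
  rw [k6] at hν
  apply h2
  linear_combination hν

end Pool.Agent.Helper61.KP
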