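import Pool.Agent.Helper61.KP.Core
import Pool.Agent.Helper61.KT.Red

/-!
# Reduction of projective representations to finite fields
-/

set_option autoImplicit false
set_option linter.unusedSectionVars false

open Matrix
open scoped MatrixGroups

namespace Pool.Agent.Helper61.KP

open Pool.Agent.Helper79.KF Pool.Agent.Helper61.KT

/-- the entries of a scalar matrix -/
theorem scalar_entries {R : Type*} [CommRing R] {n : ℕ} {X : Matrix (Fin n) (Fin n) R} {r : R}
    (h : X = r • 1) (k i j : Fin n) : X k i = (1 : Matrix (Fin n) (Fin n) R) k i * X j j := by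
  rw [h, Matrix.smul_apply, Matrix.smul_apply, Matrix.one_apply_eq, smul_eq_mul, smul_eq_mul,
    mul_one, mul_comm]

theorem scalar_of_entries {R : Type*} [CommRing R] {n : ℕ} {X : Matrix (Fin n) (Fin n) R}
    (h : ∀ k i j, X k i = (1 : Matrix (Fin n) (Fin n) R) k i * X j j) : ∃ r : R, X = r • 1 := by
  rcases Nat.eq_zero_or_pos n with hn | hn
  · subst hn
    exact ⟨0, by ext i; exact i.elim0⟩
  · refine ⟨X ⟨0, hn⟩ ⟨0, hn⟩, ?_⟩
    ext k i
    rw [h k i ⟨0, hn⟩, Matrix.smul_apply, smul_eq_mul, mul_comm]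

theorem mk_one_of_scalar {F : Type*} [Field F] {n : ℕ} {g : GL (Fin n) F} {r : F}
    (h : (g : Matrix (Fin n) (Fin n) F) = r • 1) : ProjGenLinGroup.mk g = 1 := by
  rw [ProjGenLinGroup.mk_eq_one, Subgroup.mem_center_iff]
  intro t
  apply Units.ext
  rw [Units.val_mul, Units.val_mul, h, mul_smul_comm, mul_one, smul_mul_assoc, one_mul]

theorem entries_of_mk {F : Type*} [Field F] {n : ℕ} {g : GL (Fin n) F}
    (h : ProjGenLinGroup.mk g = 1) (k i j : Fin n) : (g : Matrix (Fin n) (Fin n) F) k i =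
      (1 : Matrix (Fin n) (Fin n) F) k i * (g : Matrix (Fin n) (Fin n) F) j j := by
  obtain ⟨u, hu⟩ := mk_one_iff h
  refine scalar_entries (r := (u : F)) ?_ k i j
  rw [hu, val_smul, Units.val_one]

theorem one_map {R S : Type*} [CommRing R] [CommRing S] {n : ℕ} (f : R →+* S) (k i : Fin n) :
    f ((1 : Matrix (Fin n) (Fin n) R) k i) = (1 : Matrix (Fin n) (Fin n) S) k i := by
  rw [Matrix.one_apply, Matrix.one_apply]
  split_ifs <;> simp

/-- lifts of the generators whose relators are scalar define a homomorphism to `PGLₙ` -/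
theorem exists_hom {S k : Type*} [CommRing S] [Field k] {n : ℕ} (σ : S →+* k)
    (g : Fin 6 → GL (Fin n) S)
    (h : ∀ r ∈ rels, ∀ x y z : Fin n, ((FreeGroup.lift g r : GL (Fin n) S) :
      Matrix (Fin n) (Fin n) S) x y = (1 : Matrix (Fin n) (Fin n) S) x y *
      ((FreeGroup.lift g r : GL (Fin n) S) : Matrix (Fin n) (Fin n) S) z z) :
    ∃ Φ : K →* PGL(n, k), ∀ i, Φ (gen i) =
      ProjGenLinGroup.mk (GeneralLinearGroup.map (n := Fin n) σ (g i)) := by
  let τ : GL (Fin n) S →* PGL(n, k) := ProjGenLinGroup.mk.comp (GeneralLinearGroup.map (n := Fin n) σ)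
  have hr : ∀ r ∈ rels, FreeGroup.lift (fun i => τ (g i)) r = 1 := by
    intro r hr
    have e1 : FreeGroup.lift (fun i => τ (g i)) r = τ (FreeGroup.lift g r) := by
      have : FreeGroup.lift (fun i => τ (g i)) = τ.comp (FreeGroup.lift g) := by
        apply FreeGroup.ext_hom
        intro i
        rw [FreeGroup.lift_apply_of]
        change τ (g i) = τ (FreeGroup.lift g (FreeGroup.of i))
        rw [FreeGroup.lift_apply_of]
      rw [this, MonoidHom.comp_apply]
    rw [e1]
    obtain ⟨s, hs⟩ := scalar_of_entries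
      (X := ((GeneralLinearGroup.map (n := Fin n) σ (FreeGroup.lift g r) : GL (Fin n) k) :
        Matrix (Fin n) (Fin n) k)) (by
        intro x y z
        have h1 := congrArg σ (h r hr x y z)
        rw [map_mul, one_map] at h1
        exact h1)
    exact mk_one_of_scalar hs
  refine ⟨PresentedGroup.toGroup hr, fun i => ?_⟩
  exact PresentedGroup.toGroup.of hr

theorem reduce_pgl.{u} {F : Type u} [Field F] (h2 : (2 : F) ≠ 0) {n : ℕ} (φ : K →* PGL(n, F))
    (fin : ∀ (k : Type u) [Field k] [IsAlgClosed k], (2 : k) ≠ 0 → ∀ Φ : K →* PGL(n, k),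
      Finite Φ.range → Φ = 1) : φ = 1 := by
  choose g hg using fun i => ProjGenLinGroup.mk_surjective (φ (gen i))
  apply trivial_of_gen
  by_contra hne
  -- a witness that `g 0` is not scalar
  have hns : ∃ x y z : Fin n, (g 0 : Matrix (Fin n) (Fin n) F) x y -
      (1 : Matrix (Fin n) (Fin n) F) x y * (g 0 : Matrix (Fin n) (Fin n) F) z z ≠ 0 := by
    by_contra hcon
    push Not at hcon
    obtain ⟨r, hr⟩ := scalar_of_entries (X := (g 0 : Matrix (Fin n) (Fin n) F))
      (fun x y z => sub_eq_zero.1 (hcon x y z))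
    apply hne
    rw [← hg 0]
    exact mk_one_of_scalar hr
  obtain ⟨x0, y0, z0, hxyz⟩ := hns
  set e : F := (g 0 : Matrix (Fin n) (Fin n) F) x0 y0 -
      (1 : Matrix (Fin n) (Fin n) F) x0 y0 * (g 0 : Matrix (Fin n) (Fin n) F) z0 z0 with he
  set T : Set F := {(2 : F)⁻¹, e⁻¹} ∪ (Set.range (fun t : Fin 6 × Fin n × Fin n =>
      (g t.1 : Matrix (Fin n) (Fin n) F) t.2.1 t.2.2) ∪
    Set.range (fun t : Fin 6 × Fin n × Fin n =>
      (((g t.1)⁻¹ : GL (Fin n) F) : Matrix (Fin n) (Fin n) F) t.2.1 t.2.2)) with hT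
  have hfin : T.Finite := (Set.toFinite _).union ((Set.finite_range _).union (Set.finite_range _))
  set S : Subalgebra ℤ F := Algebra.adjoin ℤ T with hS
  have hft : Algebra.FiniteType ℤ S := by
    rw [← Subalgebra.fg_iff_finiteType]
    exact ⟨hfin.toFinset, by rw [Set.Finite.coe_toFinset]⟩
  have hTS : ∀ x ∈ T, x ∈ S := fun x hx => Algebra.subset_adjoin hx
  -- lifts over `S`
  have hlift : ∀ i, ∃ ĝ : GL (Fin n) S, GeneralLinearGroup.map (n := Fin n) (S.val : S →+* F) ĝ =
      g i := by
    intro i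
    exact mem_range S (g i) (fun a b => hTS _ (Or.inr (Or.inl ⟨(i, a, b), rfl⟩)))
      (fun a b => hTS _ (Or.inr (Or.inr ⟨(i, a, b), rfl⟩)))
  choose gh hgh using hlift
  have hrel : ∀ r ∈ rels, ∀ x y z : Fin n, ((FreeGroup.lift gh r : GL (Fin n) S) :
      Matrix (Fin n) (Fin n) S) x y = (1 : Matrix (Fin n) (Fin n) S) x y *
      ((FreeGroup.lift gh r : GL (Fin n) S) : Matrix (Fin n) (Fin n) S) z z := by
    intro r hr x y z
    have e1 : GeneralLinearGroup.map (n := Fin n) (S.val : S →+* F) (FreeGroup.lift gh r) =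
        FreeGroup.lift g r := by
      have : (GeneralLinearGroup.map (n := Fin n) (S.val : S →+* F)).comp (FreeGroup.lift gh) =
          FreeGroup.lift g := by
        apply FreeGroup.ext_hom
        intro i
        rw [FreeGroup.lift_apply_of, MonoidHom.comp_apply, FreeGroup.lift_apply_of, hgh]
      rw [← this, MonoidHom.comp_apply]
    have e2 : ProjGenLinGroup.mk (FreeGroup.lift g r) = 1 := by
      have h1 : (ProjGenLinGroup.mk).comp (FreeGroup.lift g) =
          φ.comp (PresentedGroup.mk rels) := by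
        apply FreeGroup.ext_hom
        intro i
        rw [MonoidHom.comp_apply, FreeGroup.lift_apply_of, MonoidHom.comp_apply, hg]
        rfl
      have h3 := DFunLike.congr_fun h1 r
      rw [MonoidHom.comp_apply, MonoidHom.comp_apply, PresentedGroup.one_of_mem hr, map_one] at h3
      exact h3
    have e3 := entries_of_mk e2 x y z
    rw [← e1] at e3
    apply Subtype.val_injective
    have e4 : (((1 : Matrix (Fin n) (Fin n) S) x y : S) : F) =
        (1 : Matrix (Fin n) (Fin n) F) x y := one_map (S.val : S →+* F) x y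
    rw [MulMemClass.coe_mul, e4]
    exact e3
  -- a maximal ideal
  have hnt : Nontrivial S := inferInstance
  obtain ⟨I, hI⟩ := Ideal.exists_maximal S
  let _ := Ideal.Quotient.field I
  have hfi : Finite (S ⧸ I) := by
    have h1 : Algebra.FiniteType ℤ (S ⧸ I) := Algebra.FiniteType.of_surjective
      (Ideal.Quotient.mkₐ ℤ I) (Ideal.Quotient.mkₐ_surjective ℤ I)
    have hJ := jacobson_int
    have h2 : Module.Finite ℤ (S ⧸ I) := finite_of_finite_type_of_isJacobsonRing ℤ (S ⧸ I)
    exact finite_field_of_int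
  let k := AlgebraicClosure (S ⧸ I)
  let σ : S →+* k := (algebraMap (S ⧸ I) k).comp (Ideal.Quotient.mk I)
  obtain ⟨Φ, hΦ⟩ := exists_hom σ gh hrel
  have hΦfin : Finite Φ.range := by
    let ρ : GL (Fin n) (S ⧸ I) →* PGL(n, k) :=
      ProjGenLinGroup.mk.comp (GeneralLinearGroup.map (n := Fin n) (algebraMap (S ⧸ I) k))
    have hle : Φ.range ≤ ρ.range := by
      apply range_le
      intro i
      refine ⟨GeneralLinearGroup.map (n := Fin n) (Ideal.Quotient.mk I) (gh i), ?_⟩
      rw [hΦ i]
      rfl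
    have hf1 : Finite (GL (Fin n) (S ⧸ I)) := by infer_instance
    have hf2 : (ρ.range : Set PGL(n, k)).Finite := by
      rw [MonoidHom.coe_range]; exact Set.finite_range _
    exact (hf2.subset hle).to_subtype
  have h2k : (2 : k) ≠ 0 := by
    have h1 : (2 : S) * ⟨(2 : F)⁻¹, hTS _ (Or.inl (Or.inl rfl))⟩ = 1 :=
      Subtype.ext (mul_inv_cancel₀ h2)
    have h3 := congrArg σ h1
    rw [map_mul, map_ofNat, map_one] at h3
    exact left_ne_zero_of_mul_eq_one h3
  have hone := fin k h2k Φ hΦfin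
  have h5 : ProjGenLinGroup.mk (GeneralLinearGroup.map (n := Fin n) σ (gh 0)) = 1 := by
    rw [← hΦ 0, hone, MonoidHom.one_apply]
  have h6 := entries_of_mk h5 x0 y0 z0
  -- the witness becomes zero
  set eh : S := (gh 0 : Matrix (Fin n) (Fin n) S) x0 y0 -
      (1 : Matrix (Fin n) (Fin n) S) x0 y0 * (gh 0 : Matrix (Fin n) (Fin n) S) z0 z0 with heh
  have h7 : σ eh = 0 := by
    rw [heh, map_sub, map_mul, one_map]
    exact sub_eq_zero.2 h6
  have h8 : (eh : F) = e := by
    have k1 : ∀ a b : Fin n, (((gh 0 : Matrix (Fin n) (Fin n) S) a b : S) : F) =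
        (g 0 : Matrix (Fin n) (Fin n) F) a b := by
      intro a b
      rw [← hgh 0]; rfl
    have k2 : (((1 : Matrix (Fin n) (Fin n) S) x0 y0 : S) : F) =
        (1 : Matrix (Fin n) (Fin n) F) x0 y0 := one_map (S.val : S →+* F) x0 y0
    rw [heh, AddSubgroupClass.coe_sub, MulMemClass.coe_mul, k1, k1, k2]
  have h9 : eh * ⟨e⁻¹, hTS _ (Or.inl (Or.inr rfl))⟩ = 1 := by
    apply Subtype.ext
    rw [MulMemClass.coe_mul, h8]
    exact mul_inv_cancel₀ hxyz
  have h10 := congrArg σ h9
  rw [map_mul, h7, zero_mul, map_one] at h10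
  exact zero_ne_one h10

/-- projective representations of degree at most five, characteristic different from two -/
theorem pgl_five {F : Type*} [Field F] (h2 : (2 : F) ≠ 0) {n : ℕ} (hn : n ≤ 5)
    (φ : K →* PGL(n, F)) : φ = 1 := by
  interval_cases n
  · exact trivial_pgl_le (by norm_num) φ
  · exact trivial_pgl_le (by norm_num) φ
  · exact trivial_pgl_le (by norm_num) φ
  · exact trivial_pgl_le (by norm_num) φ
  · exact reduce_pgl h2 φ fun k _ _ hk Φ hΦ => closed_four hk Φ hΦ
  · exact reduce_pgl h2 φ fun k _ _ hk Φ hΦ => closed_five hk Φ hΦ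

end Pool.Agent.Helper61.KP
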