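import Pool.Agent.Helper61.KP.RedP

/-!
# Projective representations over commutative rings
-/

set_option autoImplicit false
set_option linter.unusedSectionVars false

open Matrix
open scoped MatrixGroups

namespace Pool.Agent.Helper61.KP

open Pool.Agent.Helper79.KF Pool.Agent.Helper61.KT

section ad

variable {R : Type*} [CommRing R] {n : ℕ}

/-- conjugation of matrices by `g`, as a matrix -/
def adM (g : GL (Fin n) R) : Matrix (Fin (n * n)) (Fin (n * n)) R :=
  Matrix.of fun x y => (g : Matrix (Fin n) (Fin n) R) (finProdFinEquiv.symm x).1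
    (finProdFinEquiv.symm y).1 *
    ((g⁻¹ : GL (Fin n) R) : Matrix (Fin n) (Fin n) R) (finProdFinEquiv.symm y).2
      (finProdFinEquiv.symm x).2

theorem adM_one : adM (1 : GL (Fin n) R) = 1 := by
  ext x y
  simp only [adM, Matrix.of_apply, inv_one, Units.val_one]
  by_cases h : x = y
  · rw [h, Matrix.one_apply_eq, Matrix.one_apply_eq, Matrix.one_apply_eq, mul_one]
  · rw [Matrix.one_apply_ne h]
    by_cases h1 : (finProdFinEquiv.symm x).1 = (finProdFinEquiv.symm y).1
    · have h2 : (finProdFinEquiv.symm y).2 ≠ (finProdFinEquiv.symm x).2 := by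
        intro h2
        apply h
        apply finProdFinEquiv.symm.injective
        exact Prod.ext h1 h2.symm
      rw [Matrix.one_apply_ne h2, mul_zero]
    · rw [Matrix.one_apply_ne h1, zero_mul]

theorem adM_mul (g h : GL (Fin n) R) : adM (g * h) = adM g * adM h := by
  ext x y
  rw [Matrix.mul_apply]
  simp only [adM, Matrix.of_apply]
  rw [← finProdFinEquiv.sum_comp]
  simp only [Equiv.symm_apply_apply]
  rw [Fintype.sum_prod_type, Units.val_mul, _root_.mul_inv_rev, Units.val_mul, Matrix.mul_apply,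
    Matrix.mul_apply, Finset.sum_mul_sum]
  refine Finset.sum_congr rfl fun i _ => Finset.sum_congr rfl fun j _ => ?_
  ring

/-- the adjoint representation -/
def ad : GL (Fin n) R →* GL (Fin (n * n)) R :=
  MonoidHom.toHomUnits
    { toFun := adM
      map_one' := adM_one
      map_mul' := adM_mul }

theorem ad_val (g : GL (Fin n) R) : (ad g : Matrix (Fin (n * n)) (Fin (n * n)) R) = adM g := rfl

theorem ad_map {R' : Type*} [CommRing R'] (f : R →+* R') (g : GL (Fin n) R) :
    GeneralLinearGroup.map (n := Fin (n * n)) f (ad g) =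
      ad (GeneralLinearGroup.map (n := Fin n) f g) := by
  apply Units.ext
  ext x y
  have e1 : ((GeneralLinearGroup.map (n := Fin (n * n)) f (ad g) : GL (Fin (n * n)) R') :
      Matrix (Fin (n * n)) (Fin (n * n)) R') x y = f (adM g x y) := rfl
  rw [e1, ad_val]
  simp only [adM, Matrix.of_apply]
  rw [map_mul, ← map_inv]
  rfl

theorem center_of_ad {g : GL (Fin n) R} (h : ad g = 1) : ProjGenLinGroup.mk g = 1 := by
  rw [ProjGenLinGroup.mk_eq_one, Subgroup.mem_center_iff]
  intro t
  have h1 : ∀ i j k l : Fin n, (g : Matrix (Fin n) (Fin n) R) i k *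
      ((g⁻¹ : GL (Fin n) R) : Matrix (Fin n) (Fin n) R) l j =
      (1 : Matrix (Fin n) (Fin n) R) i k * (1 : Matrix (Fin n) (Fin n) R) j l := by
    intro i j k l
    have h2 := congrArg (fun X : GL (Fin (n * n)) R =>
      (X : Matrix (Fin (n * n)) (Fin (n * n)) R) (finProdFinEquiv (i, j)) (finProdFinEquiv (k, l))) h
    simp only [ad_val, adM, Matrix.of_apply, Equiv.symm_apply_apply, Units.val_one] at h2
    rw [h2]
    by_cases h3 : i = k
    · by_cases h4 : j = l
      · rw [h3, h4, Matrix.one_apply_eq, Matrix.one_apply_eq, Matrix.one_apply_eq, mul_one]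
      · rw [Matrix.one_apply_ne h4, mul_zero, Matrix.one_apply_ne]
        intro h5
        exact h4 (congrArg Prod.snd (finProdFinEquiv.injective h5))
    · rw [Matrix.one_apply_ne h3, zero_mul, Matrix.one_apply_ne]
      intro h5
      exact h3 (congrArg Prod.fst (finProdFinEquiv.injective h5))
  have h2 : (g : Matrix (Fin n) (Fin n) R) * (t : Matrix (Fin n) (Fin n) R) *
      ((g⁻¹ : GL (Fin n) R) : Matrix (Fin n) (Fin n) R) = (t : Matrix (Fin n) (Fin n) R) := by
    ext i j
    rw [Matrix.mul_apply]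
    simp only [Matrix.mul_apply, Finset.sum_mul]
    have : ∀ l k : Fin n, (g : Matrix (Fin n) (Fin n) R) i k * (t : Matrix (Fin n) (Fin n) R) k l *
        ((g⁻¹ : GL (Fin n) R) : Matrix (Fin n) (Fin n) R) l j =
        (t : Matrix (Fin n) (Fin n) R) k l * ((1 : Matrix (Fin n) (Fin n) R) i k *
        (1 : Matrix (Fin n) (Fin n) R) j l) := by
      intro l k
      rw [← h1 i j k l]; ring
    simp only [this]
    rw [Finset.sum_eq_single j]
    · rw [Finset.sum_eq_single i]
      · rw [Matrix.one_apply_eq, Matrix.one_apply_eq, mul_one, mul_one]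
      · intro k _ hk
        rw [Matrix.one_apply_ne hk.symm, zero_mul, mul_zero]
      · intro hi; exact absurd (Finset.mem_univ i) hi
    · intro l _ hl
      refine Finset.sum_eq_zero fun k _ => ?_
      rw [Matrix.one_apply_ne hl.symm, mul_zero, mul_zero]
    · intro hj; exact absurd (Finset.mem_univ j) hj
  have h3 : g * t * g⁻¹ = t := by
    apply Units.ext
    rw [Units.val_mul, Units.val_mul]
    exact h2
  have h4 : g * t = t * g := mul_inv_eq_iff_eq_mul.1 h3
  exact h4.symm

theorem ad_of_center {g : GL (Fin n) R} (h : ProjGenLinGroup.mk g = 1) : ad g = 1 := by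
  rw [ProjGenLinGroup.mk_eq_one, Matrix.GeneralLinearGroup.center_eq_range_scalar] at h
  obtain ⟨u, rfl⟩ := h
  apply Units.ext
  rw [ad_val, Units.val_one]
  ext x y
  simp only [adM, Matrix.of_apply]
  rw [← map_inv, Matrix.GeneralLinearGroup.coe_scalar, Matrix.GeneralLinearGroup.coe_scalar]
  by_cases h : x = y
  · rw [h, Matrix.one_apply_eq, Matrix.scalar_apply, Matrix.scalar_apply, Matrix.diagonal_apply_eq,
      Matrix.diagonal_apply_eq, ← Units.val_mul, mul_inv_cancel, Units.val_one]
  · rw [Matrix.one_apply_ne h, Matrix.scalar_apply, Matrix.scalar_apply]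
    by_cases h1 : (finProdFinEquiv.symm x).1 = (finProdFinEquiv.symm y).1
    · have h2 : (finProdFinEquiv.symm y).2 ≠ (finProdFinEquiv.symm x).2 := by
        intro h2
        apply h
        apply finProdFinEquiv.symm.injective
        exact Prod.ext h1 h2.symm
      rw [Matrix.diagonal_apply_ne _ h2, mul_zero]
    · rw [Matrix.diagonal_apply_ne _ h1, zero_mul]

end ad

/-- Projective representations of degree at most five over a commutative ring. -/
theorem pgl_ring {R : Type*} [CommRing R] {n : ℕ} (hn : n ≤ 3 ∨ (n ≤ 5 ∧ IsUnit (2 : R)))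
    (φ : K →* PGL(n, R)) : φ = 1 := by
  obtain ⟨f, hf⟩ := exists_lift ProjGenLinGroup.mk (ad (R := R) (n := n)) ⊤ φ (by
      rintro _ ⟨k, rfl⟩
      obtain ⟨m, hm⟩ := ProjGenLinGroup.mk_surjective (φ k)
      exact ⟨m, Subgroup.mem_top _, hm⟩) (fun m _ hm => ad_of_center hm)
  have hsuff : f = 1 → φ = 1 := by
    intro h
    refine MonoidHom.ext fun k => ?_
    obtain ⟨m, hm⟩ := ProjGenLinGroup.mk_surjective (φ k)
    have h1 := hf k m (Subgroup.mem_top _) hm
    rw [h, MonoidHom.one_apply] at h1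
    rw [← hm, center_of_ad h1.symm, MonoidHom.one_apply]
  apply hsuff
  choose g hg using fun i => ProjGenLinGroup.mk_surjective (φ (gen i))
  obtain ⟨y, hy⟩ : ∃ y : R, n ≤ 3 ∨ (n ≤ 5 ∧ 2 * y = 1) := by
    rcases hn with h | ⟨h, h'⟩
    · exact ⟨0, Or.inl h⟩
    · obtain ⟨y, hy⟩ := h'.exists_right_inv
      exact ⟨y, Or.inr ⟨h, hy⟩⟩
  set T0 : Set R := {y} ∪ (Set.range (fun t : Fin 6 × Fin n × Fin n =>
      (g t.1 : Matrix (Fin n) (Fin n) R) t.2.1 t.2.2) ∪
    Set.range (fun t : Fin 6 × Fin n × Fin n =>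
      (((g t.1)⁻¹ : GL (Fin n) R) : Matrix (Fin n) (Fin n) R) t.2.1 t.2.2)) with hT0
  refine reduce f T0 ((Set.finite_singleton y).union
    ((Set.finite_range _).union (Set.finite_range _))) ?_
  intro S hS ψ hψ I hI hfi
  let _ := Ideal.Quotient.field I
  have hlift : ∀ i, ∃ ĝ : GL (Fin n) S, GeneralLinearGroup.map (n := Fin n) (S.val : S →+* R) ĝ =
      g i := by
    intro i
    exact mem_range S (g i) (fun a b => hS (Or.inr (Or.inl ⟨(i, a, b), rfl⟩)))
      (fun a b => hS (Or.inr (Or.inr ⟨(i, a, b), rfl⟩)))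
  choose gh hgh using hlift
  have hψi : ∀ i, ψ (gen i) = ad (gh i) := by
    intro i
    apply map_injective (n := n * n) (S.val : S →+* R) Subtype.val_injective
    rw [ad_map, hgh, ← hf (gen i) (g i) (Subgroup.mem_top _) (hg i), ← hψ]
    rfl
  set χ : K →* GL (Fin (n * n)) (S ⧸ I) :=
    (GeneralLinearGroup.map (n := Fin (n * n)) (Ideal.Quotient.mk I)).comp ψ with hχ
  have hχi : ∀ i, χ (gen i) = ad (GeneralLinearGroup.map (n := Fin n) (Ideal.Quotient.mk I) (gh i)) := by
    intro i
    rw [hχ, MonoidHom.comp_apply, hψi, ad_map]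
  obtain ⟨Φ, hΦ⟩ := exists_lift (ad (R := S ⧸ I) (n := n)) ProjGenLinGroup.mk ⊤ χ (by
    apply range_le
    intro i
    exact ⟨_, Subgroup.mem_top _, (hχi i).symm⟩) (fun m _ hm => center_of_ad hm)
  have hΦ1 : Φ = 1 := by
    rcases hy with h | ⟨h, h'⟩
    · exact trivial_pgl_le h Φ
    · exact pgl_five (two_ne_of h' (hS (Or.inl rfl)) hI) h Φ
  have hle : χ.range ≤ ⊥ := by
    apply range_le
    intro i
    rw [Subgroup.mem_bot, hχi]
    apply ad_of_center
    rw [← hΦ (gen i) _ (Subgroup.mem_top _) (hχi i).symm, hΦ1, MonoidHom.one_apply]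
  refine MonoidHom.ext fun k => ?_
  have : χ k ∈ (⊥ : Subgroup (GL (Fin (n * n)) (S ⧸ I))) := hle ⟨k, rfl⟩
  rwa [Subgroup.mem_bot] at this

end Pool.Agent.Helper61.KP
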