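import Mathlib

/-!
# Three explicit matrices of degree seven
-/

set_option autoImplicit false

open Matrix

namespace Pool.Agent.Helper61.KP

variable {F : Type*} [Field F]

/-- twice the matrix of `A⁻¹ B` -/
def M1 (y b g d : F) : Matrix (Fin 7) (Fin 7) F :=
  !![0, 0, y, y, 0, g, -g;
    -2 * d, 0, y * d + b * g, -y * d - b * g, -2 * g, 2 * g * d, 2 * g * d;
    0, 2, 0, 0, 0, 0, 0;
    2 * d, 0, y * d + b * g, -y * d - b * g, 2 * g, 2 * g * d, 2 * g * d;
    -2 * b, 0, 2 * y * b, -2 * y * b, -2 * y, y * d + b * g, y * d + b * g;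
    0, 0, b, b, 0, d, -d;
    -2 * b, 0, -2 * y * b, 2 * y * b, -2 * y, -y * d - b * g, -y * d - b * g]

/-- twice the matrix of `A B⁻¹` -/
def M2 (y b g d : F) : Matrix (Fin 7) (Fin 7) F :=
  !![0, 0, y, -y, 0, g, g;
    2 * d, 0, y * d + b * g, y * d + b * g, -2 * g, 2 * g * d, -2 * g * d;
    2 * d, 0, -y * d - b * g, -y * d - b * g, -2 * g, -2 * g * d, 2 * g * d;
    0, 2, 0, 0, 0, 0, 0;
    -2 * b, 0, -2 * y * b, -2 * y * b, 2 * y, -y * d - b * g, y * d + b * g;
    2 * b, 0, -2 * y * b, -2 * y * b, -2 * y, -y * d - b * g, y * d + b * g;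
    0, 0, -b, b, 0, -d, -d]

/-- twice the matrix of `A⁻¹ B⁻¹` -/
def M3 (y b g d : F) : Matrix (Fin 7) (Fin 7) F :=
  !![0, 0, y, -y, 0, g, g;
    2 * d, 0, -y * d - b * g, -y * d - b * g, -2 * g, -2 * g * d, 2 * g * d;
    0, 2, 0, 0, 0, 0, 0;
    2 * d, 0, y * d + b * g, y * d + b * g, -2 * g, 2 * g * d, -2 * g * d;
    2 * b, 0, -2 * y * b, -2 * y * b, -2 * y, -y * d - b * g, y * d + b * g;
    0, 0, -b, b, 0, -d, -d;
    -2 * b, 0, -2 * y * b, -2 * y * b, 2 * y, -y * d - b * g, y * d + b * g]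

theorem tr1 (y b g d : F) : (M1 y b g d).trace - (M2 y b g d).trace = 2 * d - 4 * y := by
  simp only [M1, M2, Matrix.trace, Matrix.diag_apply, Fin.sum_univ_seven, Matrix.of_apply,
    Matrix.cons_val', Matrix.cons_val_zero, Matrix.cons_val_one, Matrix.cons_val,
    Matrix.cons_val_fin_one]
  ring

theorem tr2 (y b g : F) (h : b * g = 2 * y ^ 2 - 1) :
    (M1 y b g (2 * y) * M1 y b g (2 * y) * M1 y b g (2 * y)).trace -
      (M1 y b g (2 * y) * M2 y b g (2 * y) * M3 y b g (2 * y)).trace =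
      128 * y ^ 4 - 64 * y ^ 2 := by
  simp only [M1, M2, M3, Matrix.trace, Matrix.diag_apply, Matrix.mul_apply, Fin.sum_univ_seven,
    Matrix.of_apply, Matrix.cons_val', Matrix.cons_val_zero, Matrix.cons_val_one, Matrix.cons_val,
    Matrix.cons_val_fin_one]
  linear_combination (32 * y ^ 2) * h

theorem tr3 (y b g : F) (h : b * g = 2 * y ^ 2 - 1) :
    (M1 y b g (2 * y) * M1 y b g (2 * y) * M3 y b g (2 * y)).trace -
      (M1 y b g (2 * y) * M2 y b g (2 * y) * M1 y b g (2 * y)).trace =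
      -128 * y ^ 4 - 32 * y ^ 3 + 80 * y ^ 2 - 8 := by
  simp only [M1, M2, M3, Matrix.trace, Matrix.diag_apply, Matrix.mul_apply, Fin.sum_univ_seven,
    Matrix.of_apply, Matrix.cons_val', Matrix.cons_val_zero, Matrix.cons_val_one, Matrix.cons_val,
    Matrix.cons_val_fin_one]
  linear_combination (-64 * y ^ 2 - 8 * b * g + 8) * h

/-- the contradiction -/
theorem poly_false (h2 : (2 : F) ≠ 0) (y : F) (e1 : 128 * y ^ 4 - 64 * y ^ 2 = 0)
    (e2 : -128 * y ^ 4 - 32 * y ^ 3 + 80 * y ^ 2 - 8 = 0) : False := by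
  have h8 : (8 : F) ≠ 0 := by
    have : (8 : F) = 2 * 2 * 2 := by norm_num
    rw [this]; exact mul_ne_zero (mul_ne_zero h2 h2) h2
  have k1 : y ^ 2 * (2 * y ^ 2 - 1) = 0 := by
    have : (8 * 8 : F) * (y ^ 2 * (2 * y ^ 2 - 1)) = 0 := by linear_combination e1
    exact (mul_eq_zero.1 this).resolve_left (mul_ne_zero h8 h8)
  have k2 : -16 * y ^ 4 - 4 * y ^ 3 + 10 * y ^ 2 - 1 = 0 := by
    have : (8 : F) * (-16 * y ^ 4 - 4 * y ^ 3 + 10 * y ^ 2 - 1) = 0 := by linear_combination e2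
    exact (mul_eq_zero.1 this).resolve_left h8
  rcases mul_eq_zero.1 k1 with k | k
  · have y0 : y = 0 := by
      rcases pow_eq_zero_iff (two_ne_zero) |>.1 k with h
      exact h
    rw [y0] at k2
    apply one_ne_zero (α := F)
    linear_combination -k2
  · have k3 : (4 : F) * (y * y ^ 2) = 0 := by
      linear_combination -k2 - (8 * y ^ 2 - 1) * k
    have h4 : (4 : F) ≠ 0 := by
      have : (4 : F) = 2 * 2 := by norm_num
      rw [this]; exact mul_ne_zero h2 h2
    have k4 := (mul_eq_zero.1 k3).resolve_left h4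
    have y0 : y = 0 := by
      rcases mul_eq_zero.1 k4 with h | h
      · exact h
      · exact pow_eq_zero_iff (two_ne_zero) |>.1 h
    rw [y0] at k
    apply one_ne_zero (α := F)
    linear_combination -k

end Pool.Agent.Helper61.KP
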