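import Pool.Agent.Helper61.KP.Six
import Pool.Agent.Helper61.KP.SevM

/-!
# Degree seven: the basis
-/

set_option autoImplicit false
set_option linter.unusedSectionVars false

open Matrix
open scoped MatrixGroups

namespace Pool.Agent.Helper61.KP

open Pool.Agent.Helper79.KF Pool.Agent.Helper61.KT

variable {F : Type*} [Field F]

section gen

variable {ι : Type*} [Fintype ι] [DecidableEq ι] {A A' B B' C P Q : Matrix ι ι F}

theorem sign_of {X M : Matrix ι ι F} (h2 : (2 : F) ≠ 0) (hr : X.rank ≤ 1)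
    (hx : X * X = (4 : F) • X) (hne : X ≠ 0) (hc : M * X = X * M) (hm : M * M = 1) :
    M * X = X ∨ M * X = -X := by
  have h4 := four_ne h2
  have h1 := sandwich1 hr M
  have e1 : X * M * X = (4 : F) • (M * X) := by
    rw [← hc, mul_assoc, hx, mul_smul_comm]
  rw [e1] at h1
  set t := (M * X).trace with ht
  have h3 : (4 : F) • X = t • (M * X) := by
    have h5 := congrArg (fun Y => M * Y) h1
    simp only [mul_smul_comm, ← mul_assoc, hm, one_mul] at h5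
    exact h5
  have h5 : ((t - 4) * (t + 4)) • X = 0 := by
    have h6 : (4 : F) • ((4 : F) • X) = t • (t • X) := by
      rw [h3, smul_comm, h1]
    have h7 : ((t - 4) * (t + 4)) • X = t • (t • X) - (4 : F) • ((4 : F) • X) := by
      module
    rw [h7, h6, sub_self]
  have h6 := (smul_eq_zero.1 h5).resolve_right hne
  rcases mul_eq_zero.1 h6 with h7 | h7
  · left
    have h8 : t = 4 := by linear_combination h7
    rw [h8] at h1
    have h9 : (4 : F) • (M * X - X) = 0 := by rw [smul_sub, h1, sub_self]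
    exact sub_eq_zero.1 ((smul_eq_zero.1 h9).resolve_left h4)
  · right
    have h8 : t = -4 := by linear_combination h7
    rw [h8] at h1
    have h9 : (4 : F) • (M * X + X) = 0 := by rw [smul_add, h1]; module
    exact eq_neg_of_add_eq_zero_left ((smul_eq_zero.1 h9).resolve_left h4)

/-- if `Q` acts as `-1` on `X0` then `A` fixes it -/
theorem a_fix_neg (h : RR A A' B B' C P Q) (hq : Q * X0 C P = -X0 C P) :
    A * X0 C P = X0 C P := by
  have e2 : A' * X0 C P = A * X0 C P := by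
    have h1 : A' * X0 C P = -(A' * (Q * X0 C P)) := by rw [hq, mul_neg, neg_neg]
    rw [h1, ← mul_assoc, ← h.qa, mul_assoc, a_x0 h, ← mul_assoc, hq, neg_mul, neg_neg]
  have e3 : X0 C P = A' * X0 C P := by
    calc X0 C P = A * (A' * X0 C P) := by rw [← mul_assoc, h.aai, one_mul]
      _ = A * (A * X0 C P) := by rw [e2]
      _ = A' * X0 C P := by rw [← mul_assoc, h.aa]
  rw [← e2]; exact e3.symm

theorem a_fix1 (h : RR A A' B B' C P Q) (h2 : (2 : F) ≠ 0) (hr : (X0 C P).rank ≤ 1)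
    (hne : X0 C P ≠ 0) : A * X0 C P = X0 C P := by
  rcases sign_of h2 hr (by rw [x0_sq h, four]) hne (q_x0 h) h.qq with e | e
  · exact a_fix h (by rw [← q_x0 h, e])
  · exact a_fix_neg h e

theorem low (h : RR A A' B B' C P Q) {v : ι → F} (cv : C *ᵥ v = v) (pv : P *ᵥ v = -v) :
    C *ᵥ (A *ᵥ v) = -(A *ᵥ v) ∧ P *ᵥ (A *ᵥ v) = -(A *ᵥ v) ∧ C *ᵥ (A' *ᵥ v) = -(A' *ᵥ v) ∧
      P *ᵥ (A' *ᵥ v) = A' *ᵥ v := by
  have c2 : C *ᵥ (A *ᵥ v) = -(A *ᵥ v) := by rw [← app h.ap v, pv, mulVec_neg]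
  have p1 : P *ᵥ (A' *ᵥ v) = A' *ᵥ v := by rw [← app h.aic v, cv]
  have c1 : C *ᵥ (A' *ᵥ v) = -(A' *ᵥ v) := by
    have k1 := app3 h.aip v
    rw [pv, mulVec_neg, p1] at k1
    exact k1.symm
  have p2 : P *ᵥ (A *ᵥ v) = -(A *ᵥ v) := by
    have k1 := app3 h.ac v
    rw [cv] at k1
    have k2 := congrArg (fun w => C *ᵥ w) k1
    rw [c2, app0 h.cc] at k2
    exact k2.symm
  exact ⟨c2, p2, c1, p1⟩

end gen

/-- three vectors -/
structure Fr (A A' B B' C P Q : Matrix (Fin 7) (Fin 7) F) (e0 e3 e4 : Fin 7 → F) : Prop where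
  n0 : e0 ≠ 0
  n3 : e3 ≠ 0
  n4 : e4 ≠ 0
  c0 : C *ᵥ e0 = e0
  p0 : P *ᵥ e0 = e0
  q0 : Q *ᵥ e0 = -e0
  a0 : A *ᵥ e0 = e0
  c3 : C *ᵥ e3 = e3
  p3 : P *ᵥ e3 = -e3
  q3 : Q *ᵥ e3 = e3
  b3 : B *ᵥ e3 = e3
  c4 : C *ᵥ e4 = e4
  p4 : P *ᵥ e4 = -e4
  q4 : Q *ᵥ e4 = -e4

variable {A A' B B' C P Q : Matrix (Fin 7) (Fin 7) F}

theorem Fr.smul {e0 e3 e4 : Fin 7 → F} (f : Fr A A' B B' C P Q e0 e3 e4) {s : F} (hs : s ≠ 0) :
    Fr A A' B B' C P Q (s • e0) e3 e4 :=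
  ⟨smul_ne_zero hs f.n0, f.n3, f.n4, by rw [mulVec_smul, f.c0], by rw [mulVec_smul, f.p0],
    by rw [mulVec_smul, f.q0, smul_neg], by rw [mulVec_smul, f.a0], f.c3, f.p3, f.q3, f.b3, f.c4,
    f.p4, f.q4⟩

theorem exists_fr (h : RR A A' B B' C P Q) (h2 : (2 : F) ≠ 0) (hr3 : 2 ≤ (X3 C P).rank)
    (hrP : (X0 C P).rank ≤ 1) (hrQ : (X0 C Q).rank ≤ 1) (hP : X0 C P ≠ 0) (hQ : X0 C Q ≠ 0)
    (hq : Q * X0 C P = -X0 C P) : ∃ e0 e3 e4, Fr A A' B B' C P Q e0 e3 e4 := by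
  have h4 := four_ne h2
  have hs := h.symm
  have vec : ∀ X : Matrix (Fin 7) (Fin 7) F, X ≠ 0 → ∃ v, X *ᵥ v ≠ 0 := by
    intro X hX
    by_contra hcon
    push Not at hcon
    apply hX
    apply Matrix.toLin'.injective
    refine LinearMap.ext fun v => ?_
    rw [toLin'_apply, hcon v, map_zero, LinearMap.zero_apply]
  obtain ⟨u, hu⟩ := vec _ hP
  obtain ⟨u', hu'⟩ := vec _ hQ
  have a0 := a_fix1 h h2 hrP hP
  have b0 := a_fix1 hs h2 hrQ hQ
  -- `P` acts as `-1` on the fixed vectors of `C, Q`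
  have hp : P * X0 C Q = -X0 C Q := by
    rcases sign_of h2 hrQ (by rw [x0_sq hs, four]) hQ (q_x0 hs) h.pp with e | e
    · exfalso
      have k1 : X0 C P * X0 C Q = (4 : F) • X0 C Q := by
        have : X0 C P = (1 + C) * (1 + P) := rfl
        rw [this, mul_assoc, add_mul 1 P, one_mul, e, add_mul 1 C, one_mul, mul_add, c_x0 hs]
        module
      have k2 : Q * X0 C Q = X0 C Q := p_x0 hs
      have k3 : Q * (X0 C P * X0 C Q) = -(X0 C P * X0 C Q) := by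
        rw [← mul_assoc, hq, neg_mul]
      rw [k1, mul_smul_comm, k2] at k3
      have k4 : (2 * 4 : F) • X0 C Q = 0 := by
        have : (2 * 4 : F) • X0 C Q = (4 : F) • X0 C Q + (4 : F) • X0 C Q := by module
        rw [this]
        nth_rewrite 1 [k3]
        rw [neg_add_cancel]
      exact hQ ((smul_eq_zero.1 k4).resolve_left (mul_ne_zero h2 h4))
    · exact e
  -- the third vector
  have h3 : (1 - Q) * X3 C P ≠ 0 := by
    intro h0
    have k1 : Q * X3 C P = X3 C P := by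
      rw [sub_mul, one_mul, sub_eq_zero] at h0
      exact h0.symm
    have k2 : X0 C Q * X3 C P = (4 : F) • X3 C P := by
      have : X0 C Q = (1 + C) * (1 + Q) := rfl
      rw [this, mul_assoc, add_mul 1 Q, one_mul, k1, add_mul 1 C, one_mul, mul_add, c_x3 h]
      module
    have k3 : (X3 C P).rank ≤ (X0 C Q).rank := by
      refine rank_conj_le (S := (4 : F)⁻¹ • 1) (T := X3 C P) ?_
      rw [smul_mul_assoc, one_mul, smul_mul_assoc, k2, smul_smul, inv_mul_cancel₀ h4, one_smul]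
    omega
  obtain ⟨u'', hu''⟩ := vec _ h3
  refine ⟨X0 C P *ᵥ u, X0 C Q *ᵥ u', ((1 - Q) * X3 C P) *ᵥ u'', hu, hu', hu'', ?_, ?_, ?_, ?_, ?_,
    ?_, ?_, ?_, ?_, ?_, ?_⟩
  · rw [mulVec_mulVec, c_x0 h]
  · rw [mulVec_mulVec, p_x0 h]
  · rw [mulVec_mulVec, hq, neg_mulVec]
  · rw [mulVec_mulVec, a0]
  · rw [mulVec_mulVec, c_x0 hs]
  · rw [mulVec_mulVec, hp, neg_mulVec]
  · rw [mulVec_mulVec, p_x0 hs]
  · rw [mulVec_mulVec, b0]
  · rw [mulVec_mulVec]
    congr 1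
    have kc : C * (1 - Q) = (1 - Q) * C := by rw [mul_sub, sub_mul, mul_one, one_mul, h.qc]
    rw [← mul_assoc, kc, mul_assoc, c_x3 h]
  · rw [mulVec_mulVec, ← neg_mulVec]
    congr 1
    have k1 : P * Q = C * (Q * P) := by
      rw [h.qp, ← mul_assoc, h.cc, one_mul]
    have k2 : P * (Q * X3 C P) = -(Q * X3 C P) := by
      rw [← mul_assoc, k1, mul_assoc, mul_assoc, p_x3 h, mul_neg, mul_neg, ← mul_assoc, ← h.qc,
        mul_assoc, c_x3 h]
    rw [sub_mul, one_mul, mul_sub, p_x3 h, k2]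
    abel
  · rw [mulVec_mulVec, ← neg_mulVec]
    congr 1
    rw [sub_mul, one_mul, mul_sub, ← mul_assoc Q Q, h.qq, one_mul]
    abel

end Pool.Agent.Helper61.KP
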