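import Pool.Agent.Helper61.KP.SevA

/-!
# Degree seven: the matrices
-/

set_option autoImplicit false
set_option linter.unusedSectionVars false

open Matrix
open scoped MatrixGroups

namespace Pool.Agent.Helper61.KP

open Pool.Agent.Helper79.KF Pool.Agent.Helper61.KT

variable {F : Type*} [Field F]

/-- the linear combination of seven vectors -/
def lc (v0 v1 v2 v3 v4 v5 v6 : Fin 7 → F) (x : Fin 7 → F) : Fin 7 → F :=
  x 0 • v0 + x 1 • v1 + x 2 • v2 + x 3 • v3 + x 4 • v4 + x 5 • v5 + x 6 • v6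

theorem lc_mat (v0 v1 v2 v3 v4 v5 v6 : Fin 7 → F) :
    ∃ G : Matrix (Fin 7) (Fin 7) F, ∀ x, G *ᵥ x = lc v0 v1 v2 v3 v4 v5 v6 x := by
  refine ⟨Matrix.of fun i j => (![v0, v1, v2, v3, v4, v5, v6] : Fin 7 → Fin 7 → F) j i, ?_⟩
  intro x
  ext i
  simp only [lc, Matrix.mulVec, dotProduct, Fin.sum_univ_seven, Matrix.of_apply, Pi.add_apply,
    Pi.smul_apply, smul_eq_mul, Matrix.cons_val_zero, Matrix.cons_val_one, Matrix.cons_val]
  ring

theorem trace_eq {n : ℕ} {G W M : Matrix (Fin n) (Fin n) F} (hG : ∀ x, G *ᵥ x = 0 → x = 0)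
    (h : ∀ x, W *ᵥ (G *ᵥ x) = G *ᵥ (M *ᵥ x)) : W.trace = M.trace := by
  have hinj : Function.Injective G.mulVec := by
    intro x y hxy
    have : G *ᵥ (x - y) = 0 := by rw [mulVec_sub, sub_eq_zero]; exact hxy
    exact sub_eq_zero.1 (hG _ this)
  obtain ⟨u, rfl⟩ := Matrix.mulVec_injective_iff_isUnit.1 hinj
  have e : W * (u : Matrix (Fin n) (Fin n) F) = (u : Matrix (Fin n) (Fin n) F) * M := by
    apply Matrix.toLin'.injective
    refine LinearMap.ext fun x => ?_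
    rw [toLin'_apply, toLin'_apply, ← mulVec_mulVec, ← mulVec_mulVec, h]
  have e2 : M = ((u⁻¹ : (Matrix (Fin n) (Fin n) F)ˣ) : Matrix (Fin n) (Fin n) F) *
      (W * (u : Matrix (Fin n) (Fin n) F)) := by
    rw [e, ← mul_assoc, Units.inv_mul, one_mul]
  rw [e2, trace_mul_comm, mul_assoc, Units.mul_inv, mul_one]

variable {A A' B B' C P Q : Matrix (Fin 7) (Fin 7) F}

/-- the seven vectors are independent -/
theorem Fr.ind (h : RR A A' B B' C P Q) (h2 : (2 : F) ≠ 0) {e0 e3 e4 : Fin 7 → F}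
    (f : Fr A A' B B' C P Q e0 e3 e4) (x : Fin 7 → F)
    (hx : lc e0 e3 (A' *ᵥ e3) (A *ᵥ e3) e4 (A' *ᵥ e4) (A *ᵥ e4) x = 0) : x = 0 := by
  obtain ⟨r1, r2, r3, r4⟩ := low h f.c3 f.p3
  obtain ⟨s1, s2, s3, s4⟩ := low h f.c4 f.p4
  simp only [lc] at hx
  have k1 := congrArg (fun w => C *ᵥ w) hx
  simp only [mulVec_add, mulVec_smul, f.c0, f.c3, f.c4, r1, r3, s1, s3, mulVec_zero] at k1
  have k2 : x 0 • e0 + x 1 • e3 + x 4 • e4 = 0 := by
    refine (smul_eq_zero.1 (?_ : (2 : F) • (x 0 • e0 + x 1 • e3 + x 4 • e4) = 0)).resolve_left h2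
    rw [← add_zero (0 : Fin 7 → F)]
    nth_rewrite 1 [← hx]
    rw [← k1]
    module
  have k3 : x 2 • (A' *ᵥ e3) + x 3 • (A *ᵥ e3) + x 5 • (A' *ᵥ e4) + x 6 • (A *ᵥ e4) = 0 := by
    rw [← hx]
    nth_rewrite 1 [← add_zero (x 2 • (A' *ᵥ e3) + x 3 • (A *ᵥ e3) + x 5 • (A' *ᵥ e4) +
      x 6 • (A *ᵥ e4))]
    rw [← k2]
    module
  -- pairs
  have two : ∀ a b : F, a • e3 + b • e4 = 0 → a = 0 ∧ b = 0 := by
    intro a b hab
    have m1 := congrArg (fun w => Q *ᵥ w) hab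
    simp only [mulVec_add, mulVec_smul, f.q3, f.q4, mulVec_zero] at m1
    have m2 : (2 * a) • e3 = 0 := by
      have : (2 * a) • e3 = (a • e3 + b • e4) + (a • e3 + b • -e4) := by module
      rw [this, hab, m1, add_zero]
    have m3 : (2 * b) • e4 = 0 := by
      have : (2 * b) • e4 = (a • e3 + b • e4) - (a • e3 + b • -e4) := by module
      rw [this, hab, m1, sub_zero]
    exact ⟨(mul_eq_zero.1 ((smul_eq_zero.1 m2).resolve_right f.n3)).resolve_left h2,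
      (mul_eq_zero.1 ((smul_eq_zero.1 m3).resolve_right f.n4)).resolve_left h2⟩
  have k4 := congrArg (fun w => P *ᵥ w) k2
  simp only [mulVec_add, mulVec_smul, f.p0, f.p3, f.p4, mulVec_zero] at k4
  have k5 : (2 * x 0) • e0 = 0 := by
    have : (2 * x 0) • e0 = (x 0 • e0 + x 1 • e3 + x 4 • e4) + (x 0 • e0 + x 1 • -e3 +
      x 4 • -e4) := by module
    rw [this, k2, k4, add_zero]
  have z0 := (mul_eq_zero.1 ((smul_eq_zero.1 k5).resolve_right f.n0)).resolve_left h2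
  rw [z0, zero_smul, zero_add] at k2
  obtain ⟨z1, z4⟩ := two _ _ k2
  have k6 := congrArg (fun w => P *ᵥ w) k3
  simp only [mulVec_add, mulVec_smul, r2, r4, s2, s4, mulVec_zero] at k6
  have k7 : x 2 • (A' *ᵥ e3) + x 5 • (A' *ᵥ e4) = 0 := by
    refine (smul_eq_zero.1 (?_ : (2 : F) • (x 2 • (A' *ᵥ e3) + x 5 • (A' *ᵥ e4)) = 0)).resolve_left
      h2
    rw [← add_zero (0 : Fin 7 → F)]
    nth_rewrite 1 [← k3]
    rw [← k6]
    module
  have k8 : x 3 • (A *ᵥ e3) + x 6 • (A *ᵥ e4) = 0 := by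
    rw [← k3]
    nth_rewrite 1 [← add_zero (x 3 • (A *ᵥ e3) + x 6 • (A *ᵥ e4))]
    rw [← k7]
    module
  have k9 := congrArg (fun w => A *ᵥ w) k7
  simp only [mulVec_add, mulVec_smul, app0 h.aai, mulVec_zero] at k9
  have k10 := congrArg (fun w => A' *ᵥ w) k8
  simp only [mulVec_add, mulVec_smul, app0 h.aia, mulVec_zero] at k10
  obtain ⟨z2, z5⟩ := two _ _ k9
  obtain ⟨z3, z6⟩ := two _ _ k10
  ext i
  fin_cases i
  · exact z0
  · exact z1
  · exact z2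
  · exact z3
  · exact z4
  · exact z5
  · exact z6

/-- the vectors with `C = -1`, `Q = 1` -/
theorem Fr.dec (h : RR A A' B B' C P Q) (h2 : (2 : F) ≠ 0) {e0 e3 e4 : Fin 7 → F}
    (f : Fr A A' B B' C P Q e0 e3 e4) (u : Fin 7 → F) (cu : C *ᵥ u = -u) (qu : Q *ᵥ u = u) :
    ∃ a b : F, u = a • (A' *ᵥ e3 + A *ᵥ e3) + b • (A' *ᵥ e4 - A *ᵥ e4) := by
  obtain ⟨r1, r2, r3, r4⟩ := low h f.c3 f.p3
  obtain ⟨s1, s2, s3, s4⟩ := low h f.c4 f.p4
  have q1 : Q *ᵥ (A' *ᵥ e3) = A *ᵥ e3 := by rw [app h.qai, f.q3]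
  have q2 : Q *ᵥ (A *ᵥ e3) = A' *ᵥ e3 := by rw [app h.qa, f.q3]
  have q5 : Q *ᵥ (A' *ᵥ e4) = -(A *ᵥ e4) := by rw [app h.qai, f.q4, mulVec_neg]
  have q6 : Q *ᵥ (A *ᵥ e4) = -(A' *ᵥ e4) := by rw [app h.qa, f.q4, mulVec_neg]
  obtain ⟨G, hG⟩ := lc_mat e0 e3 (A' *ᵥ e3) (A *ᵥ e3) e4 (A' *ᵥ e4) (A *ᵥ e4)
  have hinj : Function.Injective G.mulVec := by
    intro x y hxy
    have : G *ᵥ (x - y) = 0 := by rw [mulVec_sub, sub_eq_zero]; exact hxy
    rw [hG] at this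
    exact sub_eq_zero.1 (f.ind h h2 _ this)
  obtain ⟨v, hv⟩ := Matrix.mulVec_injective_iff_isUnit.1 hinj
  obtain ⟨x, hx⟩ : ∃ x, G *ᵥ x = u := by
    refine ⟨((v⁻¹ : (Matrix (Fin 7) (Fin 7) F)ˣ) : Matrix (Fin 7) (Fin 7) F) *ᵥ u, ?_⟩
    rw [← hv, mulVec_mulVec, Units.mul_inv, one_mulVec]
  rw [hG] at hx
  have hx' := hx
  simp only [lc] at hx'
  have k1 := congrArg (fun w => C *ᵥ w) hx'
  simp only [mulVec_add, mulVec_smul, f.c0, f.c3, f.c4, r1, r3, s1, s3, cu] at k1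
  have k2 := f.ind h h2 ![2 * x 0, 2 * x 1, 0, 0, 2 * x 4, 0, 0] (by
    simp only [lc, Matrix.cons_val_zero, Matrix.cons_val_one, Matrix.cons_val]
    have : (0 : Fin 7 → F) = u + -u := by rw [add_neg_cancel]
    rw [this, ← k1]
    nth_rewrite 1 [← hx']
    module)
  have k3 := congrArg (fun w => Q *ᵥ w) hx'
  simp only [mulVec_add, mulVec_smul, f.q0, f.q3, f.q4, q1, q2, q5, q6, qu] at k3
  have k4 := f.ind h h2 ![2 * x 0, 0, x 2 - x 3, x 3 - x 2, 2 * x 4, x 5 + x 6, x 5 + x 6] (by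
    simp only [lc, Matrix.cons_val_zero, Matrix.cons_val_one, Matrix.cons_val]
    have : (0 : Fin 7 → F) = u - u := by rw [sub_self]
    rw [this]
    nth_rewrite 1 [← hx']
    rw [← k3]
    module)
  have y0 : x 0 = 0 := by
    have := congrFun k2 0
    simp only [Matrix.cons_val_zero, Pi.zero_apply] at this
    exact (mul_eq_zero.1 this).resolve_left h2
  have y1 : x 1 = 0 := by
    have := congrFun k2 1
    simp only [Matrix.cons_val_one, Matrix.cons_val_zero, Pi.zero_apply] at this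
    exact (mul_eq_zero.1 this).resolve_left h2
  have y4 : x 4 = 0 := by
    have := congrFun k2 4
    simp only [Matrix.cons_val, Pi.zero_apply] at this
    exact (mul_eq_zero.1 this).resolve_left h2
  have y3 : x 3 = x 2 := by
    have := congrFun k4 3
    simp only [Matrix.cons_val, Pi.zero_apply] at this
    exact sub_eq_zero.1 this
  have y6 : x 6 = -x 5 := by
    have := congrFun k4 6
    simp only [Matrix.cons_val, Pi.zero_apply] at this
    linear_combination this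
  refine ⟨x 2, x 5, ?_⟩
  rw [← hx', y0, y1, y4, y3, y6]
  module

end Pool.Agent.Helper61.KP
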