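import Pool.Agent.Helper61.KP.SevB

/-!
# Degree seven: the traces
-/

set_option autoImplicit false
set_option linter.unusedSectionVars false

open Matrix
open scoped MatrixGroups

namespace Pool.Agent.Helper61.KP

open Pool.Agent.Helper79.KF Pool.Agent.Helper61.KT

variable {F : Type*} [Field F] {A A' B B' C P Q : Matrix (Fin 7) (Fin 7) F}

/-- the action of `2 B` and `2 B⁻¹` on the basis -/
theorem Fr.act (h : RR A A' B B' C P Q) {e0 e3 e4 : Fin 7 → F}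
    (f : Fr A A' B B' C P Q e0 e3 e4) {y b g d : F} (hD : y * d - b * g = 1)
    (B0 : B' *ᵥ e0 = d • (A' *ᵥ e3 + A *ᵥ e3) - b • (A' *ᵥ e4 - A *ᵥ e4))
    (B4 : B' *ᵥ e4 = -(g • (A' *ᵥ e3 + A *ᵥ e3)) + y • (A' *ᵥ e4 - A *ᵥ e4)) :
    (B *ᵥ e0 = d • (A' *ᵥ e3 - A *ᵥ e3) - b • (A' *ᵥ e4 + A *ᵥ e4) ∧
      B *ᵥ e4 = g • (A' *ᵥ e3 - A *ᵥ e3) - y • (A' *ᵥ e4 + A *ᵥ e4) ∧
      (2 : F) • (B *ᵥ (A' *ᵥ e3)) = y • e0 + b • e4 + ((y * d + b * g) • (A' *ᵥ e3 + A *ᵥ e3) -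
        (2 * y * b) • (A' *ᵥ e4 - A *ᵥ e4)) ∧
      (2 : F) • (B *ᵥ (A *ᵥ e3)) = y • e0 + b • e4 - ((y * d + b * g) • (A' *ᵥ e3 + A *ᵥ e3) -
        (2 * y * b) • (A' *ᵥ e4 - A *ᵥ e4)) ∧
      (2 : F) • (B *ᵥ (A' *ᵥ e4)) = ((2 * g * d) • (A' *ᵥ e3 + A *ᵥ e3) -
        (y * d + b * g) • (A' *ᵥ e4 - A *ᵥ e4)) + (g • e0 + d • e4) ∧
      (2 : F) • (B *ᵥ (A *ᵥ e4)) = ((2 * g * d) • (A' *ᵥ e3 + A *ᵥ e3) -
        (y * d + b * g) • (A' *ᵥ e4 - A *ᵥ e4)) - (g • e0 + d • e4)) ∧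
    (B' *ᵥ e3 = e3 ∧
      (2 : F) • (B' *ᵥ (A' *ᵥ e3)) = ((y * d + b * g) • (A' *ᵥ e3 - A *ᵥ e3) -
        (2 * y * b) • (A' *ᵥ e4 + A *ᵥ e4)) + (y • e0 - b • e4) ∧
      (2 : F) • (B' *ᵥ (A *ᵥ e3)) = ((y * d + b * g) • (A' *ᵥ e3 - A *ᵥ e3) -
        (2 * y * b) • (A' *ᵥ e4 + A *ᵥ e4)) - (y • e0 - b • e4) ∧
      (2 : F) • (B' *ᵥ (A' *ᵥ e4)) = (g • e0 - d • e4) + ((2 * g * d) • (A' *ᵥ e3 - A *ᵥ e3) -
        (y * d + b * g) • (A' *ᵥ e4 + A *ᵥ e4)) ∧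
      (2 : F) • (B' *ᵥ (A *ᵥ e4)) = (g • e0 - d • e4) - ((2 * g * d) • (A' *ᵥ e3 - A *ᵥ e3) -
        (y * d + b * g) • (A' *ᵥ e4 + A *ᵥ e4))) := by
  obtain ⟨r1, r2, r3, r4⟩ := low h f.c3 f.p3
  obtain ⟨s1, s2, s3, s4⟩ := low h f.c4 f.p4
  have b0 : B *ᵥ e0 = d • (A' *ᵥ e3 - A *ᵥ e3) - b • (A' *ᵥ e4 + A *ᵥ e4) := by
    have k := app h.pbi e0
    rw [f.p0, B0] at k
    rw [← k]
    simp only [mulVec_add, mulVec_sub, mulVec_smul, r2, r4, s2, s4]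
    module
  have b4 : B *ᵥ e4 = g • (A' *ᵥ e3 - A *ᵥ e3) - y • (A' *ᵥ e4 + A *ᵥ e4) := by
    have k := app h.pbi e4
    rw [f.p4, mulVec_neg, B4] at k
    rw [← neg_neg (B *ᵥ e4), ← k]
    simp only [mulVec_add, mulVec_sub, mulVec_smul, mulVec_neg, r2, r4, s2, s4]
    module
  have bw1 : B *ᵥ (A' *ᵥ e3 + A *ᵥ e3) = y • e0 + b • e4 := by
    have k : A' *ᵥ e3 + A *ᵥ e3 = B' *ᵥ (y • e0 + b • e4) := by
      rw [mulVec_add, mulVec_smul, mulVec_smul, B0, B4]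
      calc A' *ᵥ e3 + A *ᵥ e3 = (y * d - b * g) • (A' *ᵥ e3 + A *ᵥ e3) := by rw [hD, one_smul]
        _ = _ := by module
    rw [k, app0 h.bbi]
  have bw2 : B *ᵥ (A' *ᵥ e4 - A *ᵥ e4) = g • e0 + d • e4 := by
    have k : A' *ᵥ e4 - A *ᵥ e4 = B' *ᵥ (g • e0 + d • e4) := by
      rw [mulVec_add, mulVec_smul, mulVec_smul, B0, B4]
      calc A' *ᵥ e4 - A *ᵥ e4 = (y * d - b * g) • (A' *ᵥ e4 - A *ᵥ e4) := by rw [hD, one_smul]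
        _ = _ := by module
    rw [k, app0 h.bbi]
  have bi1 : B' *ᵥ (A' *ᵥ e3 + A *ᵥ e3) = (y * d + b * g) • (A' *ᵥ e3 - A *ᵥ e3) -
        (2 * y * b) • (A' *ᵥ e4 + A *ᵥ e4) := by
    rw [← app1 h.bb, bw1, mulVec_add, mulVec_smul, mulVec_smul, b0, b4]
    module
  have bi2 : B' *ᵥ (A' *ᵥ e4 - A *ᵥ e4) = (2 * g * d) • (A' *ᵥ e3 - A *ᵥ e3) -
        (y * d + b * g) • (A' *ᵥ e4 + A *ᵥ e4) := by
    rw [← app1 h.bb, bw2, mulVec_add, mulVec_smul, mulVec_smul, b0, b4]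
    module
  have pw1 : P *ᵥ (A' *ᵥ e3 + A *ᵥ e3) = A' *ᵥ e3 - A *ᵥ e3 := by
    rw [mulVec_add, r2, r4]; abel
  have pw2 : P *ᵥ (A' *ᵥ e4 - A *ᵥ e4) = A' *ᵥ e4 + A *ᵥ e4 := by
    rw [mulVec_sub, s2, s4]; abel
  have pw1' : P *ᵥ (A' *ᵥ e3 - A *ᵥ e3) = A' *ᵥ e3 + A *ᵥ e3 := by
    rw [mulVec_sub, r2, r4]; abel
  have pw2' : P *ᵥ (A' *ᵥ e4 + A *ᵥ e4) = A' *ᵥ e4 - A *ᵥ e4 := by
    rw [mulVec_add, s2, s4]; abel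
  have bw1' : B *ᵥ (A' *ᵥ e3 - A *ᵥ e3) = (y * d + b * g) • (A' *ᵥ e3 + A *ᵥ e3) -
        (2 * y * b) • (A' *ᵥ e4 - A *ᵥ e4) := by
    have k := app h.pbi (A' *ᵥ e3 + A *ᵥ e3)
    rw [pw1, bi1] at k
    rw [← k, mulVec_sub, mulVec_smul, mulVec_smul, pw1', pw2']
  have bw2' : B *ᵥ (A' *ᵥ e4 + A *ᵥ e4) = (2 * g * d) • (A' *ᵥ e3 + A *ᵥ e3) -
        (y * d + b * g) • (A' *ᵥ e4 - A *ᵥ e4) := by
    have k := app h.pbi (A' *ᵥ e4 - A *ᵥ e4)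
    rw [pw2, bi2] at k
    rw [← k, mulVec_sub, mulVec_smul, mulVec_smul, pw1', pw2']
  have bi1' : B' *ᵥ (A' *ᵥ e3 - A *ᵥ e3) = y • e0 - b • e4 := by
    have k := app h.pb (A' *ᵥ e3 + A *ᵥ e3)
    rw [pw1, bw1] at k
    rw [← k, mulVec_add, mulVec_smul, mulVec_smul, f.p0, f.p4]
    module
  have bi2' : B' *ᵥ (A' *ᵥ e4 + A *ᵥ e4) = g • e0 - d • e4 := by
    have k := app h.pb (A' *ᵥ e4 - A *ᵥ e4)
    rw [pw2, bw2] at k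
    rw [← k, mulVec_add, mulVec_smul, mulVec_smul, f.p0, f.p4]
    module
  have bi3 : B' *ᵥ e3 = e3 := by
    nth_rewrite 1 [← f.b3]
    rw [app0 h.bib]
  refine ⟨⟨b0, b4, ?_, ?_, ?_, ?_⟩, bi3, ?_, ?_, ?_, ?_⟩
  · rw [← bw1, ← bw1', mulVec_add, mulVec_sub]; module
  · rw [← bw1, ← bw1', mulVec_add, mulVec_sub]; module
  · rw [← bw2, ← bw2', mulVec_add, mulVec_sub]; module
  · rw [← bw2, ← bw2', mulVec_add, mulVec_sub]; module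
  · rw [← bi1', ← bi1, mulVec_add, mulVec_sub]; module
  · rw [← bi1', ← bi1, mulVec_add, mulVec_sub]; module
  · rw [← bi2', ← bi2, mulVec_add, mulVec_sub]; module
  · rw [← bi2', ← bi2, mulVec_add, mulVec_sub]; module

theorem Fr.mats (h : RR A A' B B' C P Q) {e0 e3 e4 : Fin 7 → F}
    (f : Fr A A' B B' C P Q e0 e3 e4) {y b g d : F} (hD : y * d - b * g = 1)
    (B0 : B' *ᵥ e0 = d • (A' *ᵥ e3 + A *ᵥ e3) - b • (A' *ᵥ e4 - A *ᵥ e4))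
    (B4 : B' *ᵥ e4 = -(g • (A' *ᵥ e3 + A *ᵥ e3)) + y • (A' *ᵥ e4 - A *ᵥ e4)) (x : Fin 7 → F) :
    ((2 : F) • (A' * B)) *ᵥ lc e0 e3 (A' *ᵥ e3) (A *ᵥ e3) e4 (A' *ᵥ e4) (A *ᵥ e4) x =
      lc e0 e3 (A' *ᵥ e3) (A *ᵥ e3) e4 (A' *ᵥ e4) (A *ᵥ e4) (M1 y b g d *ᵥ x) ∧
    ((2 : F) • (A * B')) *ᵥ lc e0 e3 (A' *ᵥ e3) (A *ᵥ e3) e4 (A' *ᵥ e4) (A *ᵥ e4) x =
      lc e0 e3 (A' *ᵥ e3) (A *ᵥ e3) e4 (A' *ᵥ e4) (A *ᵥ e4) (M2 y b g d *ᵥ x) ∧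
    ((2 : F) • (A' * B')) *ᵥ lc e0 e3 (A' *ᵥ e3) (A *ᵥ e3) e4 (A' *ᵥ e4) (A *ᵥ e4) x =
      lc e0 e3 (A' *ᵥ e3) (A *ᵥ e3) e4 (A' *ᵥ e4) (A *ᵥ e4) (M3 y b g d *ᵥ x) := by
  obtain ⟨⟨b0, b4, t1, t2, t5, t6⟩, bi3, u1, u2, u5, u6⟩ := f.act h hD B0 B4
  have a0' : A' *ᵥ e0 = e0 := by
    nth_rewrite 1 [← f.a0]
    rw [app0 h.aia]
  have aiai : A' * A' = A := by
    calc A' * A' = A' * (A * A) := by rw [h.aa]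
      _ = A := by rw [← mul_assoc, h.aia, one_mul]
  have e : ∀ X Y : Matrix (Fin 7) (Fin 7) F, ∀ v0 v1 v2 v3 v4 v5 v6 : Fin 7 → F,
      ((2 : F) • (X * Y)) *ᵥ lc v0 v1 v2 v3 v4 v5 v6 x =
        X *ᵥ (x 0 • ((2 : F) • (Y *ᵥ v0)) + x 1 • ((2 : F) • (Y *ᵥ v1)) +
          x 2 • ((2 : F) • (Y *ᵥ v2)) + x 3 • ((2 : F) • (Y *ᵥ v3)) +
          x 4 • ((2 : F) • (Y *ᵥ v4)) + x 5 • ((2 : F) • (Y *ᵥ v5)) +
          x 6 • ((2 : F) • (Y *ᵥ v6))) := by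
    intro X Y v0 v1 v2 v3 v4 v5 v6
    simp only [lc, smul_mulVec, ← mulVec_mulVec, mulVec_add, mulVec_smul]
  refine ⟨?_, ?_, ?_⟩
  · rw [e, t1, t2, t5, t6, b0, b4, f.b3]
    simp only [mulVec_add, mulVec_sub, mulVec_smul, a0', app0 h.aia, app1 aiai]
    simp only [lc, M1, Matrix.mulVec, dotProduct, Fin.sum_univ_seven, Matrix.of_apply,
      Matrix.cons_val', Matrix.cons_val_zero, Matrix.cons_val_one, Matrix.cons_val,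
      Matrix.cons_val_fin_one]
    module
  · rw [e, u1, u2, u5, u6, B0, B4, bi3]
    simp only [mulVec_add, mulVec_sub, mulVec_smul, mulVec_neg, f.a0, app0 h.aai, app1 h.aa]
    simp only [lc, M2, Matrix.mulVec, dotProduct, Fin.sum_univ_seven, Matrix.of_apply,
      Matrix.cons_val', Matrix.cons_val_zero, Matrix.cons_val_one, Matrix.cons_val,
      Matrix.cons_val_fin_one]
    module
  · rw [e, u1, u2, u5, u6, B0, B4, bi3]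
    simp only [mulVec_add, mulVec_sub, mulVec_smul, mulVec_neg, a0', app0 h.aia, app1 aiai]
    simp only [lc, M3, Matrix.mulVec, dotProduct, Fin.sum_univ_seven, Matrix.of_apply,
      Matrix.cons_val', Matrix.cons_val_zero, Matrix.cons_val_one, Matrix.cons_val,
      Matrix.cons_val_fin_one]
    module

end Pool.Agent.Helper61.KP
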