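import Pool.Agent.Helper61.KP.SevD

/-!
# Linear representations of degree at most seven
-/

set_option autoImplicit false
set_option linter.unusedSectionVars false

open Matrix
open scoped MatrixGroups

namespace Pool.Agent.Helper61.KP

open Pool.Agent.Helper79.KF Pool.Agent.Helper61.KT

variable {F : Type*} [Field F]

theorem trivial_end6 (h2 : (2 : F) ≠ 0) {U : Type*} [AddCommGroup U] [Module F U]
    [FiniteDimensional F U] (hU : Module.finrank F U ≤ 6) (ρ : K →* Module.End F U) : ρ = 1 := by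
  let b := Module.finBasis F U
  let e : Module.End F U →* Matrix (Fin (Module.finrank F U)) (Fin (Module.finrank F U)) F :=
    (LinearMap.toMatrixAlgEquiv b).toRingEquiv.toRingHom.toMonoidHom
  have h := trivial_six (isUnit_iff_ne_zero.2 h2) hU (e.comp ρ).toHomUnits
  refine MonoidHom.ext fun k => ?_
  have h1 := DFunLike.congr_fun h k
  have h2 := congrArg (fun g : GL (Fin (Module.finrank F U)) F =>
    (g : Matrix (Fin (Module.finrank F U)) (Fin (Module.finrank F U)) F)) h1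
  have h3 : LinearMap.toMatrixAlgEquiv b (ρ k) = LinearMap.toMatrixAlgEquiv b 1 := by
    rw [map_one]; exact h2
  exact (LinearMap.toMatrixAlgEquiv b).injective h3

section fix

variable {ι : Type*} [Fintype ι] [DecidableEq ι]

theorem fix_trivial6 (h2 : (2 : F) ≠ 0) (φ : K →* GL ι F) (Z : Matrix ι ι F)
    (hfix : ∀ k, (φ k : Matrix ι ι F) * Z = Z ∧ Z * (φ k : Matrix ι ι F) = Z)
    (hr : ((4 : F) • 1 - Z).rank ≤ 6) : φ = 1 := by
  have h4 := four_ne h2
  set E : Matrix ι ι F := 1 - (4 : F)⁻¹ • Z with hE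
  have hcomm : ∀ k, (φ k : Matrix ι ι F) * E = E * (φ k : Matrix ι ι F) := by
    intro k
    rw [hE, mul_sub, sub_mul, mul_one, one_mul, mul_smul_comm, smul_mul_assoc, (hfix k).1,
      (hfix k).2]
  have hrE : Module.finrank F (LinearMap.range E.mulVecLin) ≤ 6 := by
    have : E.rank ≤ ((4 : F) • (1 : Matrix ι ι F) - Z).rank := by
      refine rank_conj_le (S := (4 : F)⁻¹ • 1) (T := 1) ?_
      rw [mul_one, smul_mul_assoc, one_mul, smul_sub, smul_smul, inv_mul_cancel₀ h4, one_smul]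
    exact le_trans this hr
  have hmap : ∀ k, ∀ x ∈ LinearMap.range E.mulVecLin,
      (φ k : Matrix ι ι F).mulVecLin x ∈ LinearMap.range E.mulVecLin := by
    rintro k _ ⟨v, rfl⟩
    refine ⟨(φ k : Matrix ι ι F) *ᵥ v, ?_⟩
    rw [mulVecLin_apply, mulVecLin_apply, mulVecLin_apply, mulVec_mulVec, mulVec_mulVec, hcomm]
  let ρ : K →* Module.End F (LinearMap.range E.mulVecLin) :=
    { toFun := fun k => ((φ k : Matrix ι ι F).mulVecLin).restrict (hmap k)
      map_one' := by
        ext x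
        simp
      map_mul' := by
        intro k l
        ext x
        simp [mulVec_mulVec] }
  have hρ := trivial_end6 h2 hrE ρ
  refine MonoidHom.ext fun k => Units.ext ?_
  have h1 : (φ k : Matrix ι ι F) * E = E := by
    apply Matrix.toLin'.injective
    refine LinearMap.ext fun v => ?_
    have h3 := DFunLike.congr_fun hρ k
    have h4 := congrArg (fun T : Module.End F (LinearMap.range E.mulVecLin) =>
      ((T ⟨E.mulVecLin v, ⟨v, rfl⟩⟩ : LinearMap.range E.mulVecLin) : ι → F)) h3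
    have h5 : (φ k : Matrix ι ι F).mulVecLin (E.mulVecLin v) = E.mulVecLin v := h4
    rw [mulVecLin_apply, mulVecLin_apply, mulVec_mulVec] at h5
    rw [toLin'_apply, toLin'_apply, h5]
  have h5 : (1 : Matrix ι ι F) = E + (4 : F)⁻¹ • Z := by rw [hE, sub_add_cancel]
  calc (φ k : Matrix ι ι F) = (φ k : Matrix ι ι F) * (E + (4 : F)⁻¹ • Z) := by
        rw [← h5, mul_one]
    _ = E + (4 : F)⁻¹ • Z := by rw [mul_add, h1, mul_smul_comm, (hfix k).1]
    _ = ((1 : K →* GL ι F) k : Matrix ι ι F) := by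
        rw [← h5, MonoidHom.one_apply, Units.val_one]

/-- a common fixed vector of `A` and `B` -/
theorem alpha {A A' B B' C P Q : Matrix ι ι F} (h : RR A A' B B' C P Q) (h2 : (2 : F) ≠ 0)
    (hrP : (X0 C P).rank ≤ 1) (hrQ : (X0 C Q).rank ≤ 1) (hP : X0 C P ≠ 0) (hQ : X0 C Q ≠ 0)
    (hq : Q * X0 C P = X0 C P) :
    A * X0 C P = X0 C P ∧ X0 C P * A = X0 C P ∧ B * X0 C P = X0 C P ∧ X0 C P * B = X0 C P := by
  have h4 := four_ne h2
  have hs := h.symm
  have a1 := a_fix1 h h2 hrP hP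
  have b1 := a_fix1 hs h2 hrQ hQ
  have e1 : X0 C Q * X0 C P = (4 : F) • X0 C P := by
    have : X0 C Q = (1 + C) * (1 + Q) := rfl
    rw [this, mul_assoc, add_mul 1 Q, one_mul, hq, add_mul 1 C, one_mul, mul_add, c_x0 h]
    module
  have e2 : X0 C P * X0 C Q = (4 : F) • X0 C P := by rw [← x0_comm h, e1]
  refine ⟨a1, by rw [← a_x0 h, a1], ?_, ?_⟩
  · have k : (4 : F) • (B * X0 C P) = (4 : F) • X0 C P := by
      rw [← mul_smul_comm, ← e1, ← mul_assoc, b1]
    exact smul_right_injective _ h4 k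
  · have k : (4 : F) • (X0 C P * B) = (4 : F) • X0 C P := by
      rw [← smul_mul_assoc, ← e2, mul_assoc, ← a_x0 hs, b1]
    exact smul_right_injective _ h4 k

end fix

section cases

variable {A A' B B' C P Q D P' Q' : Matrix (Fin 7) (Fin 7) F}

/-- degree seven: the cases -/
theorem cases7 (h : RR A A' B B' C P Q) (k : RR A A' B' B D P' Q') (h2 : (2 : F) ≠ 0) :
    ((C - 1).rank ≤ 2 ∨ X0 C P = 0) ∨ (X0 C P ≠ 0 ∧ A * X0 C P = X0 C P ∧ X0 C P * A = X0 C P ∧
      B * X0 C P = X0 C P ∧ X0 C P * B = X0 C P) := by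
  have hs := h.symm
  have r1 := rank_sum_neg h h2
  rw [Fintype.card_fin] at r1
  have r2 := rank_half h h2
  have r2' := rank_half hs h2
  have r3 := rank_x30 h h2
  have r3' := rank_x30 hs h2
  by_cases hr : (X3 C P).rank ≤ 1
  · left; left; omega
  by_cases hP : X0 C P = 0
  · left; right; exact hP
  have hQ : X0 C Q ≠ 0 := fun h0 => hP (x0_symm hs h2 h0)
  right
  have hrP : (X0 C P).rank ≤ 1 := by omega
  have hrQ : (X0 C Q).rank ≤ 1 := by omega
  rcases sign_of h2 hrP (by rw [x0_sq h, four]) hP (q_x0 h) h.qq with e | e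
  · exact ⟨hP, alpha h h2 hrP hrQ hP hQ e⟩
  · exact (beta_false h k h2 (by omega) hrP hrQ hP hQ e).elim

theorem rank_fix {n : ℕ} {Z : Matrix (Fin (n + 1)) (Fin (n + 1)) F} (h2 : (2 : F) ≠ 0)
    (hZ : Z * Z = (4 : F) • Z) (h0 : Z ≠ 0) : ((4 : F) • 1 - Z).rank ≤ n := by
  have h4 := four_ne h2
  have k := rank_two (X := Z) (Y := (4 : F) • 1 - Z) (Z := (1 : Matrix (Fin (n + 1)) (Fin (n + 1)) F))
    h4 hZ (by rw [mul_sub, mul_smul_comm, mul_one, hZ, sub_self]) ⟨_, (one_mul _).symm⟩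
    ⟨_, (one_mul _).symm⟩
  rw [rank_one, Fintype.card_fin] at k
  have k1 : Z.rank ≠ 0 := fun e => h0 (eq_zero_of_rank e)
  omega

end cases

/-- degree seven, finite image, algebraically closed field -/
theorem closed_seven [IsAlgClosed F] (h2 : (2 : F) ≠ 0) (f : K →* GL (Fin 7) F)
    (hfin : Finite f.range) : f = 1 := by
  have R := allRel f
  have hC : Rel (f (gen 0)) (f (gen 1)) (f (gen 2)) := R.relC
  have hD : Rel (f (gen 0)) (f (gen 1))⁻¹ (f (gen 3)) := R.relD
  have C' := rr hC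
  have D' := rr hD
  rw [inv_inv] at D'
  have fixed : ∀ Z : Matrix (Fin 7) (Fin 7) F, Z ≠ 0 → Z * Z = (4 : F) • Z →
      f (gen 0) ∈ fixer Z → f (gen 1) ∈ fixer Z → f = 1 := by
    intro Z hZ0 hZ ha hb
    refine fix_trivial6 h2 f Z ?_ (rank_fix h2 hZ hZ0)
    have hle : f.range ≤ fixer Z := by
      refine le_trans (gen_of_finite f hfin) ?_
      rw [Subgroup.closure_le]
      rintro y (rfl | hy)
      · exact ha
      · obtain rfl : y = f (gen 1) := hy
        exact hb
    intro k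
    exact hle ⟨k, rfl⟩
  rcases cases7 C' D' h2 with HC | ⟨h0, z1, z2, z3, z4⟩
  · rcases cases7 D' C' h2 with HD | ⟨h0, z1, z2, z3, z4⟩
    · exact closed_gen h2 f hfin HC HD
    · refine fixed _ h0 (by rw [x0_sq D', four]) ⟨z1, z2⟩ ?_
      have hb : (f (gen 1))⁻¹ ∈ fixer (X0 (f (gen 3) : Matrix (Fin 7) (Fin 7) F)
          (((f (gen 0))⁻¹ * f (gen 3) * f (gen 0) : GL (Fin 7) F) : Matrix (Fin 7) (Fin 7) F)) :=
        ⟨z3, z4⟩
      have := inv_mem hb
      rwa [inv_inv] at this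
  · exact fixed _ h0 (by rw [x0_sq C', four]) ⟨z1, z2⟩ ⟨z3, z4⟩

/-- degree at most seven -/
theorem trivial_seven {R : Type*} [CommRing R] (h2 : IsUnit (2 : R)) {n : ℕ} (hn : n ≤ 7)
    (φ : K →* GL (Fin n) R) : φ = 1 := by
  rcases Nat.lt_or_ge 6 n with h7 | h6
  swap
  · exact trivial_six h2 h6 φ
  obtain rfl : n = 7 := by omega
  obtain ⟨y, hy⟩ := h2.exists_right_inv
  refine reduce φ {y} (Set.finite_singleton y) ?_
  intro S hS ψ _ I hI hfin
  have hy2 := two_ne_of hy (hS rfl) hI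
  let _ := Ideal.Quotient.field I
  set χ : K →* GL (Fin 7) (S ⧸ I) :=
    (GeneralLinearGroup.map (n := Fin 7) (Ideal.Quotient.mk I)).comp ψ with hχ
  let k := AlgebraicClosure (S ⧸ I)
  let χ' : K →* GL (Fin 7) k :=
    (GeneralLinearGroup.map (n := Fin 7) (algebraMap (S ⧸ I) k)).comp χ
  have hinj := map_injective (n := 7) (algebraMap (S ⧸ I) k) (algebraMap (S ⧸ I) k).injective
  have h2k : (2 : k) ≠ 0 := by
    intro h0
    apply hy2
    apply (algebraMap (S ⧸ I) k).injective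
    rw [map_ofNat, map_zero]
    exact h0
  have hfin' : Finite χ'.range := by
    have h1 : (Set.range (GeneralLinearGroup.map (n := Fin 7) (algebraMap (S ⧸ I) k))).Finite :=
      Set.finite_range _
    have h3 : (χ'.range : Set (GL (Fin 7) k)).Finite := by
      refine h1.subset ?_
      rintro _ ⟨x, rfl⟩
      exact ⟨χ x, rfl⟩
    exact h3.to_subtype
  have h3 : χ' = 1 := closed_seven h2k χ' hfin'
  refine MonoidHom.ext fun x => ?_
  apply hinj
  have h4 := DFunLike.congr_fun h3 x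
  rw [MonoidHom.one_apply, map_one]
  exact h4

end Pool.Agent.Helper61.KP
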