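import Pool.Agent.Helper61.KP.Zero

/-!
# Linear representations of degree at most six
-/

set_option autoImplicit false
set_option linter.unusedSectionVars false

open Matrix
open scoped MatrixGroups

namespace Pool.Agent.Helper61.KP

open Pool.Agent.Helper79.KF Pool.Agent.Helper61.KT

/-- a homomorphism from `K` to `GLₙ` with trivial image in `PGLₙ` is trivial -/
theorem trivial_of_mk {R : Type*} [CommRing R] {n : ℕ} (f : K →* GL (Fin n) R)
    (h : (ProjGenLinGroup.mk).comp f = 1) : f = 1 := by
  have hc : ∀ k, f k ∈ Subgroup.center (GL (Fin n) R) := fun k =>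
    ProjGenLinGroup.mk_eq_one.1 (DFunLike.congr_fun h k)
  let _ : CommGroup (Subgroup.center (GL (Fin n) R)) :=
    { (inferInstance : Group (Subgroup.center (GL (Fin n) R))) with
      mul_comm := fun a b => Subtype.ext ((Subgroup.mem_center_iff.1 b.2 a).trans rfl) }
  have h2 := trivial_comm (M := Subgroup.center (GL (Fin n) R)) (f.codRestrict _ hc)
  refine MonoidHom.ext fun k => ?_
  have h3 := DFunLike.congr_fun h2 k
  exact congrArg Subtype.val h3

/-- linear representations with finite image over an algebraically closed field such that, for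
`X = C` and for `X = D`, either `X - 1` has rank at most two or `X` and `A⁻¹ X A` have no common
fixed vector -/
theorem closed_gen {F : Type*} [Field F] [IsAlgClosed F] (h2 : (2 : F) ≠ 0) {n : ℕ}
    (f : K →* GL (Fin n) F) (hfin : Finite f.range)
    (HC : ((f (gen 2) : Matrix (Fin n) (Fin n) F) - 1).rank ≤ 2 ∨
      X0 (f (gen 2) : Matrix (Fin n) (Fin n) F)
        (((f (gen 0))⁻¹ * f (gen 2) * f (gen 0) : GL (Fin n) F) : Matrix (Fin n) (Fin n) F) = 0)
    (HD : ((f (gen 3) : Matrix (Fin n) (Fin n) F) - 1).rank ≤ 2 ∨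
      X0 (f (gen 3) : Matrix (Fin n) (Fin n) F)
        (((f (gen 0))⁻¹ * f (gen 3) * f (gen 0) : GL (Fin n) F) : Matrix (Fin n) (Fin n) F) = 0) :
    f = 1 := by
  by_cases hn : n ≤ 3
  · exact trivial_gl_field hn f
  have R := allRel f
  have hC : Rel (f (gen 0)) (f (gen 1)) (f (gen 2)) := R.relC
  have hD : Rel (f (gen 0)) (f (gen 1))⁻¹ (f (gen 3)) := R.relD
  by_cases hc : f (gen 2) = 1
  · rw [hc] at hC; exact trivial_of_gen f (rel_one hC)
  by_cases hd : f (gen 3) = 1
  · rw [hd] at hD; exact trivial_of_gen f (rel_one hD)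
  set φ : K →* PGL(n, F) := (ProjGenLinGroup.mk).comp f with hφ
  have hφfin : Finite φ.range := by
    have e : (φ.range : Set PGL(n, F)) = ProjGenLinGroup.mk '' (f.range : Set (GL (Fin n) F)) := by
      ext y
      constructor
      · rintro ⟨k, rfl⟩
        exact ⟨f k, ⟨k, rfl⟩, rfl⟩
      · rintro ⟨_, ⟨k, rfl⟩, rfl⟩
        exact ⟨k, rfl⟩
    have h1 : (f.range : Set (GL (Fin n) F)).Finite := Set.toFinite _
    have h3 : (φ.range : Set PGL(n, F)).Finite := by rw [e]; exact h1.image _
    exact h3.to_subtype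
  rcases HC with rC | zC
  · rcases HD with rD | zD
    · apply trivial_of_mk
      obtain ⟨r, hr⟩ := core h2 (MonoidHom.id (GL (Fin n) F)) (by
        intro g hg
        obtain ⟨u, hu⟩ := mk_one_iff hg
        exact ⟨u, by rw [MonoidHom.id_apply, hu, val_smul, Units.val_one]⟩)
        (by rw [Fintype.card_fin]; omega) φ hφfin (a := f (gen 0)) (b := f (gen 1))
        (a1 := f (gen 0)) (b1 := (f (gen 1))⁻¹) rfl rfl rfl (by rw [map_inv]; rfl)
        (θ := 1) (η := 1) (one_pow 3) (one_pow 3) (by rw [one_smul])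
        (by rw [one_smul, MonoidHom.id_apply, MonoidHom.id_apply]) hC hD rC rD
      exact trivial_of_scalar (φ := φ) rfl hr
    · exact (zero_case h2 hD hd zD φ (gen_map hφfin rfl (Or.inr (by rw [map_inv]; rfl))) rfl).elim
  · exact (zero_case h2 hC hc zC φ (gen_map hφfin rfl (Or.inl rfl)) rfl).elim

/-- degree at most six -/
theorem trivial_six {R : Type*} [CommRing R] (h2 : IsUnit (2 : R)) {n : ℕ} (hn : n ≤ 6)
    (φ : K →* GL (Fin n) R) : φ = 1 := by
  obtain ⟨y, hy⟩ := h2.exists_right_inv
  refine reduce φ {y} (Set.finite_singleton y) ?_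
  intro S hS ψ _ I hI hfin
  have hy2 := two_ne_of hy (hS rfl) hI
  let _ := Ideal.Quotient.field I
  set χ : K →* GL (Fin n) (S ⧸ I) :=
    (GeneralLinearGroup.map (n := Fin n) (Ideal.Quotient.mk I)).comp ψ with hχ
  let k := AlgebraicClosure (S ⧸ I)
  let χ' : K →* GL (Fin n) k :=
    (GeneralLinearGroup.map (n := Fin n) (algebraMap (S ⧸ I) k)).comp χ
  have hinj := map_injective (n := n) (algebraMap (S ⧸ I) k) (algebraMap (S ⧸ I) k).injective
  have h2k : (2 : k) ≠ 0 := by
    intro h0
    apply hy2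
    apply (algebraMap (S ⧸ I) k).injective
    rw [map_ofNat, map_zero]
    exact h0
  have hfin' : Finite χ'.range := by
    have h1 : (Set.range (GeneralLinearGroup.map (n := Fin n) (algebraMap (S ⧸ I) k))).Finite :=
      Set.finite_range _
    have h3 : (χ'.range : Set (GL (Fin n) k)).Finite := by
      refine h1.subset ?_
      rintro _ ⟨x, rfl⟩
      exact ⟨χ x, rfl⟩
    exact h3.to_subtype
  have R' := allRel χ'
  have hC : Rel (χ' (gen 0)) (χ' (gen 1)) (χ' (gen 2)) := R'.relC
  have hD : Rel (χ' (gen 0)) (χ' (gen 1))⁻¹ (χ' (gen 3)) := R'.relD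
  have h3 : χ' = 1 := closed_gen h2k χ' hfin'
    (rank_or_zero (rr hC) h2k (by rw [Fintype.card_fin]; exact hn))
    (rank_or_zero (rr hD) h2k (by rw [Fintype.card_fin]; exact hn))
  refine MonoidHom.ext fun x => ?_
  apply hinj
  have h4 := DFunLike.congr_fun h3 x
  rw [MonoidHom.one_apply, map_one]
  exact h4

end Pool.Agent.Helper61.KP
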