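import Pool.Agent.Helper61.KP.Fix

/-!
# The upper bound for the rank of an involution
-/

set_option autoImplicit false
set_option linter.unusedSectionVars false

open Matrix
open scoped MatrixGroups

namespace Pool.Agent.Helper61.KP

open Pool.Agent.Helper79.KF Pool.Agent.Helper61.KT

variable {F : Type*} [Field F] {n : ℕ}

theorem upper_rel (h2 : (2 : F) ≠ 0) {a b c : GL (Fin n) F} (h : Rel a b c)
    (W : Submodule F (Fin n → F)) (ha : a ∈ fixU W) (hc : c ∈ fixU W) :
    3 * ((c : Matrix (Fin n) (Fin n) F) - 1).rank + 2 * Module.finrank F W ≤ 2 * n := by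
  have R := rr h
  have h4 := four_ne h2
  have hp : a⁻¹ * c * a ∈ fixU W := mul_mem (mul_mem (inv_mem ha) hc) ha
  have r1 := rank_sum_neg R h2
  rw [Fintype.card_fin] at r1
  have r2 := rank_half R h2
  have r3 := rank_x30 R h2
  have hle : W ≤ LinearMap.range (X0 (c : Matrix (Fin n) (Fin n) F)
      ((a⁻¹ * c * a : GL (Fin n) F) : Matrix (Fin n) (Fin n) F)).mulVecLin := by
    intro u hu
    have c1 : (c : Matrix (Fin n) (Fin n) F) *ᵥ u = u := hc u hu
    have p1 : ((a⁻¹ * c * a : GL (Fin n) F) : Matrix (Fin n) (Fin n) F) *ᵥ u = u := hp u hu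
    have e : X0 (c : Matrix (Fin n) (Fin n) F)
        ((a⁻¹ * c * a : GL (Fin n) F) : Matrix (Fin n) (Fin n) F) *ᵥ u = (4 : F) • u := by
      have : X0 (c : Matrix (Fin n) (Fin n) F)
          ((a⁻¹ * c * a : GL (Fin n) F) : Matrix (Fin n) (Fin n) F) =
          (1 + (c : Matrix (Fin n) (Fin n) F)) *
            (1 + ((a⁻¹ * c * a : GL (Fin n) F) : Matrix (Fin n) (Fin n) F)) := rfl
      have e1 : (1 + ((a⁻¹ * c * a : GL (Fin n) F) : Matrix (Fin n) (Fin n) F)) *ᵥ u = u + u := by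
        rw [add_mulVec, one_mulVec, p1]
      rw [this, ← mulVec_mulVec, e1, add_mulVec, one_mulVec, mulVec_add, c1]
      module
    refine ⟨(4 : F)⁻¹ • u, ?_⟩
    rw [mulVecLin_apply, mulVec_smul, e, smul_smul, inv_mul_cancel₀ h4, one_smul]
  have r4 := Submodule.finrank_mono hle
  have r5 : (X0 (c : Matrix (Fin n) (Fin n) F)
      ((a⁻¹ * c * a : GL (Fin n) F) : Matrix (Fin n) (Fin n) F)).rank =
      Module.finrank F (LinearMap.range (X0 (c : Matrix (Fin n) (Fin n) F)
      ((a⁻¹ * c * a : GL (Fin n) F) : Matrix (Fin n) (Fin n) F)).mulVecLin) := rfl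
  omega

theorem upper_gen (h2 : (2 : F) ≠ 0) (φ : K →* GL (Fin n) F) (W : Submodule F (Fin n → F))
    (hW : ∀ k, φ k ∈ fixU W) (i : Fin 6) (hi : 2 ≤ i) :
    3 * ((φ (gen i) : Matrix (Fin n) (Fin n) F) - 1).rank + 2 * Module.finrank F W ≤ 2 * n := by
  have R := allRel φ
  fin_cases i
  · exact absurd hi (by decide)
  · exact absurd hi (by decide)
  · exact upper_rel h2 R.relC W (hW _) (hW _)
  · exact upper_rel h2 R.relD W (hW _) (hW _)
  · exact upper_rel h2 R.relE W (inv_mem (hW _)) (hW _)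
  · exact upper_rel h2 R.relF W (inv_mem (hW _)) (hW _)

end Pool.Agent.Helper61.KP
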