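import Pool.Agent.Helper61.KP.RingP

/-!
# The case in which `C` and `A⁻¹ C A` have no common fixed vector
-/

set_option autoImplicit false
set_option linter.unusedSectionVars false

open Matrix
open scoped MatrixGroups

namespace Pool.Agent.Helper61.KP

open Pool.Agent.Helper79.KF Pool.Agent.Helper61.KT

variable {F : Type*} [Field F]

section rk

variable {ι : Type*} [Fintype ι] [DecidableEq ι] {A A' B B' C P Q : Matrix ι ι F}

theorem rank_sum_neg (h : RR A A' B B' C P Q) (h2 : (2 : F) ≠ 0) :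
    (C - 1).rank + (1 + C).rank ≤ Fintype.card ι := by
  have := rank_two (X := C - 1) (Y := 1 + C) (Z := (1 : Matrix ι ι F)) (s := -2)
    (neg_ne_zero.2 h2) (by
      have : (C - 1) * (C - 1) = C * C - C - C + 1 := by noncomm_ring
      rw [this, h.cc]; module) (by
      have : (C - 1) * (1 + C) = C * C - 1 := by noncomm_ring
      rw [this, h.cc, sub_self]) ⟨_, (one_mul _).symm⟩ ⟨_, (one_mul _).symm⟩
  rwa [rank_one] at this

theorem rank_half (h : RR A A' B B' C P Q) (h2 : (2 : F) ≠ 0) :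
    (C - 1).rank = 2 * (X3 C P).rank := by
  have h4 := four_ne h2
  have e1 : X1 C P * X1 C P = (4 : F) • X1 C P := by rw [x1_sq h, four]
  have r1 := rank_two h4 e1 (x12 h) ⟨_, x1_eq⟩ ⟨_, x2_eq⟩
  have q1 : (X1 C P).rank ≤ (X3 C P).rank := rank_conj_le (S := A') (T := A) (by
      rw [mul_assoc, ← a_x1 h, ← mul_assoc, h.aia, one_mul])
  have q2 : (X2 C P).rank ≤ (X3 C P).rank := rank_conj_le (S := A) (T := A') (by
      rw [a_x3 h, mul_assoc, h.aai, mul_one])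
  have q3 : (X3 C P).rank ≤ (X1 C P).rank := rank_conj_le (S := A) (T := A') (by
      rw [a_x1 h, mul_assoc, h.aai, mul_one])
  have q4 : (X1 C P).rank ≤ (X2 C P).rank := rank_conj_le (S := Q) (T := Q)
      (by rw [q_x2 h, mul_assoc, h.qq, mul_one])
  have r3 : (C - 1).rank ≤ (X1 C P + X2 C P).rank := by
    refine rank_conj_le (S := (-(2 : F)⁻¹) • 1) (T := 1) ?_
    have e2 : (2 : ℕ) • (1 - C) = (2 : F) • (1 - C) := by module
    rw [mul_one, x_sum, e2, smul_mul_assoc, one_mul, smul_smul, neg_mul, inv_mul_cancel₀ h2]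
    module
  have r4 := rank_add_le' (X1 C P) (X2 C P)
  omega

theorem x3_x0 (h : RR A A' B B' C P Q) : X3 C P * X0 C P = 0 := by
  have e : X3 C P = (1 + C) * (1 - P) := rfl
  have e2 : X0 C P = (1 + P) * (1 + C) := by
    have e3 : X0 C P = (1 + C) * (1 + P) := rfl
    rw [e3]
    have : (1 + P) * (1 + C) = 1 + C + P + P * C := by noncomm_ring
    rw [this, h.pc]
    noncomm_ring
  have e3 : (1 - P) * (1 + P) = 0 := by
    have : (1 - P) * (1 + P) = 1 - P * P := by noncomm_ring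
    rw [this, h.pp, sub_self]
  rw [e, e2, mul_assoc, ← mul_assoc (1 - P), e3, zero_mul, mul_zero]

theorem rank_x30 (h : RR A A' B B' C P Q) (h2 : (2 : F) ≠ 0) :
    (X3 C P).rank + (X0 C P).rank ≤ (1 + C).rank :=
  rank_two (four_ne h2) (by rw [x3_sq h, four]) (x3_x0 h) ⟨_, rfl⟩ ⟨_, rfl⟩

theorem eq_zero_of_rank {X : Matrix ι ι F} (h : X.rank = 0) : X = 0 := by
  have h1 : LinearMap.range X.mulVecLin = ⊥ := Submodule.finrank_eq_zero.1 h
  rw [LinearMap.range_eq_bot] at h1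
  apply Matrix.toLin'.injective
  rw [map_zero]
  exact h1

/-- in degree at most six `C - 1` has rank at most two or `X0 = 0` -/
theorem rank_or_zero (h : RR A A' B B' C P Q) (h2 : (2 : F) ≠ 0) (hn : Fintype.card ι ≤ 6) :
    (C - 1).rank ≤ 2 ∨ X0 C P = 0 := by
  have r1 := rank_sum_neg h h2
  have r2 := rank_half h h2
  have r3 := rank_x30 h h2
  by_cases hr : (X3 C P).rank ≤ 1
  · left; omega
  · right
    apply eq_zero_of_rank
    omega

/-- if `X0 C P = 0` then `X0 C Q = 0` -/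
theorem x0_symm (h : RR A A' B B' C P Q) (h2 : (2 : F) ≠ 0) (h0 : X0 C P = 0) : X0 C Q = 0 := by
  have hs := h.symm
  have r2 := rank_half h h2
  have r2' := rank_half hs h2
  have r3' := rank_x30 hs h2
  have r4 : (1 + C).rank ≤ (X3 C P).rank := by
    refine rank_conj_le (S := (2 : F)⁻¹ • 1) (T := 1) ?_
    have e : X3 C P = (2 : F) • (1 + C) := by
      have e1 : X0 C P + X3 C P = (2 : F) • (1 + C) := by
        have : X0 C P + X3 C P = (1 + C) * (1 + P) + (1 + C) * (1 - P) := rfl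
        rw [this, ← mul_add]
        have : (1 + P + (1 - P) : Matrix ι ι F) = (2 : F) • 1 := by module
        rw [this, mul_smul_comm, mul_one]
      rw [h0, zero_add] at e1
      exact e1
    rw [mul_one, smul_mul_assoc, one_mul, e, smul_smul, inv_mul_cancel₀ h2, one_smul]
  apply eq_zero_of_rank
  omega

end rk

variable {n : ℕ} {A A' B B' C P Q : Matrix (Fin n) (Fin n) F}

/-- three vectors spanning an invariant subspace -/
theorem shape3 [IsAlgClosed F] (h : RR A A' B B' C P Q) (h2 : (2 : F) ≠ 0) (hc : C ≠ 1)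
    (h0 : X0 C P = 0) :
    ∃ (μ : F) (e1 e2 e3 : Fin n → F), μ ≠ 0 ∧ (∀ x1 x2 x3 : F,
        x1 • e1 + x2 • e2 + x3 • e3 = 0 → x1 = 0 ∧ x2 = 0 ∧ x3 = 0) ∧
      A *ᵥ e1 = e3 ∧ A *ᵥ e3 = e2 ∧ A *ᵥ e2 = e1 ∧
      B *ᵥ e3 = μ • (e1 + e2) ∧ B *ᵥ (e1 + e2) = -(e1 - e2) ∧ B *ᵥ (e1 - e2) = -(μ⁻¹ • e3) := by
  have h4 := four_ne h2
  have hs := h.symm
  have h0' := x0_symm h h2 h0
  have pneg : ∀ v : Fin n → F, C *ᵥ v = v → P *ᵥ v = -v := by
    intro v hv
    have k1 : X0 C P *ᵥ v = 0 := by rw [h0, zero_mulVec]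
    have k2 : X0 C P *ᵥ v = (2 : F) • (v + P *ᵥ v) := by
      have : X0 C P = (1 + C) * (1 + P) := rfl
      rw [this, ← mulVec_mulVec, add_mulVec 1 P, one_mulVec, add_mulVec, one_mulVec, mulVec_add,
        ← app h.pc, hv]
      module
    rw [k2] at k1
    have k3 := (smul_eq_zero.1 k1).resolve_left h2
    exact eq_neg_of_add_eq_zero_right k3
  have qneg : ∀ v : Fin n → F, C *ᵥ v = v → Q *ᵥ v = -v := by
    intro v hv
    have k1 : X0 C Q *ᵥ v = 0 := by rw [h0', zero_mulVec]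
    have k2 : X0 C Q *ᵥ v = (2 : F) • (v + Q *ᵥ v) := by
      have : X0 C Q = (1 + C) * (1 + Q) := rfl
      rw [this, ← mulVec_mulVec, add_mulVec 1 Q, one_mulVec, add_mulVec, one_mulVec, mulVec_add,
        ← app h.qc, hv]
      module
    rw [k2] at k1
    have k3 := (smul_eq_zero.1 k1).resolve_left h2
    exact eq_neg_of_add_eq_zero_right k3
  -- an eigenvector
  let W : Submodule F (Fin n → F) := LinearMap.ker ((C - 1).mulVecLin)
  have memW : ∀ v, v ∈ W ↔ C *ᵥ v = v := by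
    intro v
    rw [LinearMap.mem_ker, mulVecLin_apply, sub_mulVec, one_mulVec, sub_eq_zero]
  have hnt : Nontrivial W := by
    obtain ⟨v, hv⟩ : ∃ v : Fin n → F, X3 C P *ᵥ v ≠ 0 := by
      by_contra hcon
      push Not at hcon
      apply x3_ne h h2 hc
      apply Matrix.toLin'.injective
      refine LinearMap.ext fun v => ?_
      rw [toLin'_apply, hcon v, map_zero, LinearMap.zero_apply]
    refine ⟨⟨⟨X3 C P *ᵥ v, (memW _).2 (by rw [mulVec_mulVec, c_x3 h])⟩, 0, ?_⟩⟩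
    intro he
    exact hv (congrArg Subtype.val he)
  let T : Matrix (Fin n) (Fin n) F := (2 : F)⁻¹ • ((1 + C) * (A * B))
  have hT : ∀ v ∈ W, T.mulVecLin v ∈ W := by
    intro v _
    rw [memW, mulVecLin_apply]
    simp only [T]
    rw [mulVec_mulVec, mul_smul_comm, ← mul_assoc, mul_add, mul_one, h.cc, add_comm C 1]
  obtain ⟨μ, hμ⟩ := Module.End.exists_eigenvalue (T.mulVecLin.restrict hT)
  obtain ⟨w, hw⟩ := hμ.exists_hasEigenvector
  obtain ⟨⟨v, hvW⟩, hv0', hveq⟩ : ∃ w : W, w ≠ 0 ∧ (T.mulVecLin.restrict hT) w = μ • w :=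
    ⟨w, hw.2, hw.apply_eq_smul⟩
  have hv0 : v ≠ 0 := fun e => hv0' (Subtype.ext e)
  have hv1 : T *ᵥ v = μ • v := congrArg Subtype.val hveq
  have c3 : C *ᵥ v = v := (memW v).1 hvW
  have p3 := pneg v c3
  have q3 := qneg v c3
  set e2 : Fin n → F := A *ᵥ v with he2
  set e1 : Fin n → F := A' *ᵥ v with he1
  have a1 : A *ᵥ e1 = v := app0 h.aai v
  have a2 : A *ᵥ e2 = e1 := app1 h.aa v
  have c2 : C *ᵥ e2 = -e2 := by rw [he2, ← app h.ap v, p3, mulVec_neg]
  have q2 : Q *ᵥ e2 = -e1 := by rw [he2, app h.qa v, q3, mulVec_neg]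
  have q1 : Q *ᵥ e1 = -e2 := by rw [he1, app h.qai v, q3, mulVec_neg]
  have p1 : P *ᵥ e1 = e1 := by rw [he1, ← app h.aic v, c3]
  have c1 : C *ᵥ e1 = -e1 := by
    have k1 := app3 h.aip v
    rw [p3, mulVec_neg, ← he1, p1] at k1
    exact k1.symm
  have p2 : P *ᵥ e2 = -e2 := by
    have k1 := app3 h.ac v
    rw [c3, ← he2] at k1
    have k2 := congrArg (fun w => C *ᵥ w) k1
    rw [c2, app0 h.cc] at k2
    exact k2.symm
  have n2 : e2 ≠ 0 := by
    intro h0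
    apply hv0
    have := congrArg (fun w => A' *ᵥ w) h0
    simp only [he2, mulVec_zero] at this
    rw [app0 h.aia] at this
    exact this
  have n1 : e1 ≠ 0 := by
    intro h0
    apply hv0
    rw [← a1, h0, mulVec_zero]
  -- the image of `v` under `B`
  have cb : C *ᵥ (B *ᵥ v) = -(B *ᵥ v) := by rw [← app h.bq v, q3, mulVec_neg]
  have qb : Q *ᵥ (B *ᵥ v) = -(B *ᵥ v) := by
    have k1 := app3 h.bc v
    rw [c3] at k1
    have k2 := congrArg (fun w => C *ᵥ w) k1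
    rw [cb, app0 h.cc] at k2
    exact k2.symm
  have pb : P *ᵥ (B *ᵥ v) = -(B' *ᵥ v) := by rw [app h.pb v, p3, mulVec_neg]
  have key : A *ᵥ (B *ᵥ v + P *ᵥ (B *ᵥ v)) = (2 * μ) • v := by
    have k1 : A *ᵥ (P *ᵥ (B *ᵥ v)) = C *ᵥ (A *ᵥ (B *ᵥ v)) := app h.ap _
    have k2 : T *ᵥ v = (2 : F)⁻¹ • (A *ᵥ (B *ᵥ v) + C *ᵥ (A *ᵥ (B *ᵥ v))) := by
      simp only [T]
      rw [smul_mulVec, ← mulVec_mulVec, add_mulVec, one_mulVec, ← mulVec_mulVec]
    rw [mulVec_add, k1, mul_smul, ← hv1, k2, smul_smul, mul_inv_cancel₀ h2, one_smul]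
  have x1 : B *ᵥ v + P *ᵥ (B *ᵥ v) = (2 * μ) • e1 := by
    have k1 := congrArg (fun w => A' *ᵥ w) key
    simp only [mulVec_smul] at k1
    rw [app0 h.aia] at k1
    exact k1
  have x2 : B *ᵥ v - P *ᵥ (B *ᵥ v) = (2 * μ) • e2 := by
    have k1 := congrArg (fun w => Q *ᵥ w) x1
    simp only [mulVec_add, mulVec_smul, qb, q1] at k1
    have k2 : Q *ᵥ (P *ᵥ (B *ᵥ v)) = P *ᵥ (B *ᵥ v) := by
      have k3 := app3 h.qp (B *ᵥ v)
      rw [qb, mulVec_neg, mulVec_neg, ← app h.pc, cb, mulVec_neg, neg_neg] at k3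
      exact k3
    rw [k2] at k1
    have k4 := congrArg (fun w => -w) k1
    rw [← neg_neg ((2 * μ) • e2), ← smul_neg, ← k4]
    module
  have b3 : B *ᵥ v = μ • (e1 + e2) := by
    have k1 : (2 : F) • (B *ᵥ v) = (2 : F) • (μ • (e1 + e2)) := by
      have : (2 : F) • (B *ᵥ v) = (B *ᵥ v + P *ᵥ (B *ᵥ v)) + (B *ᵥ v - P *ᵥ (B *ᵥ v)) := by module
      rw [this, x1, x2]; module
    exact smul_right_injective _ h2 k1
  have hμ0 : μ ≠ 0 := by
    rintro rfl
    rw [zero_smul] at b3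
    apply hv0
    have k1 := congrArg (fun w => B' *ᵥ w) b3
    simp only [mulVec_zero] at k1
    rw [app0 h.bib] at k1
    exact k1
  have pf1 : P *ᵥ (e1 + e2) = e1 - e2 := by rw [mulVec_add, p1, p2]; module
  have bi : B' *ᵥ v = -(μ • (e1 - e2)) := by
    rw [b3, mulVec_smul, pf1] at pb
    rw [pb, neg_neg]
  have bf1 : B *ᵥ (e1 + e2) = -(e1 - e2) := by
    have k1 := app1 h.bb v
    rw [b3, mulVec_smul, bi, ← smul_neg] at k1
    exact smul_right_injective _ hμ0 k1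
  have bf2 : B *ᵥ (e1 - e2) = -(μ⁻¹ • v) := by
    have k1 : B *ᵥ (B' *ᵥ v) = v := app0 h.bbi v
    rw [bi, mulVec_neg, mulVec_smul] at k1
    rw [← smul_neg, ← k1, neg_neg, smul_smul, inv_mul_cancel₀ hμ0, one_smul]
  refine ⟨μ, e1, e2, v, hμ0, ?_, a1, rfl, a2, b3, bf1, bf2⟩
  intro x1 x2 x3 hx
  have hC : -(x1 • e1) - x2 • e2 + x3 • v = 0 := by
    have := congrArg (fun w => C *ᵥ w) hx
    simp only [mulVec_add, mulVec_smul, c1, c2, c3, mulVec_zero] at this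
    rw [← this]; module
  have hP : x1 • e1 - x2 • e2 - x3 • v = 0 := by
    have := congrArg (fun w => P *ᵥ w) hx
    simp only [mulVec_add, mulVec_smul, p1, p2, p3, mulVec_zero] at this
    rw [← this]; module
  have g3 : (2 * x3) • v = 0 := by
    have : (2 * x3) • v = (x1 • e1 + x2 • e2 + x3 • v) + (-(x1 • e1) - x2 • e2 + x3 • v) := by
      module
    rw [this, hx, hC]; simp
  have g1 : (2 * x1) • e1 = 0 := by
    have : (2 * x1) • e1 = (x1 • e1 + x2 • e2 + x3 • v) + (x1 • e1 - x2 • e2 - x3 • v) := by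
      module
    rw [this, hx, hP]; simp
  have z3 := (mul_eq_zero.1 ((smul_eq_zero.1 g3).resolve_right hv0)).resolve_left h2
  have z1 := (mul_eq_zero.1 ((smul_eq_zero.1 g1).resolve_right n1)).resolve_left h2
  refine ⟨z1, ?_, z3⟩
  rw [z1, z3, zero_smul, zero_smul, zero_add, add_zero] at hx
  exact (smul_eq_zero.1 hx).resolve_right n2

/-- pairs `(g, u)` such that `g` acts as `u` on a three-dimensional subspace -/
def S3 (G : (Fin 3 → F) → (Fin n → F)) : Subgroup (GL (Fin n) F × GL (Fin 3) F) where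
  carrier := {t | ∀ x : Fin 3 → F, (t.1 : Matrix (Fin n) (Fin n) F) *ᵥ G x =
    G ((t.2 : Matrix (Fin 3) (Fin 3) F) *ᵥ x)}
  one_mem' := by
    intro x
    simp
  mul_mem' := by
    intro s t hs ht x
    have e1 : ((s * t).1 : Matrix (Fin n) (Fin n) F) =
        (s.1 : Matrix (Fin n) (Fin n) F) * (t.1 : Matrix (Fin n) (Fin n) F) := rfl
    have e2 : ((s * t).2 : Matrix (Fin 3) (Fin 3) F) =
        (s.2 : Matrix (Fin 3) (Fin 3) F) * (t.2 : Matrix (Fin 3) (Fin 3) F) := rfl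
    rw [e1, e2, ← mulVec_mulVec, ht x, hs, mulVec_mulVec]
  inv_mem' := by
    intro s hs x
    have e1 : ((s⁻¹).1 : Matrix (Fin n) (Fin n) F) =
        (((s.1)⁻¹ : GL (Fin n) F) : Matrix (Fin n) (Fin n) F) := rfl
    have e2 : ((s⁻¹).2 : Matrix (Fin 3) (Fin 3) F) =
        (((s.2)⁻¹ : GL (Fin 3) F) : Matrix (Fin 3) (Fin 3) F) := rfl
    have k1 := hs ((((s.2)⁻¹ : GL (Fin 3) F) : Matrix (Fin 3) (Fin 3) F) *ᵥ x)
    rw [mulVec_mulVec _ (s.2 : Matrix (Fin 3) (Fin 3) F), ← Units.val_mul, mul_inv_cancel,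
      Units.val_one, one_mulVec] at k1
    rw [e1, e2, ← k1, mulVec_mulVec, ← Units.val_mul, inv_mul_cancel, Units.val_one, one_mulVec]

theorem zero_case [IsAlgClosed F] (h2 : (2 : F) ≠ 0) {a b c : GL (Fin n) F} (h : Rel a b c)
    (hc : c ≠ 1) (h0 : X0 (c : Matrix (Fin n) (Fin n) F)
      ((a⁻¹ * c * a : GL (Fin n) F) : Matrix (Fin n) (Fin n) F) = 0)
    (φ : K →* PGL(n, F)) (hgen : φ.range ≤ (Subgroup.closure {a, b}).map ProjGenLinGroup.mk)
    (ha : ProjGenLinGroup.mk a = φ (gen 0)) : False := by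
  obtain ⟨μ, e1, e2, e3, hμ, ind, a1, a3, a2, b3, b1, b2⟩ :=
    shape3 (rr h) h2 (fun hh => hc (Units.ext hh)) h0
  set G : (Fin 3 → F) → (Fin n → F) := fun x => x 0 • e1 + x 1 • e2 + x 2 • e3 with hG
  have Ginj : ∀ x y, G x = G y → x = y := by
    intro x y hxy
    have k1 : (x 0 - y 0) • e1 + (x 1 - y 1) • e2 + (x 2 - y 2) • e3 = 0 := by
      have k2 := sub_eq_zero.2 hxy
      rw [← k2]
      simp only [hG]
      module
    obtain ⟨m1, m2, m3⟩ := ind _ _ _ k1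
    ext i
    fin_cases i
    · exact sub_eq_zero.1 m1
    · exact sub_eq_zero.1 m2
    · exact sub_eq_zero.1 m3
  have Gsmul : ∀ (r : F) x, G (r • x) = r • G x := by
    intro r x
    simp only [hG, Pi.smul_apply, smul_eq_mul]
    module
  -- the two matrices
  have da : (!![0, 1, 0; 0, 0, 1; 1, 0, 0] : Matrix (Fin 3) (Fin 3) F).det ≠ 0 := by
    rw [Matrix.det_fin_three]
    simp
  have db : (!![-(2 : F)⁻¹, -(2 : F)⁻¹, μ; (2 : F)⁻¹, (2 : F)⁻¹, μ; -((2 : F)⁻¹ * μ⁻¹),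
      (2 : F)⁻¹ * μ⁻¹, 0] : Matrix (Fin 3) (Fin 3) F).det ≠ 0 := by
    rw [Matrix.det_fin_three]
    simp only [Matrix.of_apply, Matrix.cons_val', Matrix.cons_val_zero, Matrix.cons_val_one,
      Matrix.cons_val, Matrix.cons_val_fin_one]
    have : (-(2 : F)⁻¹ * (2 : F)⁻¹ * 0 - -(2 : F)⁻¹ * μ * ((2 : F)⁻¹ * μ⁻¹) -
        -(2 : F)⁻¹ * (2 : F)⁻¹ * 0 + -(2 : F)⁻¹ * μ * -((2 : F)⁻¹ * μ⁻¹) +
        μ * (2 : F)⁻¹ * ((2 : F)⁻¹ * μ⁻¹) - μ * (2 : F)⁻¹ * -((2 : F)⁻¹ * μ⁻¹)) = 1 := by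
      field_simp
      ring
    rw [this]
    exact one_ne_zero
  let ua : GL (Fin 3) F := Matrix.GeneralLinearGroup.mkOfDetNeZero _ da
  let ub : GL (Fin 3) F := Matrix.GeneralLinearGroup.mkOfDetNeZero _ db
  have ma : ((a, ua) : GL (Fin n) F × GL (Fin 3) F) ∈ S3 G := by
    intro x
    change (a : Matrix (Fin n) (Fin n) F) *ᵥ G x =
      G ((!![0, 1, 0; 0, 0, 1; 1, 0, 0] : Matrix (Fin 3) (Fin 3) F) *ᵥ x)
    simp only [hG, mulVec_add, mulVec_smul, a1, a2, a3]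
    simp only [Matrix.mulVec, dotProduct, Fin.sum_univ_three, Matrix.of_apply, Matrix.cons_val',
      Matrix.cons_val_zero, Matrix.cons_val_one, Matrix.cons_val, Matrix.cons_val_fin_one]
    module
  have mb : ((b, ub) : GL (Fin n) F × GL (Fin 3) F) ∈ S3 G := by
    intro x
    change (b : Matrix (Fin n) (Fin n) F) *ᵥ G x =
      G ((!![-(2 : F)⁻¹, -(2 : F)⁻¹, μ; (2 : F)⁻¹, (2 : F)⁻¹, μ; -((2 : F)⁻¹ * μ⁻¹),
      (2 : F)⁻¹ * μ⁻¹, 0] : Matrix (Fin 3) (Fin 3) F) *ᵥ x)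
    have k1 : G x = ((2 : F)⁻¹ * (x 0 + x 1)) • (e1 + e2) + ((2 : F)⁻¹ * (x 0 - x 1)) • (e1 - e2) +
        x 2 • e3 := by
      have m1 : x 0 = (2 : F)⁻¹ * (x 0 + x 1) + (2 : F)⁻¹ * (x 0 - x 1) := by field_simp; ring
      have m2 : x 1 = (2 : F)⁻¹ * (x 0 + x 1) - (2 : F)⁻¹ * (x 0 - x 1) := by field_simp; ring
      have m3 : G x = ((2 : F)⁻¹ * (x 0 + x 1) + (2 : F)⁻¹ * (x 0 - x 1)) • e1 +
          ((2 : F)⁻¹ * (x 0 + x 1) - (2 : F)⁻¹ * (x 0 - x 1)) • e2 + x 2 • e3 := by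
        rw [← m1, ← m2]
      rw [m3]
      module
    rw [k1]
    simp only [mulVec_add, mulVec_smul, b2, b3]
    rw [← mulVec_add, b1]
    simp only [hG, Matrix.mulVec, dotProduct, Fin.sum_univ_three, Matrix.of_apply,
      Matrix.cons_val', Matrix.cons_val_zero, Matrix.cons_val_one, Matrix.cons_val,
      Matrix.cons_val_fin_one]
    module
  let π : GL (Fin n) F × GL (Fin 3) F →* PGL(n, F) := ProjGenLinGroup.mk.comp (MonoidHom.fst _ _)
  let L : GL (Fin n) F × GL (Fin 3) F →* PGL(3, F) := ProjGenLinGroup.mk.comp (MonoidHom.snd _ _)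
  have hle : Subgroup.closure {a, b} ≤ (S3 G).map (MonoidHom.fst _ _) := by
    rw [Subgroup.closure_le]
    rintro y (rfl | hy)
    · exact ⟨_, ma, rfl⟩
    · obtain rfl : y = b := hy
      exact ⟨_, mb, rfl⟩
  have hφ : φ.range ≤ (S3 G).map π := by
    refine le_trans hgen ?_
    rw [← Subgroup.map_map]
    exact Subgroup.map_mono hle
  obtain ⟨ψ, hψ⟩ := exists_lift π L (S3 G) φ hφ (by
    rintro ⟨g, u⟩ hm hm1
    obtain ⟨r, hr⟩ := mk_one_iff (g := g) hm1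
    have k1 : ∀ x : Fin 3 → F, (r : F) • x = (u : Matrix (Fin 3) (Fin 3) F) *ᵥ x := by
      intro x
      apply Ginj
      rw [Gsmul]
      have k2 : (g : Matrix (Fin n) (Fin n) F) *ᵥ G x = G ((u : Matrix (Fin 3) (Fin 3) F) *ᵥ x) :=
        hm x
      rw [← k2, hr, val_smul, Units.val_one, smul_mulVec, one_mulVec]
    change ProjGenLinGroup.mk u = 1
    refine mk_one_of_scalar (r := (r : F)) ?_
    apply Matrix.toLin'.injective
    refine LinearMap.ext fun x => ?_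
    rw [toLin'_apply, toLin'_apply, smul_mulVec, one_mulVec, k1])
  have hψ1 := trivial_pgl3 ψ
  have k1 := hψ (gen 0) (a, ua) ma ha
  rw [hψ1, MonoidHom.one_apply] at k1
  have k2 : ProjGenLinGroup.mk ua = 1 := k1.symm
  have k3 := entries_of_mk k2 2 0 0
  have k4 : (1 : F) = (1 : Matrix (Fin 3) (Fin 3) F) 2 0 * (0 : F) := k3
  rw [mul_zero] at k4
  exact one_ne_zero k4

end Pool.Agent.Helper61.KP
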